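import Pool.Agent.Helper60.Slit.Tri
import Pool.Agent.Helper60.Slit.Wheel
import Pool.Agent.Lead.IP.NformB
/-! T-JUNCTION (J), inhomogeneous part: definitions.  Leader: helper80.  Everything was checked numerically.
Three legs: down (all strands), up (strands `A`), right (strands `B`, turned by 90 degrees clockwise: the vector of the
right leg is taken at `π/6 - b`).  The tip is the inner corner between the upper and the right leg.
`FF`: tip strand `y` in the lower leg between `A` and `B`;
`GG`: the tip strand `y` only in the upper leg (it starts at the tip), `HH`: only in the right leg.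
All three are the COMPLEMENT event (left side of the tip not joined to the right wall), not normalised.
`b` contains the other strands: `FF`: `A = b 0 .. b (2m)`, `B = b (2m+1) .. b (2m+2k+1)`;
`GG`: `A = b 0 .. b (2m-1)`, `B = b (2m) .. b (2m+2k)`; `HH`: `A = b 0 .. b (2m)`, `B = b (2m+1) .. b (2m+2k)`. -/
namespace IP.Junc
open IP IP.Slit Finset Real

/-- insert `y` at position `i` -/
def ins1 (i : ℕ) (y : ℝ) (b : ℕ → ℝ) : ℕ → ℝ := fun j => if j < i then b j else if j = i then y else b (j - 1)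
/-- remove the entry `i` -/
def del1 (i : ℕ) (b : ℕ → ℝ) : ℕ → ℝ := fun j => b (skip i j)

/-- the complement of the crossing event -/
noncomputable def triC (m k : ℕ) (v1 v2 v : M) : ℝ := tot v1 * tot v2 * tot v - tri m k v1 v2 v

noncomputable def FF (m k : ℕ) (b : ℕ → ℝ) (y : ℝ) : ℝ :=
  triC m k (V m (fun j => -b j)) (V k (fun j => π / 6 - b (2 * m + 1 + j))) (V (m + k + 1) (ins1 (2 * m + 1) y b))
noncomputable def GG (m k : ℕ) (b : ℕ → ℝ) (y : ℝ) : ℝ :=
  triC m k (V m (fun j => if j < 2 * m then -b j else -y)) (V k (fun j => π / 6 - b (2 * m + j)))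
    (In (2 * m) (V (m + k) b))
noncomputable def HH (m k : ℕ) (b : ℕ → ℝ) (y : ℝ) : ℝ :=
  triC m k (V m (fun j => -b j)) (V k (fun j => if j = 0 then π / 6 - y else π / 6 - b (2 * m + j)))
    (In (2 * m + 1) (V (m + k) b))

/-- the three roots: `x³ - 3x = 2 cos 6b` for `x = X0 b, Xp b, Xm b` -/
noncomputable def X0 (b : ℝ) : ℝ := 2 * Real.cos (2 * b)
noncomputable def Xp (b : ℝ) : ℝ := 2 * Real.cos (2 * b + 2 * π / 3)
noncomputable def Xm (b : ℝ) : ℝ := 2 * Real.cos (2 * b - 2 * π / 3)

/-- the symmetric polynomial `Chi` as a function of a multiset -/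
noncomputable def ch (s : Multiset ℝ) : ℝ := Chi (Multiset.card s) (fun i => s.toList.getD i 0)

/-- weight of the strand `b` in the sum over the right group -/
noncomputable def wt (B : Finset ℝ) (b : ℝ) : ℝ :=
  ∏ s ∈ B.erase b, (X0 s - Xp b) * (X0 b - Xp s) / (Xm s - Xm b)

noncomputable def RF (A B : Finset ℝ) (y : ℝ) : ℝ :=
  ∑ b ∈ B, (X0 b - Xp y) * ch (X0 b ::ₘ A.val.map X0) * ch ((B.erase b).val.map Xp) *
    ch (X0 y ::ₘ (A.val.map X0 + (B.erase b).val.map X0)) * wt B b
noncomputable def RG (A B : Finset ℝ) (y : ℝ) : ℝ :=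
  ∑ b ∈ B, ch (X0 y ::ₘ X0 b ::ₘ A.val.map X0) * ch ((B.erase b).val.map Xp) *
    ch (A.val.map X0 + (B.erase b).val.map X0) * wt B b
noncomputable def RH (A B : Finset ℝ) (y : ℝ) : ℝ :=
  ∑ b ∈ B, (Xm b - Xp y) * ch (X0 b ::ₘ A.val.map X0) * ch (Xp y ::ₘ (B.erase b).val.map Xp) *
    ch (A.val.map X0 + (B.erase b).val.map X0) * wt B b

/-- the sets of strands -/
noncomputable def SA (r : ℕ) (b : ℕ → ℝ) : Finset ℝ := (range r).image b
noncomputable def SB (r n : ℕ) (b : ℕ → ℝ) : Finset ℝ := (Ico r (r + n)).image b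
end IP.Junc
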