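import Pool.Agent.Helper80.J.HomDefs
/-! MODULE LAG: a contour integral with simple poles in an injective coordinate `φ` (generalises `Slit/Lag.lean`:
`φ w - φ (z i) = (w - z i) * dslope φ (z i) w`, `dslope` differentiable and nonzero), and the elementary facts on `xmc`, `xpc`, `cc`.
(proved by helper76) -/
namespace IP.Junc
open IP IP.Slit Finset Real

/-- partial fractions -/
theorem lagJ_partial {ι : Type*} [DecidableEq ι] {s : Finset ι} (hs : s.Nonempty) {v : ι → ℂ}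
    (hd : Set.InjOn v s) {u : ℂ} (hu : ∀ i ∈ s, u ≠ v i) :
    (∏ i ∈ s, (v i - u))⁻¹ = ∑ j ∈ s, (∏ i ∈ s.erase j, (v i - v j))⁻¹ * (v j - u)⁻¹ := by
  have hd' : Set.InjOn (fun i => -v i) s := fun i hi j hj h => hd hi hj (neg_injective h)
  have h := Lagrange.eval_interpolate_not_at_node (s := s) (v := fun i => -v i) (x := -u) (fun _ => (1 : ℂ))
    (fun i hi h => hu i hi (neg_injective h))
  have h1 : Lagrange.interpolate s (fun i => -v i) (fun _ => (1 : ℂ)) = 1 := Lagrange.interpolate_one hd' hs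
  rw [h1, Polynomial.eval_one, Lagrange.eval_nodal] at h
  have h0 : ∀ i, -u - -v i = v i - u := fun i => by ring
  have h2 : (∏ i ∈ s, (v i - u)) ≠ 0 :=
    prod_ne_zero_iff.2 fun i hi => sub_ne_zero.2 (hu i hi).symm
  simp only [h0] at h
  have h3 : (∏ i ∈ s, (v i - u))⁻¹ =
      ∑ i ∈ s, Lagrange.nodalWeight s (fun i => -v i) i * (v i - u)⁻¹ * 1 := by
    rw [inv_eq_iff_eq_inv, eq_comm]
    exact inv_eq_of_mul_eq_one_left h.symm
  rw [h3]
  refine sum_congr rfl fun j _ => ?_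
  rw [Lagrange.nodalWeight, prod_inv_distrib, mul_one]
  congr 2
  refine prod_congr rfl fun i _ => ?_
  ring

theorem lag_inj {ι : Type*} [DecidableEq ι] (s : Finset ι) {c : ℂ} {R : ℝ} (hR : 0 < R) {z : ι → ℂ}
    (hz : ∀ i ∈ s, z i ∈ Metric.ball c R) {φ φ' : ℂ → ℂ} (hφ : ∀ w, HasDerivAt φ (φ' w) w)
    (hinj : ∀ w ∈ Metric.closedBall c R, ∀ w' ∈ Metric.closedBall c R, φ w = φ w' → w = w')
    (hne : ∀ w ∈ Metric.closedBall c R, φ' w ≠ 0) (hd : ∀ i ∈ s, ∀ j ∈ s, i ≠ j → z i ≠ z j)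
    {G : ℂ → ℂ} (hG : DifferentiableOn ℂ G (Metric.closedBall c R)) :
    (2 * π * Complex.I : ℂ)⁻¹ * (∮ w in C(c, R), G w * (-φ' w) / ∏ i ∈ s, (φ (z i) - φ w)) =
      ∑ j ∈ s, G (z j) / ∏ i ∈ s.erase j, (φ (z i) - φ (z j)) := by
  have hφd : Differentiable ℂ φ := fun w => (hφ w).differentiableAt
  have hφe : φ' = deriv φ := funext fun w => (hφ w).deriv.symm
  have hφ'd : Differentiable ℂ φ' := by
    rw [hφe]
    have h : ContDiff ℂ 2 φ := hφd.contDiff
    exact (h.iterate_deriv' 1 1).differentiable (by norm_num)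
  have hsub : Metric.sphere c R ⊆ Metric.closedBall c R := Metric.sphere_subset_closedBall
  have hzc : ∀ i ∈ s, z i ∈ Metric.closedBall c R := fun i hi => Metric.ball_subset_closedBall (hz i hi)
  rcases s.eq_empty_or_nonempty with rfl | hs
  · have h : (∮ w in C(c, R), G w * (-φ' w) / ∏ i ∈ (∅ : Finset ι), (φ (z i) - φ w)) = 0 := by
      have hc : DifferentiableOn ℂ (fun w => G w * (-φ' w) / ∏ i ∈ (∅ : Finset ι), (φ (z i) - φ w))
          (Metric.closedBall c R) := by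
        simp only [prod_empty, div_one]
        exact hG.mul hφ'd.differentiableOn.neg
      refine Complex.circleIntegral_eq_zero_of_differentiable_on_off_countable hR.le Set.countable_empty
        hc.continuousOn ?_
      intro w hw
      exact (hc w (Metric.ball_subset_closedBall hw.1)).differentiableAt
        (Metric.closedBall_mem_nhds_of_mem hw.1)
    rw [h, sum_empty, mul_zero]
  · have hws : ∀ w ∈ Metric.sphere c R, ∀ i ∈ s, w ≠ z i := by
      intro w hw i hi h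
      have h1 := hz i hi
      rw [← h, Metric.mem_ball] at h1
      rw [Metric.mem_sphere] at hw
      linarith
    have hφs : ∀ w ∈ Metric.sphere c R, ∀ i ∈ s, φ w ≠ φ (z i) := fun w hw i hi h =>
      hws w hw i hi (hinj w (hsub hw) (z i) (hzc i hi) h)
    have hvinj : Set.InjOn (fun i => φ (z i)) s := by
      intro i hi j hj h
      by_contra hij
      exact hd i hi j hj hij (hinj _ (hzc i hi) _ (hzc j hj) h)
    have hGc : ContinuousOn G (Metric.sphere c R) := hG.continuousOn.mono hsub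
    have h1 : (∮ w in C(c, R), G w * (-φ' w) / ∏ i ∈ s, (φ (z i) - φ w)) =
        ∮ w in C(c, R), ∑ j ∈ s, (∏ i ∈ s.erase j, (φ (z i) - φ (z j)))⁻¹ *
          ((φ (z j) - φ w)⁻¹ * (G w * (-φ' w))) := by
      refine circleIntegral.integral_congr hR.le fun w hw => ?_
      show G w * (-φ' w) / ∏ i ∈ s, (φ (z i) - φ w) = _
      rw [div_eq_mul_inv, lagJ_partial hs hvinj (hφs w hw), mul_sum]
      refine sum_congr rfl fun j _ => ?_
      ring
    have hterm : ∀ j ∈ s, ContinuousOn (fun w => (φ (z j) - φ w)⁻¹ * (G w * (-φ' w))) (Metric.sphere c R) := by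
      intro j hj
      refine ContinuousOn.mul ?_ (hGc.mul hφ'd.continuous.continuousOn.neg)
      refine ContinuousOn.inv₀ (continuous_const.sub hφd.continuous).continuousOn ?_
      intro w hw
      exact sub_ne_zero.2 (hφs w hw j hj).symm
    rw [h1, circleIntegral.integral_fun_sum, mul_sum]
    · refine sum_congr rfl fun j hj => ?_
      rw [circleIntegral.integral_const_mul]
      -- the single pole
      have hD : DifferentiableOn ℂ (dslope φ (z j)) (Metric.closedBall c R) := by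
        intro w hw
        have h2 : DifferentiableOn ℂ (dslope φ (z j)) Set.univ :=
          (Complex.differentiableOn_dslope Filter.univ_mem).2 hφd.differentiableOn
        exact (h2 w (Set.mem_univ w)).differentiableAt Filter.univ_mem |>.differentiableWithinAt
      have hD0 : ∀ w ∈ Metric.closedBall c R, dslope φ (z j) w ≠ 0 := by
        intro w hw h2
        rcases eq_or_ne w (z j) with h3 | h3
        · rw [h3, dslope_same, ← hφe] at h2
          exact hne _ (hzc j hj) h2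
        · rw [dslope_of_ne _ h3, slope_def_field, div_eq_zero_iff] at h2
          rcases h2 with h2 | h2
          · exact h3 (hinj w hw (z j) (hzc j hj) (sub_eq_zero.1 h2))
          · exact h3 (sub_eq_zero.1 h2)
      have h2 : (∮ w in C(c, R), (φ (z j) - φ w)⁻¹ * (G w * (-φ' w))) =
          ∮ w in C(c, R), (w - z j)⁻¹ • (G w * φ' w / dslope φ (z j) w) := by
        refine circleIntegral.integral_congr hR.le fun w hw => ?_
        show (φ (z j) - φ w)⁻¹ * (G w * (-φ' w)) = _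
        have h3 : w - z j ≠ 0 := sub_ne_zero.2 (hws w hw j hj)
        have h4 : φ w - φ (z j) = (w - z j) * dslope φ (z j) w := by
          rw [dslope_of_ne _ (hws w hw j hj), slope_def_field]
          field_simp
        have h5 := hD0 w (hsub hw)
        rw [← neg_sub, h4, smul_eq_mul]
        field_simp
      have hH : DifferentiableOn ℂ (fun w => G w * φ' w / dslope φ (z j) w) (Metric.closedBall c R) :=
        (hG.mul hφ'd.differentiableOn).div hD hD0
      rw [h2, hH.circleIntegral_sub_inv_smul (hz j hj), smul_eq_mul, dslope_same, ← hφe]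
      have h6 : (2 * π * Complex.I : ℂ) ≠ 0 := Complex.two_pi_I_ne_zero
      have h7 := hne _ (hzc j hj)
      field_simp
    · intro j hj
      apply ContinuousOn.circleIntegrable hR.le
      exact continuousOn_const.mul (hterm j hj)

theorem sin_ne {w : ℂ} (h1 : 0 < w.re) (h2 : w.re < π) : Complex.sin w ≠ 0 := by
  intro h
  obtain ⟨k, hk⟩ := Complex.sin_eq_zero_iff.1 h
  have h3 : w.re = k * π := by
    rw [hk]
    simp
  rw [h3] at h1 h2
  have h4 : (0 : ℝ) < k := by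
    by_contra h5
    have := mul_nonpos_of_nonpos_of_nonneg (not_lt.1 h5) Real.pi_pos.le
    linarith
  have h5 : (k : ℝ) < 1 := by
    by_contra h6
    have := mul_le_mul_of_nonneg_right (not_lt.1 h6) Real.pi_pos.le
    linarith
  have h6 : 0 < k := by exact_mod_cast h4
  have h7 : k < 1 := by exact_mod_cast h5
  omega
theorem xc_ofReal (b : ℝ) : xc b = ((X0 b : ℝ) : ℂ) := by
  unfold xc X0
  push_cast
  rfl
theorem xpc_ofReal (b : ℝ) : xpc b = ((Xp b : ℝ) : ℂ) := by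
  unfold xpc Xp
  push_cast
  rfl
theorem xmc_ofReal (b : ℝ) : xmc b = ((Xm b : ℝ) : ℂ) := by
  unfold xmc Xm
  push_cast
  rfl
theorem xmc_hasDerivAt (z : ℂ) : HasDerivAt xmc (xmd z) z := by
  have h1 : HasDerivAt (fun z : ℂ => 2 * z - 2 * (Real.pi : ℂ) / 3) (2 * 1) z :=
    ((hasDerivAt_id z).const_mul 2).sub_const _
  have h2 := (h1.ccos).const_mul 2
  refine HasDerivAt.congr_deriv (f := xmc) h2 ?_
  unfold xmd
  ring
theorem xc_sub_xpc (a : ℝ) (z : ℂ) : ((X0 a : ℝ) : ℂ) - xpc z = 4 * (Complex.sin (a + z + π / 3) * Complex.sin (z + π / 3 - a)) := by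
  rw [← xc_ofReal]
  unfold xc xpc
  have h := Complex.cos_sub_cos (2 * (a : ℂ)) (2 * z + 2 * (π : ℂ) / 3)
  rw [show (2 * (a : ℂ) + (2 * z + 2 * (π : ℂ) / 3)) / 2 = a + z + π / 3 by ring,
    show (2 * (a : ℂ) - (2 * z + 2 * (π : ℂ) / 3)) / 2 = -(z + π / 3 - a) by ring, Complex.sin_neg] at h
  linear_combination 2 * h
theorem Xm_sub_xmc (a : ℝ) (z : ℂ) : ((Xm a : ℝ) : ℂ) - xmc z = 4 * (Complex.sin (2 * π / 3 - a - z) * Complex.sin (a - z)) := by
  rw [← xmc_ofReal]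
  unfold xmc
  have h := Complex.cos_sub_cos (2 * (a : ℂ) - 2 * (π : ℂ) / 3) (2 * z - 2 * (π : ℂ) / 3)
  rw [show (2 * (a : ℂ) - 2 * (π : ℂ) / 3 + (2 * z - 2 * (π : ℂ) / 3)) / 2 = -(2 * π / 3 - a - z) by ring,
    show (2 * (a : ℂ) - 2 * (π : ℂ) / 3 - (2 * z - 2 * (π : ℂ) / 3)) / 2 = a - z by ring, Complex.sin_neg] at h
  linear_combination 2 * h
theorem X0_sub_xmc (a : ℝ) (z : ℂ) : ((X0 a : ℝ) : ℂ) - xmc z = 4 * (Complex.sin (a + z - π / 3) * Complex.sin (z - π / 3 - a)) := by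
  rw [← xc_ofReal]
  unfold xc xmc
  have h := Complex.cos_sub_cos (2 * (a : ℂ)) (2 * z - 2 * (π : ℂ) / 3)
  rw [show (2 * (a : ℂ) + (2 * z - 2 * (π : ℂ) / 3)) / 2 = a + z - π / 3 by ring,
    show (2 * (a : ℂ) - (2 * z - 2 * (π : ℂ) / 3)) / 2 = -(z - π / 3 - a) by ring, Complex.sin_neg] at h
  linear_combination 2 * h

theorem lagJ_re {z0 z : ℂ} {r : ℝ} (h : z ∈ Metric.closedBall z0 r) : z0.re - r ≤ z.re ∧ z.re ≤ z0.re + r := by
  rw [Metric.mem_closedBall, Complex.dist_eq] at h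
  have h1 := (Complex.abs_re_le_norm (z - z0)).trans h
  rw [Complex.sub_re, abs_le] at h1
  constructor <;> linarith [h1.1, h1.2]

theorem lagJ_re0 {z : ℂ} (h : z ∈ Metric.closedBall (0 : ℂ) (1 / 10)) : -(1 / 10) ≤ z.re ∧ z.re ≤ 1 / 10 := by
  have h1 := lagJ_re h
  rw [Complex.zero_re] at h1
  constructor <;> linarith [h1.1, h1.2]

theorem lagJ_re6 {z : ℂ} (h : z ∈ Metric.closedBall ((π / 6 : ℝ) : ℂ) (1 / 10)) :
    π / 6 - 1 / 10 ≤ z.re ∧ z.re ≤ π / 6 + 1 / 10 := by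
  have h1 := lagJ_re h
  rw [Complex.ofReal_re] at h1
  exact h1

theorem lagJ_re06 {z0 : ℂ} (h0 : z0 = 0 ∨ z0 = ((π / 6 : ℝ) : ℂ)) {z : ℂ} (h : z ∈ Metric.closedBall z0 (1 / 10)) :
    -(1 / 10) ≤ z.re ∧ z.re ≤ π / 6 + 1 / 10 := by
  rcases h0 with rfl | rfl
  · have h1 := lagJ_re0 h
    constructor <;> linarith [h1.1, h1.2, Real.pi_pos]
  · have h1 := lagJ_re6 h
    constructor <;> linarith [h1.1, h1.2, Real.pi_pos]

/-- `xmc` is injective on both discs -/
theorem xmc_inj {z0 : ℂ} (h0 : z0 = 0 ∨ z0 = ((π / 6 : ℝ) : ℂ)) {w w' : ℂ} (hw : w ∈ Metric.closedBall z0 (1 / 10))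
    (hw' : w' ∈ Metric.closedBall z0 (1 / 10)) (h : xmc w = xmc w') : w = w' := by
  have hpi := Real.pi_gt_three
  have h1 := lagJ_re06 h0 hw
  have h2 := lagJ_re06 h0 hw'
  have h3 := Complex.cos_sub_cos (2 * w - 2 * (π : ℂ) / 3) (2 * w' - 2 * (π : ℂ) / 3)
  rw [show (2 * w - 2 * (π : ℂ) / 3 + (2 * w' - 2 * (π : ℂ) / 3)) / 2 = -(2 * π / 3 - w - w') by ring,
    show (2 * w - 2 * (π : ℂ) / 3 - (2 * w' - 2 * (π : ℂ) / 3)) / 2 = w - w' by ring, Complex.sin_neg] at h3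
  unfold xmc at h
  have e : (2 * (π : ℂ) / 3 - w - w').re = 2 * π / 3 - w.re - w'.re := by
    rw [Complex.sub_re, Complex.sub_re]
    congr 2
    rw [show (2 * (π : ℂ) / 3) = ((2 * π / 3 : ℝ) : ℂ) by push_cast; rfl, Complex.ofReal_re]
  have h4 : Complex.sin (2 * π / 3 - w - w') ≠ 0 := by
    apply sin_ne
    · rw [e]; linarith [h1.2, h2.2]
    · rw [e]; linarith [h1.1, h2.1]
  have h5 : Complex.sin (w - w') = 0 := by
    have h6 : Complex.sin (2 * π / 3 - w - w') * Complex.sin (w - w') = 0 := by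
      linear_combination -(1 / 2) * h3 + (1 / 4) * h
    exact (mul_eq_zero.1 h6).resolve_left h4
  by_contra hne
  rcases lt_trichotomy (w - w').re 0 with h6 | h6 | h6
  · have h7 : Complex.sin (w' - w) ≠ 0 := by
      apply sin_ne
      · rw [Complex.sub_re] at h6 ⊢; linarith
      · rw [Complex.sub_re]; linarith [h1.1, h2.2]
    apply h7
    rw [← neg_sub, Complex.sin_neg, h5, neg_zero]
  · obtain ⟨k, hk⟩ := Complex.sin_eq_zero_iff.1 h5
    rw [hk] at h6
    have h7 : (k : ℝ) * π = 0 := by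
      rw [← h6]
      simp
    have h8 : (k : ℝ) = 0 := (mul_eq_zero.1 h7).resolve_right Real.pi_ne_zero
    have h9 : k = 0 := by exact_mod_cast h8
    rw [h9, Int.cast_zero, zero_mul] at hk
    exact hne (sub_eq_zero.1 hk)
  · exact sin_ne h6 (by rw [Complex.sub_re]; linarith [h1.2, h2.1]) h5
theorem xmd_ne {z0 : ℂ} (h0 : z0 = 0 ∨ z0 = ((π / 6 : ℝ) : ℂ)) {w : ℂ} (hw : w ∈ Metric.closedBall z0 (1 / 10)) : xmd w ≠ 0 := by
  have hpi := Real.pi_gt_three
  have h1 := lagJ_re06 h0 hw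
  have e : (2 * (π : ℂ) / 3 - 2 * w).re = 2 * π / 3 - 2 * w.re := by
    rw [Complex.sub_re]
    congr 1
    · rw [show (2 * (π : ℂ) / 3) = ((2 * π / 3 : ℝ) : ℂ) by push_cast; rfl, Complex.ofReal_re]
    · simp
  have h4 : Complex.sin (2 * π / 3 - 2 * w) ≠ 0 := by
    apply sin_ne
    · rw [e]; linarith [h1.2]
    · rw [e]; linarith [h1.1]
  unfold xmd
  rw [← neg_sub (2 * (π : ℂ) / 3), Complex.sin_neg]
  simpa using h4
/-- `cc` is injective on the disc around `2`, and its derivative does not vanish -/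
theorem cc_hasDerivAt (x : ℂ) : HasDerivAt cc (3 * x ^ 2 - 3) x := by
  have h1 : HasDerivAt (fun x : ℂ => x ^ 3 - 3 * x) ((3 : ℕ) * x ^ (3 - 1) - 3 * 1) x :=
    (hasDerivAt_pow 3 x).sub ((hasDerivAt_id x).const_mul 3)
  refine HasDerivAt.congr_deriv (f := cc) h1 ?_
  norm_num
theorem cc_inj {x x' : ℂ} (hx : x ∈ Metric.closedBall (2 : ℂ) (1 / 2)) (hx' : x' ∈ Metric.closedBall (2 : ℂ) (1 / 2))
    (h : cc x = cc x') : x = x' := by
  rw [Metric.mem_closedBall, Complex.dist_eq] at hx hx'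
  unfold cc at h
  have h1 : (x - x') * (9 + (6 * (x - 2) + 6 * (x' - 2) + (x - 2) ^ 2 + (x - 2) * (x' - 2) + (x' - 2) ^ 2)) = 0 := by
    linear_combination h
  have h2 : ‖6 * (x - 2) + 6 * (x' - 2) + (x - 2) ^ 2 + (x - 2) * (x' - 2) + (x' - 2) ^ 2‖ ≤
      6 * (1 / 2) + 6 * (1 / 2) + (1 / 2) ^ 2 + (1 / 2) * (1 / 2) + (1 / 2) ^ 2 := by
    refine (norm_add_le _ _).trans (add_le_add ((norm_add_le _ _).trans (add_le_add ((norm_add_le _ _).trans
      (add_le_add ((norm_add_le _ _).trans (add_le_add ?_ ?_)) ?_)) ?_)) ?_)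
    · rw [norm_mul, Complex.norm_ofNat]
      exact mul_le_mul_of_nonneg_left hx (by norm_num)
    · rw [norm_mul, Complex.norm_ofNat]
      exact mul_le_mul_of_nonneg_left hx' (by norm_num)
    · rw [norm_pow]
      exact pow_le_pow_left₀ (norm_nonneg _) hx 2
    · rw [norm_mul]
      exact mul_le_mul hx hx' (norm_nonneg _) (by norm_num)
    · rw [norm_pow]
      exact pow_le_pow_left₀ (norm_nonneg _) hx' 2
  rcases mul_eq_zero.1 h1 with h3 | h3
  · exact sub_eq_zero.1 h3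
  · exfalso
    have h4 : ‖(9 : ℂ)‖ ≤ 27 / 4 := by
      rw [show (9 : ℂ) = -(6 * (x - 2) + 6 * (x' - 2) + (x - 2) ^ 2 + (x - 2) * (x' - 2) + (x' - 2) ^ 2) by
        linear_combination h3, norm_neg]
      refine h2.trans ?_
      norm_num
    rw [Complex.norm_ofNat] at h4
    norm_num at h4

theorem lagJ_x1 {x : ℂ} (hx : x ∈ Metric.closedBall (2 : ℂ) (1 / 2)) : 1 / 2 ≤ ‖x - 1‖ := by
  rw [Metric.mem_closedBall, Complex.dist_eq] at hx
  have h1 : ‖(1 : ℂ)‖ ≤ ‖x - 1‖ + ‖x - 2‖ := by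
    rw [show (1 : ℂ) = (x - 1) - (x - 2) by ring]
    refine (norm_sub_le _ _).trans (le_of_eq ?_)
    ring_nf
  rw [norm_one] at h1
  linarith

theorem lagJ_x2 {x : ℂ} (hx : x ∈ Metric.closedBall (2 : ℂ) (1 / 2)) : 7 / 2 ≤ ‖x + 2‖ := by
  rw [Metric.mem_closedBall, Complex.dist_eq] at hx
  have h1 : ‖(4 : ℂ)‖ ≤ ‖x + 2‖ + ‖x - 2‖ := by
    rw [show (4 : ℂ) = (x + 2) - (x - 2) by ring]
    refine (norm_sub_le _ _).trans (le_of_eq ?_)
    ring_nf
  rw [Complex.norm_ofNat] at h1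
  linarith

theorem cc_der_ne {x : ℂ} (hx : x ∈ Metric.closedBall (2 : ℂ) (1 / 2)) : 3 * x ^ 2 - 3 ≠ 0 := by
  have h1 := lagJ_x1 hx
  rw [Metric.mem_closedBall, Complex.dist_eq] at hx
  have h2 : x - 1 ≠ 0 := by
    intro h
    rw [h, norm_zero] at h1
    linarith
  have h3 : x + 1 ≠ 0 := by
    intro h
    have h4 : x - 2 = -3 := by linear_combination h
    rw [h4, norm_neg, Complex.norm_ofNat] at hx
    linarith
  rw [show 3 * x ^ 2 - 3 = 3 * ((x - 1) * (x + 1)) by ring]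
  exact mul_ne_zero (by norm_num) (mul_ne_zero h2 h3)

theorem lagJ_sin_neg {w : ℂ} (h1 : -π < w.re) (h2 : w.re < 0) : Complex.sin w ≠ 0 := by
  have h : Complex.sin (-w) ≠ 0 := by
    apply sin_ne
    · rw [Complex.neg_re]; linarith
    · rw [Complex.neg_re]; linarith
  intro h3
  apply h
  rw [Complex.sin_neg, h3, neg_zero]

theorem lagJ_third : ((π : ℂ) / 3).re = π / 3 := by
  rw [show ((π : ℂ) / 3) = ((π / 3 : ℝ) : ℂ) by push_cast; rfl, Complex.ofReal_re]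

theorem lagJ_twothird : (2 * (π : ℂ) / 3).re = 2 * π / 3 := by
  rw [show (2 * (π : ℂ) / 3) = ((2 * π / 3 : ℝ) : ℂ) by push_cast; rfl, Complex.ofReal_re]

/-- harmless factors -/
theorem fac1 {z0 : ℂ} (h0 : z0 = 0 ∨ z0 = ((π / 6 : ℝ) : ℂ)) {z : ℂ} (hz : z ∈ Metric.closedBall z0 (1 / 10)) {a : ℝ}
    (ha : |a| < 1 / 100) : ((X0 a : ℝ) : ℂ) - xpc z ≠ 0 := by
  have hpi := Real.pi_gt_three
  have h1 := lagJ_re06 h0 hz
  rw [abs_lt] at ha
  rw [xc_sub_xpc]
  refine mul_ne_zero (by norm_num) (mul_ne_zero (sin_ne ?_ ?_) (sin_ne ?_ ?_)) <;>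
  · simp only [Complex.add_re, Complex.sub_re, Complex.ofReal_re, lagJ_third]
    linarith [h1.1, h1.2, ha.1, ha.2]
theorem fac2 {z0 : ℂ} (h0 : z0 = 0 ∨ z0 = ((π / 6 : ℝ) : ℂ)) {z : ℂ} (hz : z ∈ Metric.closedBall z0 (1 / 10)) :
    ((X0 (π / 6) : ℝ) : ℂ) - xpc z ≠ 0 := by
  have hpi := Real.pi_gt_three
  have h1 := lagJ_re06 h0 hz
  rw [xc_sub_xpc]
  refine mul_ne_zero (by norm_num) (mul_ne_zero (sin_ne ?_ ?_) (sin_ne ?_ ?_)) <;>
  · simp only [Complex.add_re, Complex.sub_re, Complex.ofReal_re, lagJ_third]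
    linarith [h1.1, h1.2]
theorem fac3 {z : ℂ} (hz : z ∈ Metric.closedBall (0 : ℂ) (1 / 10)) {a : ℝ} (ha : |a - π / 6| < 1 / 100) :
    ((Xm a : ℝ) : ℂ) - xmc z ≠ 0 := by
  have hpi := Real.pi_gt_three
  have h1 := lagJ_re0 hz
  rw [abs_lt] at ha
  rw [Xm_sub_xmc]
  refine mul_ne_zero (by norm_num) (mul_ne_zero (sin_ne ?_ ?_) (sin_ne ?_ ?_)) <;>
  · simp only [Complex.sub_re, Complex.ofReal_re, lagJ_twothird]
    linarith [h1.1, h1.2, ha.1, ha.2]
theorem fac4 {z : ℂ} (hz : z ∈ Metric.closedBall ((π / 6 : ℝ) : ℂ) (1 / 10)) {a : ℝ} (ha : |a| < 1 / 100) :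
    ((Xm a : ℝ) : ℂ) - xmc z ≠ 0 := by
  have hpi := Real.pi_gt_three
  have h1 := lagJ_re6 hz
  rw [abs_lt] at ha
  rw [Xm_sub_xmc]
  refine mul_ne_zero (by norm_num) (mul_ne_zero (sin_ne ?_ ?_) (lagJ_sin_neg ?_ ?_)) <;>
  · simp only [Complex.sub_re, Complex.ofReal_re, lagJ_twothird]
    linarith [h1.1, h1.2, ha.1, ha.2]
theorem fac5 {z : ℂ} (hz : z ∈ Metric.closedBall ((π / 6 : ℝ) : ℂ) (1 / 10)) {a : ℝ} (ha : |a| < 1 / 100) :
    ((X0 a : ℝ) : ℂ) - xmc z ≠ 0 := by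
  have hpi := Real.pi_gt_three
  have h1 := lagJ_re6 hz
  rw [abs_lt] at ha
  rw [X0_sub_xmc]
  refine mul_ne_zero (by norm_num) (mul_ne_zero (lagJ_sin_neg ?_ ?_) (lagJ_sin_neg ?_ ?_)) <;>
  · simp only [Complex.add_re, Complex.sub_re, Complex.ofReal_re, lagJ_third]
    linarith [h1.1, h1.2, ha.1, ha.2]
theorem fac6 {x : ℂ} (hx : x ∈ Metric.closedBall (2 : ℂ) (1 / 2)) {a : ℝ} (ha : |a - π / 6| < 1 / 100) :
    cc x - cc ((X0 a : ℝ) : ℂ) ≠ 0 := by
  have h1 := lagJ_x1 hx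
  have h2 := lagJ_x2 hx
  have h3 : cc x + 2 = (x + 2) * (x - 1) ^ 2 := by
    unfold cc
    ring
  have h4 : cc ((X0 a : ℝ) : ℂ) + 2 = (((X0 a + 2) * (X0 a - 1) ^ 2 : ℝ) : ℂ) := by
    unfold cc
    push_cast
    ring
  have h5 : |X0 a - 1| ≤ 1 / 25 := by
    have h6 : X0 a - 1 = 2 * (Real.cos (2 * a) - Real.cos (π / 3)) := by
      unfold X0
      rw [Real.cos_pi_div_three]
      ring
    rw [h6, abs_mul, abs_two]
    have h7 := Real.abs_cos_sub_cos_le (2 * a) (π / 3)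
    rw [show 2 * a - π / 3 = 2 * (a - π / 6) by ring, abs_mul, abs_two] at h7
    linarith
  have h6 : ‖cc ((X0 a : ℝ) : ℂ) + 2‖ ≤ 4 * (1 / 25) ^ 2 := by
    rw [h4, Complex.norm_real, Real.norm_eq_abs, abs_mul, abs_pow]
    have h8 : |X0 a + 2| ≤ 4 := by
      unfold X0
      rw [abs_le]
      constructor <;> linarith [Real.neg_one_le_cos (2 * a), Real.cos_le_one (2 * a)]
    exact mul_le_mul h8 (pow_le_pow_left₀ (abs_nonneg _) h5 2) (by positivity) (by norm_num)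
  have h7 : 7 / 2 * (1 / 2) ^ 2 ≤ ‖cc x + 2‖ := by
    rw [h3, norm_mul, norm_pow]
    exact mul_le_mul h2 (pow_le_pow_left₀ (by norm_num) h1 2) (by positivity) (norm_nonneg _)
  intro h
  rw [sub_eq_zero.1 h] at h7
  norm_num at h6 h7
  linarith
/-- the nodes -/
theorem node0 {a : ℝ} (ha : |a| < 1 / 100) : (a : ℂ) ∈ Metric.ball (0 : ℂ) (1 / 10) := by
  rw [Metric.mem_ball, dist_zero_right, Complex.norm_real, Real.norm_eq_abs]
  linarith
theorem node6 {a : ℝ} (ha : |a - π / 6| < 1 / 100) : (a : ℂ) ∈ Metric.ball ((π / 6 : ℝ) : ℂ) (1 / 10) := by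
  rw [Metric.mem_ball, Complex.dist_eq, ← Complex.ofReal_sub, Complex.norm_real, Real.norm_eq_abs]
  linarith
theorem node2 {a : ℝ} (ha : |a| < 1 / 100) : ((X0 a : ℝ) : ℂ) ∈ Metric.ball (2 : ℂ) (1 / 2) := by
  rw [Metric.mem_ball, Complex.dist_eq, show ((X0 a : ℝ) : ℂ) - 2 = ((X0 a - 2 : ℝ) : ℂ) by push_cast; rfl,
    Complex.norm_real, Real.norm_eq_abs]
  have h1 := Real.one_sub_sq_div_two_le_cos (x := 2 * a)
  have h2 := Real.cos_le_one (2 * a)
  have h3 : a ^ 2 ≤ (1 / 100) ^ 2 := by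
    rw [← sq_abs]
    exact pow_le_pow_left₀ (abs_nonneg _) ha.le 2
  unfold X0
  rw [abs_lt]
  constructor <;> nlinarith
end IP.Junc
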