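import Pool.Agent.Helper80.J.TermJ
import Pool.Agent.Helper80.J.LagJ
/-! MODULE CONTOUR (first case): `RF_term` and `lag_inj` for the two groups `range (2p)` (columns, around `0`) and the
rows (around `π/6`); the factors of the other group belong to `G`. `CH_diff`: a polynomial by `Chi_poly`. -/
namespace IP.Junc
open IP IP.Slit Finset Real

theorem CH_poly (r : ℕ) (s : ℕ → ℂ) : ∃ P : Polynomial ℂ, ∀ x, CH r s x = P.eval x := by
  obtain ⟨P, _, hP⟩ := Chi_poly (K := ℂ) (Nat.lt_succ_self r) s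
  exact ⟨P, hP⟩

theorem ct_CH (r : ℕ) (s : ℕ → ℂ) : Differentiable ℂ (CH r s) := by
  obtain ⟨P, hP⟩ := CH_poly r s
  have h : CH r s = fun x => P.eval x := funext hP
  rw [h]
  exact P.differentiable

theorem ct_xc : Differentiable ℂ xc := by
  unfold xc
  fun_prop

theorem ct_xpc : Differentiable ℂ xpc := by
  unfold xpc
  fun_prop

theorem ct_xmc : Differentiable ℂ xmc := fun z => (xmc_hasDerivAt z).differentiableAt

theorem ct_GN (m k : ℕ) (b : ℕ → ℝ) (y : ℝ) : Differentiable ℂ (GN m k b y) := by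
  unfold GN
  exact (((ct_xc.sub (differentiable_const _)).mul ((ct_CH _ _).comp ct_xc)).mul
    ((ct_CH _ _).comp ct_xmc)).mul ((ct_CH _ _).comp ct_xmc)

theorem ct_GD (m : ℕ) (b : ℕ → ℝ) (y : ℝ) : Differentiable ℂ (GD m b y) := by
  unfold GD
  refine ((differentiable_const _).sub ct_xpc).mul ?_
  exact Differentiable.fun_finsetProd fun i _ => (differentiable_const _).sub ct_xpc

/-- one of the two discs: `s` = the strands inside, `t` = the strands outside -/
theorem ct_disc (m k : ℕ) (b : ℕ → ℝ) (y : ℝ) {z0 : ℂ} (h0 : z0 = 0 ∨ z0 = ((π / 6 : ℝ) : ℂ)) (s t : Finset ℕ)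
    (hst : Disjoint s t) (hu : s ∪ t = range (2 * k + 1))
    (hs : ∀ j ∈ s, ((b (2 * m + 1 + j) : ℝ) : ℂ) ∈ Metric.ball z0 (1 / 10))
    (ht : ∀ j ∈ t, ∀ z ∈ Metric.closedBall z0 (1 / 10), ((Xm (b (2 * m + 1 + j)) : ℝ) : ℂ) - xmc z ≠ 0)
    (hinj : ∀ i ∈ s, ∀ j ∈ s, i ≠ j → b (2 * m + 1 + i) ≠ b (2 * m + 1 + j))
    (hD : ∀ z ∈ Metric.closedBall z0 (1 / 10), GD m b y z ≠ 0) :
    (2 * π * Complex.I : ℂ)⁻¹ * (∮ z in C(z0, 1 / 10), GB m k b y z) =
      ∑ j ∈ s, GN m k b y (b (2 * m + 1 + j)) / GD m b y (b (2 * m + 1 + j)) /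
        ∏ l ∈ (range (2 * k + 1)).erase j, (((Xm (b (2 * m + 1 + l)) : ℝ) : ℂ) - ((Xm (b (2 * m + 1 + j)) : ℝ) : ℂ)) := by
  have key := lag_inj s (c := z0) (R := 1 / 10) (by norm_num) (z := fun j => ((b (2 * m + 1 + j) : ℝ) : ℂ)) hs
    (φ := xmc) (φ' := xmd) xmc_hasDerivAt (fun w hw w' hw' h => xmc_inj h0 hw hw' h) (fun w hw => xmd_ne h0 hw)
    (fun i hi j hj hij h => hinj i hi j hj hij (Complex.ofReal_injective h))
    (G := fun z => GN m k b y z / GD m b y z / ∏ l ∈ t, (((Xm (b (2 * m + 1 + l)) : ℝ) : ℂ) - xmc z))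
    (by
      refine DifferentiableOn.div (DifferentiableOn.div (ct_GN m k b y).differentiableOn (ct_GD m b y).differentiableOn hD) ?_ ?_
      · exact (Differentiable.fun_finsetProd fun i _ => (differentiable_const _).sub ct_xmc).differentiableOn
      · intro z hz
        exact prod_ne_zero_iff.2 fun j hj => ht j hj z hz)
  have e1 : (∮ z in C(z0, 1 / 10), GB m k b y z) = ∮ w in C(z0, 1 / 10),
      (fun z => GN m k b y z / GD m b y z / ∏ l ∈ t, (((Xm (b (2 * m + 1 + l)) : ℝ) : ℂ) - xmc z)) w * (-xmd w) /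
        ∏ i ∈ s, (xmc ((b (2 * m + 1 + i) : ℝ) : ℂ) - xmc w) := by
    congr 1
    funext w
    unfold GB
    rw [← hu, prod_union hst]
    simp only [xmc_ofReal]
    simp only [div_eq_mul_inv, mul_inv]
    ring
  rw [e1, key]
  refine sum_congr rfl fun j hj => ?_
  have hjt : j ∉ t := Finset.disjoint_left.1 hst hj
  rw [← hu, Finset.erase_union_distrib, Finset.erase_eq_of_notMem hjt, prod_union
    (Finset.disjoint_of_subset_left (Finset.erase_subset _ _) hst)]
  simp only [xmc_ofReal]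
  simp only [div_eq_mul_inv, mul_inv]
  ring

theorem RF_contour (m p q : ℕ) {b : ℕ → ℝ} (hb : Gn b) (h0 : ∀ i < 2 * (m + p) + 1, |b i| < 1 / 100)
    (h6 : ∀ i, 2 * (m + p) + 1 ≤ i → i < 2 * (m + p + q) + 2 → |b i - π / 6| < 1 / 100) :
    ((RF (SA (2 * m + 1) b) (SB (2 * m + 1) (2 * (p + q) + 1) b) (π / 6) : ℝ) : ℂ) =
      (2 * π * Complex.I : ℂ)⁻¹ * ((∮ z in C(0, 1 / 10), GB m (p + q) b (π / 6) z) +
        ∮ z in C(((π / 6 : ℝ) : ℂ), 1 / 10), GB m (p + q) b (π / 6) z) := by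
  have hGD : ∀ z0 : ℂ, (z0 = 0 ∨ z0 = ((π / 6 : ℝ) : ℂ)) → ∀ z ∈ Metric.closedBall z0 (1 / 10),
      GD m b (π / 6) z ≠ 0 := by
    intro z0 hz0 z hz
    unfold GD
    refine mul_ne_zero (fac2 hz0 hz) (prod_ne_zero_iff.2 fun i hi => fac1 hz0 hz (h0 i ?_))
    have := mem_range.1 hi
    omega
  -- the position of the strands of the second group
  have hpos : ∀ j < 2 * (p + q) + 1, (j < 2 * p → |b (2 * m + 1 + j)| < 1 / 100) ∧
      (2 * p ≤ j → |b (2 * m + 1 + j) - π / 6| < 1 / 100) := by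
    intro j hj
    exact ⟨fun h => h0 _ (by omega), fun h => h6 _ (by omega) (by omega)⟩
  have hball : ∀ j < 2 * (p + q) + 1, ∃ z0 : ℂ, (z0 = 0 ∨ z0 = ((π / 6 : ℝ) : ℂ)) ∧
      ((b (2 * m + 1 + j) : ℝ) : ℂ) ∈ Metric.closedBall z0 (1 / 10) := by
    intro j hj
    rcases lt_or_ge j (2 * p) with h | h
    · exact ⟨0, Or.inl rfl, Metric.ball_subset_closedBall (node0 ((hpos j hj).1 h))⟩
    · exact ⟨_, Or.inr rfl, Metric.ball_subset_closedBall (node6 ((hpos j hj).2 h))⟩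
  rw [RF_term m (p + q) (fun i _ j _ hij h => hij (mn_inj hb h)) (fun j _ => ⟨by
    have := mn_X0m hb (2 * m + 1 + j)
    rwa [X0_sub] at this, mn_Xpm hb _⟩) ?_ ?_]
  · have hI : range (2 * p) ∪ Ico (2 * p) (2 * (p + q) + 1) = range (2 * (p + q) + 1) := by
      ext j
      simp only [mem_union, mem_range, mem_Ico]
      omega
    have hdis : Disjoint (range (2 * p)) (Ico (2 * p) (2 * (p + q) + 1)) := by
      rw [Finset.disjoint_left]
      intro j h1 h2
      rw [mem_range] at h1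
      rw [mem_Ico] at h2
      omega
    rw [mul_add (2 * π * Complex.I : ℂ)⁻¹, ct_disc m (p + q) b (π / 6) (Or.inl rfl) (range (2 * p)) (Ico (2 * p) (2 * (p + q) + 1)) hdis hI ?_ ?_
      (fun i _ j _ hij h => hij (by have := mn_inj hb h; omega)) (hGD 0 (Or.inl rfl)),
      ct_disc m (p + q) b (π / 6) (Or.inr rfl) (Ico (2 * p) (2 * (p + q) + 1)) (range (2 * p)) hdis.symm
        (by rw [union_comm]; exact hI) ?_ ?_
      (fun i _ j _ hij h => hij (by have := mn_inj hb h; omega)) (hGD _ (Or.inr rfl)), ← sum_union hdis, hI]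
    · intro j hj
      rw [mem_Ico] at hj
      exact node6 ((hpos j hj.2).2 hj.1)
    · intro j hj z hz
      rw [mem_range] at hj
      exact fac4 hz ((hpos j (by omega)).1 hj)
    · intro j hj
      rw [mem_range] at hj
      exact node0 ((hpos j (by omega)).1 hj)
    · intro j hj z hz
      rw [mem_Ico] at hj
      exact fac3 hz ((hpos j hj.2).2 hj.1)
  · intro i hi j hj h
    obtain ⟨z0, hz0, hz⟩ := hball j hj
    apply fac1 hz0 hz (h0 i (by omega))
    rw [xpc_ofReal, h, sub_self]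
  · intro j hj h
    obtain ⟨z0, hz0, hz⟩ := hball j hj
    apply fac2 hz0 hz
    rw [xpc_ofReal, h, sub_self]
end IP.Junc
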