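import Pool.Agent.Helper80.J.MixJ
import Pool.Agent.Helper80.J.LagJ
/-! MODULE HOMJ: the homogeneous integrands.  With `x, x', w` the three roots (`xc z`, `xpc z`, `xmc z`):
`(x-2)(x'-2)(w-2) = c-2`, `(x-1)(x'-1)(w-1) = c+2`, `c-2 = (w-2)(w+1)^2`, `c+2 = (w+2)(w-1)^2 = (x+2)(x-1)^2`.
(proved by helper19) -/
namespace IP.Junc
open IP IP.Slit Finset Real

/-! ### values -/
theorem homJ_X0_0 : ((X0 0 : ℝ) : ℂ) = 2 := by
  unfold X0
  rw [mul_zero, Real.cos_zero]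
  norm_num
theorem homJ_X0_6 : ((X0 (π / 6) : ℝ) : ℂ) = 1 := by
  unfold X0
  rw [show 2 * (π / 6) = π / 3 by ring, Real.cos_pi_div_three]
  norm_num
theorem homJ_Xp_0 : ((Xp 0 : ℝ) : ℂ) = -1 := by
  unfold Xp
  rw [show 2 * 0 + 2 * π / 3 = π - π / 3 by ring, Real.cos_pi_sub, Real.cos_pi_div_three]
  norm_num
theorem homJ_Xp_6 : ((Xp (π / 6) : ℝ) : ℂ) = -2 := by
  unfold Xp
  rw [show 2 * (π / 6) + 2 * π / 3 = π by ring, Real.cos_pi]
  norm_num
theorem homJ_Xp_3 : ((Xp (0 + π / 3) : ℝ) : ℂ) = -1 := by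
  unfold Xp
  rw [show 2 * (0 + π / 3) + 2 * π / 3 = π / 3 + π by ring, Real.cos_add_pi, Real.cos_pi_div_three]
  norm_num
theorem homJ_Xm_0 : ((Xm 0 : ℝ) : ℂ) = -1 := by
  unfold Xm
  rw [show 2 * 0 - 2 * π / 3 = -(π - π / 3) by ring, Real.cos_neg, Real.cos_pi_sub, Real.cos_pi_div_three]
  norm_num
theorem homJ_Xm_6 : ((Xm (π / 6) : ℝ) : ℂ) = 1 := by
  unfold Xm
  rw [show 2 * (π / 6) - 2 * π / 3 = -(π / 3) by ring, Real.cos_neg, Real.cos_pi_div_three]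
  norm_num

/-! ### the three roots -/
theorem homJ_cos : Complex.cos (2 * (Real.pi : ℂ) / 3) = -(1 / 2) := by
  rw [show 2 * (Real.pi : ℂ) / 3 = ((π - π / 3 : ℝ) : ℂ) by push_cast; ring, ← Complex.ofReal_cos, Real.cos_pi_sub,
    Real.cos_pi_div_three]
  norm_num
theorem homJ_sin : Complex.sin (2 * (Real.pi : ℂ) / 3) ^ 2 = 3 / 4 := by
  have h := Complex.sin_sq_add_cos_sq (2 * (Real.pi : ℂ) / 3)
  rw [homJ_cos] at h
  linear_combination h
theorem homJ_sum (z : ℂ) : xc z + xpc z + xmc z = 0 := by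
  unfold xc xpc xmc
  rw [Complex.cos_add, Complex.cos_sub, homJ_cos]
  ring
theorem homJ_e2 (z : ℂ) : xc z * xpc z + xc z * xmc z + xpc z * xmc z = -3 := by
  unfold xc xpc xmc
  rw [Complex.cos_add, Complex.cos_sub, homJ_cos]
  have h := Complex.sin_sq_add_cos_sq (2 * z)
  have h1 := homJ_sin
  linear_combination (-3) * h - 4 * Complex.sin (2 * z) ^ 2 * h1
theorem homJ_cx (z : ℂ) : cc (xc z) = xc z * xpc z * xmc z := by
  unfold cc
  linear_combination xc z ^ 2 * homJ_sum z - xc z * homJ_e2 z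
theorem homJ_cw (z : ℂ) : cc (xmc z) = cc (xc z) := by
  rw [homJ_cx]
  unfold cc
  linear_combination xmc z ^ 2 * homJ_sum z - xmc z * homJ_e2 z
theorem homJ_two (z : ℂ) : (xc z - 2) * (xpc z - 2) * (xmc z - 2) = cc (xc z) - 2 := by
  rw [homJ_cx]
  linear_combination 4 * homJ_sum z - 2 * homJ_e2 z
theorem homJ_one (z : ℂ) : (xc z - 1) * (xpc z - 1) * (xmc z - 1) = cc (xc z) + 2 := by
  rw [homJ_cx]
  linear_combination homJ_sum z - homJ_e2 z

/-- the circles contain no point with `c = 2` or `c = -2` -/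
theorem homJ_sin6 {z0 : ℂ} (h0 : z0 = 0 ∨ z0 = ((π / 6 : ℝ) : ℂ)) {z : ℂ} (hz : z ∈ Metric.sphere z0 (1 / 10)) :
    Complex.sin (6 * z) ≠ 0 := by
  intro h
  obtain ⟨k, hk⟩ := Complex.sin_eq_zero_iff.1 h
  rw [Metric.mem_sphere, Complex.dist_eq] at hz
  have h1 : ∃ j : ℤ, z - z0 = ((j * (π / 6) : ℝ) : ℂ) := by
    rcases h0 with rfl | rfl
    · refine ⟨k, ?_⟩
      push_cast
      linear_combination (1 / 6) * hk
    · refine ⟨k - 1, ?_⟩
      push_cast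
      linear_combination (1 / 6) * hk
  obtain ⟨j, hj⟩ := h1
  rw [hj, Complex.norm_real, Real.norm_eq_abs, abs_mul, abs_of_pos (by positivity : 0 < π / 6)] at hz
  have hpi := Real.pi_gt_three
  rcases eq_or_ne j 0 with h2 | h2
  · rw [h2] at hz
    norm_num at hz
  · have h3 : (1 : ℝ) ≤ |(j : ℝ)| := by
      have h4 : 1 ≤ |j| := Int.one_le_abs h2
      exact_mod_cast h4
    nlinarith

theorem homJ_c6 (z : ℂ) : cc (xc z) = 2 * Complex.cos (6 * z) := by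
  unfold cc xc
  rw [show 6 * z = 3 * (2 * z) by ring, Complex.cos_three_mul]
  ring

theorem homJ_ne {z0 : ℂ} (h0 : z0 = 0 ∨ z0 = ((π / 6 : ℝ) : ℂ)) {z : ℂ} (hz : z ∈ Metric.sphere z0 (1 / 10)) :
    cc (xc z) - 2 ≠ 0 ∧ cc (xc z) + 2 ≠ 0 := by
  have h := homJ_sin6 h0 hz
  have h1 := Complex.sin_sq_add_cos_sq (6 * z)
  have h2 := homJ_c6 z
  have h3 : (cc (xc z) - 2) * (cc (xc z) + 2) = -(4 * Complex.sin (6 * z) ^ 2) := by
    rw [h2]
    linear_combination 4 * h1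
  have h4 : (cc (xc z) - 2) * (cc (xc z) + 2) ≠ 0 := by
    rw [h3]
    exact neg_ne_zero.2 (mul_ne_zero (by norm_num) (pow_ne_zero _ h))
  exact mul_ne_zero_iff.1 h4

/-! ### the algebra -/
theorem homJ_algA {x x' w c d fA fB fS χA χB χS a b s : ℂ} {m p q : ℕ}
    (h2 : (x - 2) * (x' - 2) * (w - 2) = c - 2) (h1 : (x - 1) * (x' - 1) * (w - 1) = c + 2)
    (hx : x ^ 3 - 3 * x = c) (hw : w ^ 3 - 3 * w = c) (c2 : c - 2 ≠ 0) (c1 : c + 2 ≠ 0)
    (hA : a * (x - 2) ^ (2 * m + 1) = χA * fA)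
    (hB : b * ((w + 1) ^ (2 * p) * (w + 2) ^ (2 * q + 1)) = χB * ((c - 2) ^ p * fB))
    (hS : s * ((w - 2) ^ (2 * (m + p) + 1) * (w - 1) ^ (2 * q + 2)) = χS * ((c + 2) ^ (q + 1) * fS)) :
    (x - -2) * a * b * s / ((1 - x') * (2 - x') ^ (2 * m + 1)) * -d / ((-1 - w) ^ (2 * p) * (1 - w) ^ (2 * q + 1)) =
      χA * χB * χS * (fA * fS * fB * d / ((x - 1) * (c - 2) ^ (m + (m + p) + 1) * (c + 2) ^ q)) := by
  have hw2 : c - 2 = (w - 2) * (w + 1) ^ 2 := by rw [← hw]; ring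
  have hw1 : c + 2 = (w + 2) * (w - 1) ^ 2 := by rw [← hw]; ring
  have hx1 : c + 2 = (x + 2) * (x - 1) ^ 2 := by rw [← hx]; ring
  have n1 : (x - 2) ≠ 0 := by rintro h; apply c2; rw [← h2, h]; ring
  have n2 : (x' - 2) ≠ 0 := by rintro h; apply c2; rw [← h2, h]; ring
  have n3 : (w - 2) ≠ 0 := by rintro h; apply c2; rw [← h2, h]; ring
  have n4 : (w + 1) ≠ 0 := by rintro h; apply c2; rw [hw2, h]; ring
  have n5 : (x - 1) ≠ 0 := by rintro h; apply c1; rw [← h1, h]; ring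
  have n6 : (x' - 1) ≠ 0 := by rintro h; apply c1; rw [← h1, h]; ring
  have n7 : (w - 1) ≠ 0 := by rintro h; apply c1; rw [← h1, h]; ring
  have n8 : (w + 2) ≠ 0 := by rintro h; apply c1; rw [hw1, h]; ring
  have n9 : (1 - x') ≠ 0 := by rw [← neg_sub]; exact neg_ne_zero.2 n6
  have n10 : (2 - x') ≠ 0 := by rw [← neg_sub]; exact neg_ne_zero.2 n2
  have n11 : (-1 - w) ≠ 0 := by
    have : -1 - w = -(w + 1) := by ring
    rw [this]; exact neg_ne_zero.2 n4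
  have n12 : (1 - w) ≠ 0 := by rw [← neg_sub]; exact neg_ne_zero.2 n7
  have e1 : (2 - x') ^ (2 * m + 1) = -(x' - 2) ^ (2 * m + 1) := by
    rw [← neg_sub, Odd.neg_pow ⟨m, rfl⟩]
  have e2 : (-1 - w) ^ (2 * p) = (w + 1) ^ (2 * p) := by
    rw [show -1 - w = -(w + 1) by ring, Even.neg_pow ⟨p, by ring⟩]
  have e3 : (1 - w) ^ (2 * q + 1) = -(w - 1) ^ (2 * q + 1) := by
    rw [← neg_sub, Odd.neg_pow ⟨q, rfl⟩]
  have r1 : (x - 2) ^ (2 * m + 1) * (x' - 2) ^ (2 * m + 1) * (w - 2) ^ (2 * m + 1) = (c - 2) ^ (2 * m + 1) := by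
    rw [← mul_pow, ← mul_pow, h2]
  have r2 : (w - 2) ^ (2 * p) * ((w + 1) ^ (2 * p) * (w + 1) ^ (2 * p)) = (c - 2) ^ (2 * p) := by
    rw [← mul_pow, ← mul_pow, hw2]
    congr 1
    ring
  have r3 : (w + 2) ^ (2 * q + 1) * ((w - 1) ^ (2 * q + 1) * (w - 1) ^ (2 * q + 1)) = (c + 2) ^ (2 * q + 1) := by
    rw [← mul_pow, ← mul_pow, hw1]
    congr 1
    ring
  have r4 : (w - 1) * (x' - 1) = (x + 2) * (x - 1) := by
    have h3 : (x - 1) * ((w - 1) * (x' - 1)) = (x - 1) * ((x + 2) * (x - 1)) := by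
      linear_combination h1 + hx1
    exact mul_left_cancel₀ n5 h3
  rw [e1, e2, e3]
  rw [show 2 * (m + p) + 1 = 2 * m + 1 + 2 * p by ring, pow_add (w - 2),
    show (w - 1) ^ (2 * q + 2) = (w - 1) ^ (2 * q + 1) * (w - 1) by rw [← pow_succ]] at hS
  have m1 := pow_ne_zero (2 * m + 1) n1
  have m2 := pow_ne_zero (2 * m + 1) n2
  have m3 := pow_ne_zero (2 * m + 1) n3
  have m4 := pow_ne_zero (2 * p) n3
  have m5 := pow_ne_zero (2 * p) n4
  have m6 := pow_ne_zero (2 * q + 1) n7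
  have m7 := pow_ne_zero (2 * q + 1) n8
  have m8 := pow_ne_zero (m + (m + p) + 1) c2
  have m9 := pow_ne_zero q c1
  have f1 : (c - 2) ^ (2 * m + 1) * (c - 2) ^ (2 * p) = (c - 2) ^ (m + (m + p) + 1) * (c - 2) ^ p := by
    rw [← pow_add, ← pow_add]
    congr 1
    ring
  have f2 : (c + 2) ^ (2 * q + 1) = (c + 2) ^ q * (c + 2) ^ (q + 1) := by
    rw [← pow_add]
    congr 1
    ring
  rw [f2] at r3
  generalize (x - 2) ^ (2 * m + 1) = P1 at *
  generalize (x' - 2) ^ (2 * m + 1) = P2 at *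
  generalize (w - 2) ^ (2 * m + 1) = P3 at *
  generalize (w - 2) ^ (2 * p) = P4 at *
  generalize (w + 1) ^ (2 * p) = P5 at *
  generalize (w - 1) ^ (2 * q + 1) = P6 at *
  generalize (w + 2) ^ (2 * q + 1) = P7 at *
  generalize (c - 2) ^ (m + (m + p) + 1) = Q1 at *
  generalize (c + 2) ^ q = Q2 at *
  generalize (c - 2) ^ (2 * m + 1) = Q3 at *
  generalize (c - 2) ^ (2 * p) = Q4 at *
  generalize (c - 2) ^ p = Q5 at *
  generalize (c + 2) ^ (q + 1) = Q6 at *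
  have key : (x + 2) * Q5 * Q6 * ((x - 1) * Q1 * Q2) = (w - 1) * (x' - 1) * (P1 * P2 * P3) * (P4 * (P5 * P5)) * (P7 * (P6 * P6)) := by
    rw [r1, r2, r3, r4]
    linear_combination (-(x + 2) * (x - 1) * Q2 * Q6) * f1
  have k1 : (1 - x') * -P2 * (P5 * -P6) ≠ 0 :=
    mul_ne_zero (mul_ne_zero n9 (neg_ne_zero.2 m2)) (mul_ne_zero m5 (neg_ne_zero.2 m6))
  have k2 : (x - 1) * Q1 * Q2 ≠ 0 := mul_ne_zero (mul_ne_zero n5 m8) m9
  have k3 : P1 * (P5 * P7) * (P3 * P4 * (P6 * (w - 1))) ≠ 0 :=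
    mul_ne_zero (mul_ne_zero m1 (mul_ne_zero m5 m7)) (mul_ne_zero (mul_ne_zero m3 m4) (mul_ne_zero m6 n7))
  rw [div_mul_eq_mul_div, div_div, ← mul_div_assoc, div_eq_div_iff k1 k2]
  refine mul_left_cancel₀ k3 ?_
  linear_combination (-((x + 2) * d * ((x - 1) * Q1 * Q2))) *
    (b * (P5 * P7) * (s * (P3 * P4 * (P6 * (w - 1)))) * hA + χA * fA * (s * (P3 * P4 * (P6 * (w - 1)))) * hB +
      χA * fA * (χB * (Q5 * fB)) * hS) - (χA * χB * χS * (fA * fS * fB * d)) * key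

theorem homJ_algR {x x' w c d fA fB fS χA χB χS a b s : ℂ} {m p q : ℕ}
    (h2 : (x - 2) * (x' - 2) * (w - 2) = c - 2) (h1 : (x - 1) * (x' - 1) * (w - 1) = c + 2)
    (hx : x ^ 3 - 3 * x = c) (hw : w ^ 3 - 3 * w = c) (c2 : c - 2 ≠ 0) (c1 : c + 2 ≠ 0)
    (hA : a * (x - 2) ^ (2 * (m + p) + 1) = χA * fA)
    (hB : b * ((w + 1) ^ (2 * p) * (w + 2) ^ (2 * q + 1)) = χB * ((c - 2) ^ p * fB))
    (hS : s * ((w - 2) ^ (2 * m + 1) * (w - 1) ^ (2 * q + 2)) = χS * ((c + 2) ^ (q + 1) * fS)) :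
    (x - -2) * a * b * s * (w - -1) ^ (2 * p) * -d /
        ((1 - x') * (2 - x') ^ (2 * (m + p) + 1) * (2 - w) ^ (2 * p) * (1 - w) ^ (2 * q + 1)) =
      χA * χB * χS * (fA * fS * fB * d / ((x - 1) * (c - 2) ^ ((m + p) + m + 1) * (c + 2) ^ q)) := by
  have hw2 : c - 2 = (w - 2) * (w + 1) ^ 2 := by rw [← hw]; ring
  have hw1 : c + 2 = (w + 2) * (w - 1) ^ 2 := by rw [← hw]; ring
  have hx1 : c + 2 = (x + 2) * (x - 1) ^ 2 := by rw [← hx]; ring
  have n1 : (x - 2) ≠ 0 := by rintro h; apply c2; rw [← h2, h]; ring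
  have n2 : (x' - 2) ≠ 0 := by rintro h; apply c2; rw [← h2, h]; ring
  have n3 : (w - 2) ≠ 0 := by rintro h; apply c2; rw [← h2, h]; ring
  have n4 : (w + 1) ≠ 0 := by rintro h; apply c2; rw [hw2, h]; ring
  have n5 : (x - 1) ≠ 0 := by rintro h; apply c1; rw [← h1, h]; ring
  have n6 : (x' - 1) ≠ 0 := by rintro h; apply c1; rw [← h1, h]; ring
  have n7 : (w - 1) ≠ 0 := by rintro h; apply c1; rw [← h1, h]; ring
  have n8 : (w + 2) ≠ 0 := by rintro h; apply c1; rw [hw1, h]; ring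
  have n9 : (1 - x') ≠ 0 := by rw [← neg_sub]; exact neg_ne_zero.2 n6
  have e1 : (2 - x') ^ (2 * (m + p) + 1) = -(x' - 2) ^ (2 * (m + p) + 1) := by
    rw [← neg_sub, Odd.neg_pow ⟨m + p, rfl⟩]
  have e2 : (2 - w) ^ (2 * p) = (w - 2) ^ (2 * p) := by
    rw [← neg_sub, Even.neg_pow ⟨p, by ring⟩]
  have e3 : (1 - w) ^ (2 * q + 1) = -(w - 1) ^ (2 * q + 1) := by
    rw [← neg_sub, Odd.neg_pow ⟨q, rfl⟩]
  have r1 : (x - 2) ^ (2 * (m + p) + 1) * (x' - 2) ^ (2 * (m + p) + 1) * ((w - 2) ^ (2 * m + 1) * (w - 2) ^ (2 * p)) =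
      (c - 2) ^ (2 * (m + p) + 1) := by
    rw [← pow_add (w - 2), show 2 * m + 1 + 2 * p = 2 * (m + p) + 1 by ring, ← mul_pow, ← mul_pow, h2]
  have r3 : (w + 2) ^ (2 * q + 1) * ((w - 1) ^ (2 * q + 1) * (w - 1) ^ (2 * q + 1)) = (c + 2) ^ (2 * q + 1) := by
    rw [← mul_pow, ← mul_pow, hw1]
    congr 1
    ring
  have r4 : (w - 1) * (x' - 1) = (x + 2) * (x - 1) := by
    have h3 : (x - 1) * ((w - 1) * (x' - 1)) = (x - 1) * ((x + 2) * (x - 1)) := by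
      linear_combination h1 + hx1
    exact mul_left_cancel₀ n5 h3
  rw [e1, e2, e3, show w - -1 = w + 1 by ring]
  rw [show (w - 1) ^ (2 * q + 2) = (w - 1) ^ (2 * q + 1) * (w - 1) by rw [← pow_succ]] at hS
  have m1 := pow_ne_zero (2 * (m + p) + 1) n1
  have m2 := pow_ne_zero (2 * (m + p) + 1) n2
  have m3 := pow_ne_zero (2 * m + 1) n3
  have m4 := pow_ne_zero (2 * p) n3
  have m5 := pow_ne_zero (2 * p) n4
  have m6 := pow_ne_zero (2 * q + 1) n7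
  have m7 := pow_ne_zero (2 * q + 1) n8
  have m8 := pow_ne_zero ((m + p) + m + 1) c2
  have m9 := pow_ne_zero q c1
  have f1 : (c - 2) ^ (2 * (m + p) + 1) = (c - 2) ^ ((m + p) + m + 1) * (c - 2) ^ p := by
    rw [← pow_add]
    congr 1
    ring
  have f2 : (c + 2) ^ (2 * q + 1) = (c + 2) ^ q * (c + 2) ^ (q + 1) := by
    rw [← pow_add]
    congr 1
    ring
  rw [f2] at r3
  rw [f1] at r1
  generalize (x - 2) ^ (2 * (m + p) + 1) = P1 at *
  generalize (x' - 2) ^ (2 * (m + p) + 1) = P2 at *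
  generalize (w - 2) ^ (2 * m + 1) = P3 at *
  generalize (w - 2) ^ (2 * p) = P4 at *
  generalize (w + 1) ^ (2 * p) = P5 at *
  generalize (w - 1) ^ (2 * q + 1) = P6 at *
  generalize (w + 2) ^ (2 * q + 1) = P7 at *
  generalize (c - 2) ^ ((m + p) + m + 1) = Q1 at *
  generalize (c + 2) ^ q = Q2 at *
  generalize (c - 2) ^ p = Q5 at *
  generalize (c + 2) ^ (q + 1) = Q6 at *
  have key : (x + 2) * Q5 * Q6 * ((x - 1) * Q1 * Q2) = (w - 1) * (x' - 1) * (P1 * P2 * (P3 * P4)) * (P7 * (P6 * P6)) := by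
    rw [r1, r3, r4]
    ring
  have k1 : (1 - x') * -P2 * P4 * -P6 ≠ 0 :=
    mul_ne_zero (mul_ne_zero (mul_ne_zero n9 (neg_ne_zero.2 m2)) m4) (neg_ne_zero.2 m6)
  have k2 : (x - 1) * Q1 * Q2 ≠ 0 := mul_ne_zero (mul_ne_zero n5 m8) m9
  have k3 : P1 * (P5 * P7) * (P3 * (P6 * (w - 1))) ≠ 0 :=
    mul_ne_zero (mul_ne_zero m1 (mul_ne_zero m5 m7)) (mul_ne_zero m3 (mul_ne_zero m6 n7))
  rw [← mul_div_assoc, div_eq_div_iff k1 k2]
  refine mul_left_cancel₀ k3 ?_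
  linear_combination (-((x + 2) * d * P5 * ((x - 1) * Q1 * Q2))) *
    (b * (P5 * P7) * (s * (P3 * (P6 * (w - 1)))) * hA + χA * fA * (s * (P3 * (P6 * (w - 1)))) * hB +
      χA * fA * (χB * (Q5 * fB)) * hS) - (χA * χB * χS * (fA * fS * fB * d) * P5) * key

/-! ### multisets -/
theorem homJ_block (s : ℕ → ℂ) (n k : ℕ) (u : ℂ) (h : ∀ j < k, s (n + j) = u) :
    (Multiset.range (n + k)).map s = (Multiset.range n).map s + Multiset.replicate k u := by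
  induction k with
  | zero => simp
  | succ k ih =>
    rw [← add_assoc, Multiset.range_succ, Multiset.map_cons, ih (fun j hj => h j (by omega)), h k (by omega),
      Multiset.replicate_succ, Multiset.add_cons]

theorem homJ_block0 (s : ℕ → ℂ) (k : ℕ) (u : ℂ) (h : ∀ j < k, s j = u) :
    (Multiset.range k).map s = Multiset.replicate k u := by
  have h1 := homJ_block s 0 k u (fun j hj => by rw [zero_add]; exact h j hj)
  rw [zero_add] at h1
  rw [h1]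
  simp

theorem homJ_two_blocks (s : ℕ → ℂ) (n k : ℕ) (u v : ℂ) (h1 : ∀ j < n, s j = u) (h2 : ∀ j < k, s (n + j) = v) :
    (Multiset.range (n + k)).map s = Multiset.replicate n u + Multiset.replicate k v := by
  rw [homJ_block s n k v h2, homJ_block0 s n u h1]

/-! first case -/
theorem homJ_sA (m c : ℕ) (h : m ≤ c) : ∀ i < 2 * m + 1, sA (H47Perc.JJ.bD c) i = 2 := by
  intro i hi
  unfold sA H47Perc.JJ.bD
  rw [if_pos (by omega), homJ_X0_0]

theorem homJ_sB (m p q : ℕ) : (Multiset.range (2 * (p + q) + 1)).map (sB m (H47Perc.JJ.bD (m + p))) =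
    Multiset.replicate (2 * p) (-1) + Multiset.replicate (2 * q + 1) (-2) := by
  rw [show 2 * (p + q) + 1 = 2 * p + (2 * q + 1) by ring]
  refine homJ_two_blocks _ _ _ _ _ (fun j hj => ?_) (fun j hj => ?_)
  · unfold sB H47Perc.JJ.bD
    rw [if_pos (by omega), homJ_Xp_0]
  · unfold sB H47Perc.JJ.bD
    rw [if_neg (by omega), homJ_Xp_6]

theorem homJ_sS (m p q : ℕ) : (Multiset.range (2 * ((m + p) + q) + 3)).map (sS m (H47Perc.JJ.bD (m + p)) (π / 6)) =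
    Multiset.replicate (2 * (m + p) + 1) 2 + Multiset.replicate (2 * q + 2) 1 := by
  rw [show 2 * ((m + p) + q) + 3 = 2 * m + 1 + 1 + 2 * p + (2 * q + 1) by ring]
  rw [homJ_block _ _ (2 * q + 1) 1, homJ_block _ _ (2 * p) 2, homJ_two_blocks _ (2 * m + 1) 1 2 1]
  · rw [show 2 * (m + p) + 1 = 2 * m + 1 + 2 * p by ring, show 2 * q + 2 = 1 + (2 * q + 1) by ring,
      Multiset.replicate_add (2 * m + 1) (2 * p) (2 : ℂ), Multiset.replicate_add 1 (2 * q + 1) (1 : ℂ)]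
    ac_rfl
  · intro j hj
    unfold sS ins1 H47Perc.JJ.bD
    rw [if_pos hj, if_pos (by omega), homJ_X0_0]
  · intro j hj
    unfold sS ins1
    rw [if_neg (by omega), if_pos (by omega), homJ_X0_6]
  · intro j hj
    unfold sS ins1 H47Perc.JJ.bD
    rw [if_neg (by omega), if_neg (by omega), if_pos (by omega), homJ_X0_0]
  · intro j hj
    unfold sS ins1 H47Perc.JJ.bD
    rw [if_neg (by omega), if_neg (by omega), if_neg (by omega), homJ_X0_6]

theorem GB_hom (m p q : ℕ) {z0 : ℂ} (h0 : z0 = 0 ∨ z0 = ((π / 6 : ℝ) : ℂ)) {z : ℂ} (hz : z ∈ Metric.sphere z0 (1 / 10)) :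
    GB m (p + q) (H47Perc.JJ.bD (m + p)) (π / 6) z =
      Chi (2 * m + 1) (sA (H47Perc.JJ.bD (m + p))) * Chi (2 * (p + q) + 1) (sB m (H47Perc.JJ.bD (m + p))) *
        Chi (2 * (m + (p + q)) + 3) (sS m (H47Perc.JJ.bD (m + p)) (π / 6)) * HB m (m + p) q z := by
  obtain ⟨c2, c1⟩ := homJ_ne h0 hz
  have hA := CH_A m (homJ_sA m (m + p) (by omega)) (xc z)
  have hB := CH_B p q (homJ_sB m p q) (xmc z)
  have hS := CH_S (m + p) q (homJ_sS m p q) (xmc z)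
  rw [homJ_cw] at hB hS
  have h := homJ_algA (d := xmd z) (homJ_two z) (homJ_one z) rfl (homJ_cw z) c2 c1 hA hB hS
  have g1 : (∏ i ∈ range (2 * m + 1), (((X0 (H47Perc.JJ.bD (m + p) i) : ℝ) : ℂ) - xpc z)) = (2 - xpc z) ^ (2 * m + 1) := by
    rw [← card_range (2 * m + 1), ← prod_const, card_range]
    refine prod_congr rfl fun i hi => ?_
    unfold H47Perc.JJ.bD
    rw [if_pos (by have := mem_range.1 hi; omega), homJ_X0_0]
  have g2 : (∏ j ∈ range (2 * (p + q) + 1), (((Xm (H47Perc.JJ.bD (m + p) (2 * m + 1 + j)) : ℝ) : ℂ) - xmc z)) =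
      (-1 - xmc z) ^ (2 * p) * (1 - xmc z) ^ (2 * q + 1) := by
    rw [show 2 * (p + q) + 1 = 2 * p + (2 * q + 1) by ring, prod_range_add]
    congr 1
    · rw [← card_range (2 * p), ← prod_const, card_range]
      refine prod_congr rfl fun i hi => ?_
      unfold H47Perc.JJ.bD
      rw [if_pos (by have := mem_range.1 hi; omega), homJ_Xm_0]
    · rw [← card_range (2 * q + 1), ← prod_const, card_range]
      refine prod_congr rfl fun i hi => ?_
      unfold H47Perc.JJ.bD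
      rw [if_neg (by omega), homJ_Xm_6]
  unfold GB GN GD
  rw [g1, g2, homJ_Xp_6, homJ_X0_6, show m + (p + q) = m + p + q by ring]
  unfold HB
  exact h

/-! second case -/
theorem homJ_sA0 (n : ℕ) : ∀ i < 2 * n + 1, sA (fun _ => 0) i = 2 := by
  intro i hi
  unfold sA
  rw [homJ_X0_0]

theorem homJ_sB2 (n0 p q : ℕ) :
    (Multiset.range (2 * (p + q) + 1)).map (sB (n0 + p) (bc (n0 + p) n0 q (fun _ => 0) (fun _ => π / 6))) =
    Multiset.replicate (2 * p) (-1) + Multiset.replicate (2 * q + 1) (-2) := by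
  rw [add_comm (Multiset.replicate (2 * p) (-1 : ℂ)), show 2 * (p + q) + 1 = (2 * q + 1) + 2 * p by ring]
  refine homJ_two_blocks _ _ _ _ _ (fun j hj => ?_) (fun j hj => ?_)
  · unfold sB bc
    rw [if_neg (by omega), if_pos (by omega), homJ_Xp_6]
  · unfold sB bc
    rw [if_neg (by omega), if_neg (by omega), homJ_Xp_3]

theorem homJ_sS2 (n0 q : ℕ) :
    (Multiset.range (2 * (n0 + q) + 3)).map (sS n0 (b1 n0 (fun _ => 0) (fun _ => π / 6)) (π / 6)) =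
    Multiset.replicate (2 * n0 + 1) 2 + Multiset.replicate (2 * q + 2) 1 := by
  rw [show 2 * (n0 + q) + 3 = (2 * n0 + 1) + (2 * q + 2) by ring]
  refine homJ_two_blocks _ _ _ _ _ (fun j hj => ?_) (fun j hj => ?_)
  · unfold sS ins1 b1
    rw [if_pos hj, if_pos hj, homJ_X0_0]
  · unfold sS ins1 b1
    rw [if_neg (by omega)]
    split_ifs with h h'
    · rw [homJ_X0_6]
    · omega
    · rw [homJ_X0_6]

/-- second case, rows -/
theorem GR_hom (n0 p q : ℕ) {z : ℂ} (hz : z ∈ Metric.sphere ((π / 6 : ℝ) : ℂ) (1 / 10)) :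
    GR n0 p q (fun _ => 0) (fun _ => π / 6) (π / 6) z =
      Chi (2 * (n0 + p) + 1) (sA (fun _ => 0)) *
        Chi (2 * (p + q) + 1) (sB (n0 + p) (bc (n0 + p) n0 q (fun _ => 0) (fun _ => π / 6))) *
        Chi (2 * (n0 + q) + 3) (sS n0 (b1 n0 (fun _ => 0) (fun _ => π / 6)) (π / 6)) * HB (n0 + p) n0 q z := by
  obtain ⟨c2, c1⟩ := homJ_ne (Or.inr rfl) hz
  have hA := CH_A (n0 + p) (homJ_sA0 (n0 + p)) (xc z)
  have hB := CH_B p q (homJ_sB2 n0 p q) (xmc z)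
  have hS := CH_S n0 q (homJ_sS2 n0 q) (xmc z)
  rw [homJ_cw] at hB hS
  have h := homJ_algR (d := xmd z) (homJ_two z) (homJ_one z) rfl (homJ_cw z) c2 c1 hA hB hS
  unfold GR
  rw [prod_const, prod_const, prod_const, prod_const, card_range, card_range, Nat.card_Ico,
    show 2 * (n0 + p) + 1 - (2 * n0 + 1) = 2 * p by omega, homJ_Xp_6, homJ_X0_6, homJ_X0_0, homJ_Xm_0, homJ_Xm_6]
  unfold HB
  exact h

theorem homJ_ccx {x : ℂ} (hx : x ∈ Metric.sphere (2 : ℂ) (1 / 2)) : cc x - 2 ≠ 0 ∧ cc x + 2 ≠ 0 := by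
  have hx1 : x ∈ Metric.closedBall (2 : ℂ) (1 / 2) := Metric.sphere_subset_closedBall hx
  have h1 := lagJ_x1 hx1
  have h2 := lagJ_x2 hx1
  rw [Metric.mem_sphere, Complex.dist_eq] at hx
  have h3 : x - 2 ≠ 0 := by
    intro h
    rw [h, norm_zero] at hx
    norm_num at hx
  have h4 : x - 1 ≠ 0 := by
    intro h
    rw [h, norm_zero] at h1
    norm_num at h1
  have h5 : x + 2 ≠ 0 := by
    intro h
    rw [h, norm_zero] at h2
    norm_num at h2
  have h6 : x + 1 ≠ 0 := by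
    intro h
    have h7 : x - 2 = -3 := by linear_combination h
    rw [h7, norm_neg, Complex.norm_ofNat] at hx
    norm_num at hx
  constructor
  · rw [show cc x - 2 = (x - 2) * (x + 1) ^ 2 by unfold cc; ring]
    exact mul_ne_zero h3 (pow_ne_zero _ h6)
  · rw [show cc x + 2 = (x + 2) * (x - 1) ^ 2 by unfold cc; ring]
    exact mul_ne_zero h5 (pow_ne_zero _ h4)

theorem homJ_algC {c F1 F2 F3 χA χB χS D : ℂ} {m p q : ℕ} (c2 : c - 2 ≠ 0) (c1 : c + 2 ≠ 0) :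
    χS * (c + 2) ^ (q + 1) * F1 * (χA * F2) * (χB * (c - 2) ^ p * F3) / ((c + 2) * (c + 2) ^ (2 * q + 1)) * D /
        (c - 2) ^ (2 * (m + p) + 1) =
      χA * χB * χS * (F1 * F2 * F3 * D / ((c - 2) ^ ((m + p) + m + 1) * (c + 2) ^ (q + 1))) := by
  have e1 : (c + 2) * (c + 2) ^ (2 * q + 1) = (c + 2) ^ (q + 1) * (c + 2) ^ (q + 1) := by
    rw [← pow_succ', ← pow_add]
    congr 1
    ring
  have e2 : (c - 2) ^ (2 * (m + p) + 1) = (c - 2) ^ ((m + p) + m + 1) * (c - 2) ^ p := by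
    rw [← pow_add]
    congr 1
    ring
  rw [e1, e2]
  have m1 := pow_ne_zero (q + 1) c1
  have m2 := pow_ne_zero p c2
  have m3 := pow_ne_zero ((m + p) + m + 1) c2
  generalize (c + 2) ^ (q + 1) = Q1 at *
  generalize (c - 2) ^ p = Q2 at *
  generalize (c - 2) ^ ((m + p) + m + 1) = Q3 at *
  field_simp

/-- second case, columns -/
theorem GC_hom (n0 p q : ℕ) {x : ℂ} (hx : x ∈ Metric.sphere (2 : ℂ) (1 / 2)) :
    GC n0 p q (fun _ => 0) (fun _ => π / 6) (π / 6) x =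
      Chi (2 * (n0 + p) + 1) (sA (fun _ => 0)) *
        Chi (2 * (p + q) + 1) (sB (n0 + p) (bc (n0 + p) n0 q (fun _ => 0) (fun _ => π / 6))) *
        Chi (2 * (n0 + q) + 3) (sS n0 (b1 n0 (fun _ => 0) (fun _ => π / 6)) (π / 6)) *
        (N2 (n0 + p) n0 q x * (3 * x ^ 2 - 3) / den (n0 + p) n0 q x) := by
  obtain ⟨c2, c1⟩ := homJ_ccx hx
  obtain ⟨a1, a2⟩ := AB_A (n0 + p) (homJ_sA0 (n0 + p))
  obtain ⟨b1', b2'⟩ := AB_B p q (homJ_sB2 n0 p q)
  obtain ⟨s1, s2⟩ := AB_S n0 q (homJ_sS2 n0 q)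
  have hc2 : cc 2 = 2 := by unfold cc; norm_num
  have hc1 : cc 1 = -2 := by unfold cc; norm_num
  unfold GC GCN GCD
  rw [a1, a2, b1', b2', s1, s2, prod_const, prod_const, card_range, card_range, homJ_X0_6, homJ_X0_0, homJ_Xm_6, hc2, hc1]
  simp only [Polynomial.eval_mul, Polynomial.eval_C, Polynomial.eval_pow, Polynomial.eval_add, Polynomial.eval_sub,
    Polynomial.eval_X, sub_neg_eq_add]
  have h := homJ_algC (c := cc x) (F1 := fe n0 x) (F2 := (FP (n0 + p)).eval (cc x) + (FQ (n0 + p)).eval (cc x))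
    (F3 := (FPt q).eval (cc x) + (FQt q).eval (cc x)) (χA := Chi (2 * (n0 + p) + 1) (sA (fun _ => 0)))
    (χB := Chi (2 * (p + q) + 1) (sB (n0 + p) (bc (n0 + p) n0 q (fun _ => 0) (fun _ => π / 6))))
    (χS := Chi (2 * (n0 + q) + 3) (sS n0 (b1 n0 (fun _ => 0) (fun _ => π / 6)) (π / 6))) (D := 3 * x ^ 2 - 3)
    (m := n0) (p := p) (q := q) c2 c1
  unfold N2 den
  rw [← h]
  unfold fe
  ring
end IP.Junc
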