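import Pool.Agent.Helper80.J.TriTip
/-! MODULE SymF: symmetries and degrees of `FF` (part of `Sym.lean`), proved by helper72.
General tools for `SymG`, `SymH`: `symf_TP_shift`, `symf_TP_refl` (TP in `c + x`, `c - x`), `symf_comp` (`Sep` under maps
whose coordinates are reindexed), `symf_triC_sum` (finite expansion), `symf_triC_Rt_left/right`. -/
namespace IP.Junc
open IP IP.Slit Finset Real

/-! ### trigonometric polynomials -/

theorem symf_TP_shift {m : ℕ} {F : ℝ → ℝ} (hF : TP m F) (c : ℝ) : TP m (fun x => F (c + x)) := by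
  obtain ⟨P, hP, h1⟩ := hF
  refine ⟨Polynomial.C (Complex.exp (-(m * c * Complex.I))) *
    P.comp (Polynomial.C (Complex.exp (2 * c * Complex.I)) * Polynomial.X), ?_, fun x => ?_⟩
  · refine (Polynomial.natDegree_C_mul_le _ _).trans ?_
    refine (Polynomial.natDegree_comp_le).trans ?_
    have h2 : (Polynomial.C (Complex.exp (2 * c * Complex.I)) * Polynomial.X : Polynomial ℂ).natDegree ≤ 1 :=
      (Polynomial.natDegree_C_mul_le _ _).trans Polynomial.natDegree_X_le
    calc P.natDegree * _ ≤ m * 1 := Nat.mul_le_mul hP h2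
      _ = m := mul_one m
  · rw [h1]
    simp only [Polynomial.eval_mul, Polynomial.eval_C, Polynomial.eval_comp, Polynomial.eval_X]
    rw [← Complex.exp_add, ← mul_assoc, ← Complex.exp_add]
    congr 2
    · push_cast
      ring
    · congr 2
      push_cast
      ring

theorem symf_TP_refl {m : ℕ} {F : ℝ → ℝ} (hF : TP m F) (c : ℝ) : TP m (fun x => F (c - x)) := by
  have h := (symf_TP_shift hF c).comp_neg
  simpa only [sub_eq_add_neg] using h

/-- composition with a map of the coordinates: each coordinate `j < L` moves at most one of the coordinates `< L0` -/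
theorem symf_comp {L L0 d : ℕ} {F : (ℕ → ℝ) → ℝ} (hF : Sep L0 (2 * d) F) (φ : (ℕ → ℝ) → ℕ → ℝ)
    (h1 : ∀ b j, j < L → (∃ j' < L0, ∀ x, ∀ i < L0, φ (Function.update b j x) i = Function.update (φ b) j' x i) ∨
      (∃ j' < L0, ∃ c : ℝ, ∀ x, ∀ i < L0, φ (Function.update b j x) i = Function.update (φ b) j' (c - x) i) ∨
      (∀ x, ∀ i < L0, φ (Function.update b j x) i = φ b i))
    (h2 : ∀ b b', (∀ j < L, b j = b' j) → ∀ i < L0, φ b i = φ b' i) : Sep L (2 * d) (fun b => F (φ b)) := by
  refine ⟨fun b j hj => ?_, fun b b' h => hF.2 _ _ (h2 b b' h)⟩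
  rcases h1 b j hj with ⟨j', hj', h⟩ | ⟨j', hj', c, h⟩ | h
  · have e : (fun x => F (φ (Function.update b j x))) = fun x => F (Function.update (φ b) j' x) := by
      funext x
      exact hF.2 _ _ (h x)
    rw [e]
    exact hF.1 _ _ hj'
  · have e : (fun x => F (φ (Function.update b j x))) = fun x => F (Function.update (φ b) j' (c - x)) := by
      funext x
      exact hF.2 _ _ (h x)
    rw [e]
    exact symf_TP_refl (hF.1 _ _ hj') c
  · have e : (fun x => F (φ (Function.update b j x))) = fun _ => F (φ b) := by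
      funext x
      exact hF.2 _ _ (h x)
    rw [e]
    have h2 := (TP.const (F (φ b))).mono d
    rwa [zero_add] at h2

/-! ### the form `triC` -/

theorem symf_triC_sum (m k : ℕ) {v1 v2 v : M} (h1 : v1 ∈ Sup (W m)) (h2 : v2 ∈ Sup (W k))
    (h : v ∈ Sup (W (m + k + 1))) : triC m k v1 v2 v = ∑ t1 ∈ (W_finite m).toFinset,
      ∑ t2 ∈ (W_finite k).toFinset, ∑ σ ∈ (W_finite (m + k + 1)).toFinset,
        v1 t1 * v2 t2 * v σ * (1 - cf m k t1 t2 σ) := by
  have e : tot v1 * tot v2 * tot v = ∑ t1 ∈ (W_finite m).toFinset,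
      ∑ t2 ∈ (W_finite k).toFinset, ∑ σ ∈ (W_finite (m + k + 1)).toFinset, v1 t1 * v2 t2 * v σ := by
    rw [nb_tot_eq_sum _ h1, nb_tot_eq_sum _ h2, nb_tot_eq_sum _ h, sum_mul_sum, sum_mul]
    refine sum_congr rfl fun t1 _ => ?_
    rw [sum_mul]
    refine sum_congr rfl fun t2 _ => ?_
    rw [mul_sum]
  unfold triC
  rw [e, tri_eq_sumW m k h1 h2 h, ← sum_sub_distrib]
  refine sum_congr rfl fun t1 _ => ?_
  rw [← sum_sub_distrib]
  refine sum_congr rfl fun t2 _ => ?_
  rw [← sum_sub_distrib]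
  refine sum_congr rfl fun σ _ => ?_
  ring

theorem symf_triC_smul1 (m k : ℕ) (c : ℝ) (v1 v2 v : M) : triC m k (c • v1) v2 v = c * triC m k v1 v2 v := by
  unfold triC
  rw [map_smul, smul_eq_mul, tri_smul1]
  ring

theorem symf_triC_smul2 (m k : ℕ) (c : ℝ) (v1 v2 v : M) : triC m k v1 (c • v2) v = c * triC m k v1 v2 v := by
  unfold triC
  rw [map_smul, smul_eq_mul, tri_smul2]
  ring

theorem symf_triC_smul3 (m k : ℕ) (c : ℝ) (v1 v2 v : M) : triC m k v1 v2 (c • v) = c * triC m k v1 v2 v := by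
  unfold triC
  rw [map_smul, smul_eq_mul, tri_smul3]
  ring

theorem symf_triC_Rt_left {m k i : ℕ} (h : i < 2 * m) (u : ℝ) (v1 v2 v : M) :
    triC m k (Rt i u v1) v2 v = triC m k v1 v2 (Rt i u v) := by
  unfold triC
  rw [tri_Rt_left h, tot_Rt, tot_Rt]
  ring

theorem symf_triC_Rt_right {m k j : ℕ} (h : j < 2 * k) (u : ℝ) (v1 v2 v : M) :
    triC m k v1 (Rt j u v2) v = triC m k v1 v2 (Rt (2 * m + 2 + j) u v) := by
  unfold triC
  rw [tri_Rt_right h, tot_Rt, tot_Rt]
  ring

/-! ### the parameters -/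

/-- the parameters of the upper leg -/
def symf_nL (b : ℕ → ℝ) : ℕ → ℝ := fun j => -b j
/-- the parameters of the right leg -/
noncomputable def symf_nR (m : ℕ) (b : ℕ → ℝ) : ℕ → ℝ := fun j => π / 6 - b (2 * m + 1 + j)

theorem symf_def (m k : ℕ) (b : ℕ → ℝ) (y : ℝ) :
    FF m k b y = triC m k (V m (symf_nL b)) (V k (symf_nR m b)) (V (m + k + 1) (ins1 (2 * m + 1) y b)) := rfl

theorem symf_ins_update_lt {r j : ℕ} (h : j < r) (y x : ℝ) (b : ℕ → ℝ) :
    ins1 r y (Function.update b j x) = Function.update (ins1 r y b) j x := by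
  funext i
  unfold ins1
  by_cases h1 : i = j
  · subst h1
    rw [Function.update_self, if_pos h, Function.update_self]
  · rw [Function.update_of_ne h1, Function.update_of_ne h1]
    by_cases h2 : i < r
    · rw [if_pos h2, if_pos h2]
    · rw [if_neg h2, if_neg h2]
      by_cases h3 : i = r
      · rw [if_pos h3, if_pos h3]
      · rw [if_neg h3, if_neg h3, Function.update_of_ne (by omega)]

theorem symf_ins_update_ge {r j : ℕ} (h : r ≤ j) (y x : ℝ) (b : ℕ → ℝ) :
    ins1 r y (Function.update b j x) = Function.update (ins1 r y b) (j + 1) x := by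
  funext i
  unfold ins1
  by_cases h1 : i = j + 1
  · subst h1
    rw [Function.update_self, if_neg (by omega), if_neg (by omega), Nat.add_sub_cancel, Function.update_self]
  · rw [Function.update_of_ne h1]
    by_cases h2 : i < r
    · rw [if_pos h2, if_pos h2, Function.update_of_ne (by omega)]
    · rw [if_neg h2, if_neg h2]
      by_cases h3 : i = r
      · rw [if_pos h3, if_pos h3]
      · rw [if_neg h3, if_neg h3, Function.update_of_ne (by omega)]

theorem symf_ins_sw_lt {r i : ℕ} (h : i + 1 < r) (y : ℝ) (b : ℕ → ℝ) :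
    ins1 r y (sw i b) = sw i (ins1 r y b) := by
  funext j
  by_cases h1 : j = i
  · subst h1
    rw [nb_sw_left]
    unfold ins1
    rw [if_pos (by omega), if_pos (by omega), nb_sw_left]
  · by_cases h2 : j = i + 1
    · subst h2
      rw [nb_sw_right]
      unfold ins1
      rw [if_pos (by omega), if_pos (by omega), nb_sw_right]
    · rw [nb_sw_ne h1 h2]
      unfold ins1
      by_cases h3 : j < r
      · rw [if_pos h3, if_pos h3, nb_sw_ne h1 h2]
      · rw [if_neg h3, if_neg h3]
        by_cases h4 : j = r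
        · rw [if_pos h4, if_pos h4]
        · rw [if_neg h4, if_neg h4, nb_sw_ne (by omega) (by omega)]

theorem symf_ins_sw_ge {r i : ℕ} (h : r ≤ i) (y : ℝ) (b : ℕ → ℝ) :
    ins1 r y (sw i b) = sw (i + 1) (ins1 r y b) := by
  funext j
  by_cases h1 : j = i + 1
  · subst h1
    rw [nb_sw_left]
    unfold ins1
    rw [if_neg (by omega), if_neg (by omega), if_neg (by omega), if_neg (by omega)]
    rw [show i + 1 - 1 = i by omega, show i + 1 + 1 - 1 = i + 1 by omega, nb_sw_left]
  · by_cases h2 : j = i + 1 + 1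
    · subst h2
      rw [nb_sw_right]
      unfold ins1
      rw [if_neg (by omega), if_neg (by omega), if_neg (by omega), if_neg (by omega)]
      rw [show i + 1 + 1 - 1 = i + 1 by omega, show i + 1 - 1 = i by omega, nb_sw_right]
    · rw [nb_sw_ne h1 h2]
      unfold ins1
      by_cases h3 : j < r
      · rw [if_pos h3, if_pos h3, nb_sw_ne (by omega) (by omega)]
      · rw [if_neg h3, if_neg h3]
        by_cases h4 : j = r
        · rw [if_pos h4, if_pos h4]
        · rw [if_neg h4, if_neg h4, nb_sw_ne (by omega) (by omega)]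

theorem symf_nR_update (m j : ℕ) (b : ℕ → ℝ) (x : ℝ) :
    symf_nR m (Function.update b (2 * m + 1 + j) x) = Function.update (symf_nR m b) j (π / 6 - x) := by
  funext i
  unfold symf_nR
  by_cases h : i = j
  · subst h
    rw [Function.update_self, Function.update_self]
  · rw [Function.update_of_ne h, Function.update_of_ne (by omega)]

theorem symf_nR_update_lt {m j : ℕ} (h : j < 2 * m + 1) (b : ℕ → ℝ) (x : ℝ) :
    symf_nR m (Function.update b j x) = symf_nR m b := by
  funext i
  unfold symf_nR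
  rw [Function.update_of_ne (by omega)]

theorem symf_nR_sw (m j : ℕ) (b : ℕ → ℝ) : symf_nR m (sw (2 * m + 1 + j) b) = sw j (symf_nR m b) := by
  funext i
  by_cases h1 : i = j
  · subst h1
    rw [nb_sw_left]
    unfold symf_nR
    rw [nb_sw_left]
    rfl
  · by_cases h2 : i = j + 1
    · subst h2
      rw [nb_sw_right]
      unfold symf_nR
      rw [show 2 * m + 1 + (j + 1) = 2 * m + 1 + j + 1 by ring, nb_sw_right]
    · rw [nb_sw_ne h1 h2]
      unfold symf_nR
      rw [nb_sw_ne (by omega) (by omega)]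

theorem symf_nR_sw_lt {m i : ℕ} (h : i < 2 * m) (b : ℕ → ℝ) : symf_nR m (sw i b) = symf_nR m b := by
  funext j
  unfold symf_nR
  rw [nb_sw_ne (by omega) (by omega)]

theorem symf_nL_update (b : ℕ → ℝ) (i : ℕ) (y : ℝ) :
    symf_nL (Function.update b i y) = Function.update (symf_nL b) i (-y) := by
  funext j
  unfold symf_nL
  by_cases hj : j = i
  · subst hj
    rw [Function.update_self, Function.update_self]
  · rw [Function.update_of_ne hj, Function.update_of_ne hj]

theorem symf_nL_sw_ge {m i : ℕ} (h : 2 * m + 1 ≤ i) (b : ℕ → ℝ) : V m (symf_nL (sw i b)) = V m (symf_nL b) := by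
  ext σ
  refine (V_Sep m σ).2 _ _ fun j hj => ?_
  unfold symf_nL
  rw [nb_sw_ne (by omega) (by omega)]

/-! ### `FF` is separately a trigonometric polynomial -/

theorem symf_sum (m k : ℕ) (b : ℕ → ℝ) (y : ℝ) : FF m k b y = ∑ t1 ∈ (W_finite m).toFinset,
    ∑ t2 ∈ (W_finite k).toFinset, ∑ σ ∈ (W_finite (m + k + 1)).toFinset,
      V m (symf_nL b) t1 * V k (symf_nR m b) t2 * V (m + k + 1) (ins1 (2 * m + 1) y b) σ *
        (1 - cf m k t1 t2 σ) := by
  rw [symf_def, symf_triC_sum m k (V_Sup m _) (V_Sup k _) (V_Sup _ _)]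

theorem FF_Sep (m k : ℕ) (y : ℝ) :
    Sep (2 * (m + k + 1)) (2 * m + 2 * k + 2 * (m + k + 1)) (fun b => FF m k b y) := by
  simp only [symf_sum]
  refine Sep.sum _ fun t1 _ => Sep.sum _ fun t2 _ => Sep.sum _ fun σ _ => ?_
  have e1 : Sep (2 * (m + k + 1)) (2 * m) (fun b => V m (symf_nL b) t1) := by
    refine symf_comp (V_Sep m t1) symf_nL (fun b j hj => ?_) (fun b b' h i hi => ?_)
    · by_cases h : j < 2 * m + 1
      · refine Or.inr (Or.inl ⟨j, h, 0, fun x i _ => ?_⟩)
        rw [symf_nL_update, zero_sub]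
      · refine Or.inr (Or.inr fun x i hi => ?_)
        unfold symf_nL
        rw [Function.update_of_ne (by omega)]
    · unfold symf_nL
      rw [h i (by omega)]
  have e2 : Sep (2 * (m + k + 1)) (2 * k) (fun b => V k (symf_nR m b) t2) := by
    refine symf_comp (V_Sep k t2) (symf_nR m) (fun b j hj => ?_) (fun b b' h i hi => ?_)
    · by_cases h : j < 2 * m + 1
      · exact Or.inr (Or.inr fun x i _ => by rw [symf_nR_update_lt h])
      · obtain ⟨j', rfl⟩ := Nat.exists_eq_add_of_le (not_lt.1 h)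
        exact Or.inr (Or.inl ⟨j', by omega, π / 6, fun x i _ => by rw [symf_nR_update]⟩)
    · unfold symf_nR
      rw [h _ (by omega)]
  have e3 : Sep (2 * (m + k + 1)) (2 * (m + k + 1)) (fun b => V (m + k + 1) (ins1 (2 * m + 1) y b) σ) := by
    refine symf_comp (V_Sep (m + k + 1) σ) (ins1 (2 * m + 1) y) (fun b j hj => ?_) (fun b b' h i hi => ?_)
    · by_cases h : j < 2 * m + 1
      · exact Or.inl ⟨j, by omega, fun x i _ => by rw [symf_ins_update_lt h]⟩
      · exact Or.inl ⟨j + 1, by omega, fun x i _ => by rw [symf_ins_update_ge (not_lt.1 h)]⟩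
    · unfold ins1
      by_cases h1 : i < 2 * m + 1
      · rw [if_pos h1, if_pos h1, h i (by omega)]
      · rw [if_neg h1, if_neg h1]
        by_cases h2 : i = 2 * m + 1
        · rw [if_pos h2, if_pos h2]
        · rw [if_neg h2, if_neg h2, h _ (by omega)]
  have := ((e1.mul e2).mul e3).smul (1 - cf m k t1 t2 σ)
  convert this using 1
  funext b
  ring

theorem FF_TP (m k : ℕ) (b : ℕ → ℝ) : TP (2 * (m + k + 1)) (FF m k b) := by
  have e : FF m k b = fun y => ∑ t1 ∈ (W_finite m).toFinset,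
      ∑ t2 ∈ (W_finite k).toFinset, ∑ σ ∈ (W_finite (m + k + 1)).toFinset,
        V m (symf_nL b) t1 * V k (symf_nR m b) t2 * V (m + k + 1) (ins1 (2 * m + 1) y b) σ *
          (1 - cf m k t1 t2 σ) := funext fun y => symf_sum m k b y
  rw [e]
  refine TP.sum _ fun t1 _ => TP.sum _ fun t2 _ => TP.sum _ fun σ _ => ?_
  have e1 : ∀ y, ins1 (2 * m + 1) y b = Function.update (ins1 (2 * m + 1) 0 b) (2 * m + 1) y := by
    intro y
    funext i
    by_cases h : i = 2 * m + 1
    · subst h
      rw [Function.update_self]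
      unfold ins1
      rw [if_neg (lt_irrefl _), if_pos rfl]
    · rw [Function.update_of_ne h]
      unfold ins1
      by_cases h1 : i < 2 * m + 1
      · rw [if_pos h1, if_pos h1]
      · rw [if_neg h1, if_neg h1, if_neg h, if_neg h]
  have e2 : TP (2 * (m + k + 1)) (fun y => V (m + k + 1) (ins1 (2 * m + 1) y b) σ) := by
    have e3 : (fun y => V (m + k + 1) (ins1 (2 * m + 1) y b) σ) =
        fun y => V (m + k + 1) (Function.update (ins1 (2 * m + 1) 0 b) (2 * m + 1) y) σ :=
      funext fun y => by rw [e1 y]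
    rw [e3]
    exact (V_Sep _ σ).1 _ _ (by omega)
  have := e2.smul (V m (symf_nL b) t1 * V k (symf_nR m b) t2 * (1 - cf m k t1 t2 σ))
  convert this using 1
  funext y
  ring

/-! ### exchange of strands -/

/-- the factor in the exchange relations -/
theorem symf_ss_Sep {L i : ℕ} (h : i + 1 < L) :
    Sep L 2 (fun b => s (b i - b (i + 1)) * s (-(b i - b (i + 1)))) := by
  refine Sep.of_TP2 (m := 1) (i := i) (j := i + 1) (by omega) h (by omega)
    (g := fun x z => s (x - z) * s (-(x - z))) (fun z => ?_) (fun x => ?_)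
  · have := (TP.s_add (-z)).mul (TP.s_sub z)
    convert this using 1
    funext y
    congr 2
    ring
  · have := (TP.s_sub x).mul (TP.s_add (-x))
    convert this using 1
    funext y
    congr 2
    ring

theorem symf_of_mul {L D i : ℕ} (hi : i + 1 < L) {F : (ℕ → ℝ) → ℝ} (hF : Sep L D F)
    (h : ∀ b, (s (b i - b (i + 1)) * s (-(b i - b (i + 1)))) * F (sw i b) =
      (s (b i - b (i + 1)) * s (-(b i - b (i + 1)))) * F b) (b : ℕ → ℝ) : F (sw i b) = F b := by
  have hS : Sep L D (fun b => F (sw i b) - F b) := (hF.comp_sw hi).sub hF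
  have h0 : ∃ b : ℕ → ℝ, (fun b : ℕ → ℝ => s (b i - b (i + 1)) * s (-(b i - b (i + 1)))) b ≠ 0 := by
    refine ⟨fun _ => 0, ?_⟩
    simp only [sub_self, neg_zero]
    have : s 0 ≠ 0 := by
      unfold s
      rw [add_zero]
      exact rc_sin_pi_third_pos.ne'
    exact mul_ne_zero this this
  have := Sep.eq_zero_of_mul hS (symf_ss_Sep hi) h0 (fun c hc => by
    have h := h c
    have := mul_left_cancel₀ hc h
    rw [this, sub_self]) b
  exact sub_eq_zero.mp this

theorem FF_swA {m k i : ℕ} (h : i < 2 * m) (b : ℕ → ℝ) (y : ℝ) : FF m k (sw i b) y = FF m k b y := by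
  refine symf_of_mul (by omega) (FF_Sep m k y) (fun b => ?_) b
  have hv := V_sw (n := m + k + 1) (i := i) (by omega) (ins1 (2 * m + 1) y b)
  have hw := V_sw (n := m) (i := i) (by omega) (symf_nL b)
  have hd : symf_nL b i - symf_nL b (i + 1) = -(b i - b (i + 1)) := by
    unfold symf_nL; ring
  have hd2 : ins1 (2 * m + 1) y b i - ins1 (2 * m + 1) y b (i + 1) = b i - b (i + 1) := by
    unfold ins1
    rw [if_pos (by omega), if_pos (by omega)]
  rw [hd] at hw
  rw [hd2] at hv
  set u := b i - b (i + 1) with hu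
  have es : symf_nL (sw i b) = sw i (symf_nL b) := rfl
  rw [symf_def, symf_def, symf_nR_sw_lt h, symf_ins_sw_lt (by omega), es]
  have e1 : s u * s (-u) * triC m k (V m (sw i (symf_nL b))) (V k (symf_nR m b))
        (V (m + k + 1) (sw i (ins1 (2 * m + 1) y b))) =
      triC m k (s (-u) • V m (sw i (symf_nL b))) (V k (symf_nR m b))
        (s u • V (m + k + 1) (sw i (ins1 (2 * m + 1) y b))) := by
    rw [symf_triC_smul1, symf_triC_smul3]; ring
  have hun := unitarity i (-u) (V (m + k + 1) (ins1 (2 * m + 1) y b))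
  rw [neg_neg] at hun
  rw [e1, hv, hw, symf_triC_Rt_left h, hun, symf_triC_smul3]
  ring

theorem FF_swB {m k i : ℕ} (h : 2 * m + 1 ≤ i) (h2 : i ≤ 2 * m + 2 * k) (b : ℕ → ℝ) (y : ℝ) :
    FF m k (sw i b) y = FF m k b y := by
  obtain ⟨j, rfl⟩ := Nat.exists_eq_add_of_le h
  refine symf_of_mul (by omega) (FF_Sep m k y) (fun b => ?_) b
  have hv := V_sw (n := m + k + 1) (i := 2 * m + 1 + j + 1) (by omega) (ins1 (2 * m + 1) y b)
  have hw := V_sw (n := k) (i := j) (by omega) (symf_nR m b)
  have hd : symf_nR m b j - symf_nR m b (j + 1) = -(b (2 * m + 1 + j) - b (2 * m + 1 + j + 1)) := by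
    unfold symf_nR
    rw [show 2 * m + 1 + (j + 1) = 2 * m + 1 + j + 1 by ring]
    ring
  have hd2 : ins1 (2 * m + 1) y b (2 * m + 1 + j + 1) - ins1 (2 * m + 1) y b (2 * m + 1 + j + 1 + 1) =
      b (2 * m + 1 + j) - b (2 * m + 1 + j + 1) := by
    unfold ins1
    rw [if_neg (by omega), if_neg (by omega), if_neg (by omega), if_neg (by omega)]
    rw [show 2 * m + 1 + j + 1 - 1 = 2 * m + 1 + j by omega,
      show 2 * m + 1 + j + 1 + 1 - 1 = 2 * m + 1 + j + 1 by omega]
  rw [hd] at hw
  rw [hd2] at hv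
  set u := b (2 * m + 1 + j) - b (2 * m + 1 + j + 1) with hu
  rw [symf_def, symf_def, symf_nR_sw, symf_ins_sw_ge (by omega), symf_nL_sw_ge (by omega)]
  have e1 : s u * s (-u) * triC m k (V m (symf_nL b)) (V k (sw j (symf_nR m b)))
        (V (m + k + 1) (sw (2 * m + 1 + j + 1) (ins1 (2 * m + 1) y b))) =
      triC m k (V m (symf_nL b)) (s (-u) • V k (sw j (symf_nR m b)))
        (s u • V (m + k + 1) (sw (2 * m + 1 + j + 1) (ins1 (2 * m + 1) y b))) := by
    rw [symf_triC_smul2, symf_triC_smul3]; ring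
  have hun := unitarity (2 * m + 1 + j + 1) (-u) (V (m + k + 1) (ins1 (2 * m + 1) y b))
  rw [neg_neg] at hun
  rw [e1, hv, hw, symf_triC_Rt_right (by omega), show 2 * m + 2 + j = 2 * m + 1 + j + 1 by ring, hun,
    symf_triC_smul3]
  ring

/-- reflection of the first strand of `A` -/
theorem FF_ng0 (m k : ℕ) (b : ℕ → ℝ) (y : ℝ) : FF m k (ng 0 b) y = FF m k b y := by
  have e1 : symf_nL (ng 0 b) = ng 0 (symf_nL b) := by
    unfold ng
    rw [symf_nL_update]
    rfl
  have e2 : symf_nR m (ng 0 b) = symf_nR m b := by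
    unfold ng
    exact symf_nR_update_lt (by omega) _ _
  have e3 : ins1 (2 * m + 1) y (ng 0 b) = ng 0 (ins1 (2 * m + 1) y b) := by
    unfold ng
    rw [symf_ins_update_lt (by omega)]
    have : ins1 (2 * m + 1) y b 0 = b 0 := by
      unfold ins1
      rw [if_pos (by omega)]
    rw [this]
  rw [symf_def, symf_def, e1, e2, e3, V_ngL, V_ngL]
end IP.Junc
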