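import Pool.Agent.Helper80.J.LagJ
import Pool.Agent.Helper80.J.SymF
/-! MODULE TEND (first case): the limit `t → 0` of the contour integrals along `bt c t`; pattern: `Slit/Cont.lean`
(`cont_integral`, `Chi_continuous_complex`). -/
namespace IP.Junc
open IP IP.Slit Finset Real Filter Topology

theorem bt_zero (c : ℕ) : bt c 0 = H47Perc.JJ.bD c := by
  funext i
  unfold bt
  rw [zero_mul, add_zero]

/-! ### continuity -/

theorem tendj_bt (c i : ℕ) : Continuous (fun p : ℝ × ℂ => bt c p.1 i) := by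
  unfold bt
  fun_prop

theorem tendj_X0 {f : ℝ × ℂ → ℝ} (hf : Continuous f) : Continuous (fun p => ((X0 (f p) : ℝ) : ℂ)) := by
  unfold X0
  exact Complex.continuous_ofReal.comp (by fun_prop)

theorem tendj_Xp {f : ℝ × ℂ → ℝ} (hf : Continuous f) : Continuous (fun p => ((Xp (f p) : ℝ) : ℂ)) := by
  unfold Xp
  exact Complex.continuous_ofReal.comp (by fun_prop)

theorem tendj_Xm {f : ℝ × ℂ → ℝ} (hf : Continuous f) : Continuous (fun p => ((Xm (f p) : ℝ) : ℂ)) := by
  unfold Xm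
  exact Complex.continuous_ofReal.comp (by fun_prop)

theorem tendj_xc : Continuous xc := by
  unfold xc
  fun_prop

theorem tendj_xpc : Continuous xpc := by
  unfold xpc
  fun_prop

theorem tendj_xmc : Continuous xmc := by
  unfold xmc
  fun_prop

theorem tendj_xmd : Continuous xmd := by
  unfold xmd
  fun_prop

theorem tendj_cc : Continuous cc := by
  unfold cc
  fun_prop

theorem tendj_CH (r : ℕ) {s : ℝ × ℂ → ℕ → ℂ} {f : ℝ × ℂ → ℂ} (hs : ∀ i, Continuous fun p => s p i)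
    (hf : Continuous f) : Continuous (fun p => CH r (s p) (f p)) := by
  unfold CH
  refine (Chi_continuous_complex (r + 1)).comp ?_
  exact (continuous_pi hs).update r hf

theorem tendj_AP (r : ℕ) {s : ℝ × ℂ → ℕ → ℂ} {f : ℝ × ℂ → ℂ} (hs : ∀ i, Continuous fun p => s p i)
    (hf : Continuous f) : Continuous (fun p => (AP r (s p)).eval (f p)) := by
  unfold AP
  simp only [Polynomial.eval_finsetSum, Polynomial.eval_mul, Polynomial.eval_C, Polynomial.eval_pow,
    Polynomial.eval_X]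
  refine continuous_finsetSum _ fun j _ => ?_
  exact ((ka_continuous_complex r j).comp (continuous_pi hs)).mul (hf.pow _)

theorem tendj_BP (r : ℕ) {s : ℝ × ℂ → ℕ → ℂ} {f : ℝ × ℂ → ℂ} (hs : ∀ i, Continuous fun p => s p i)
    (hf : Continuous f) : Continuous (fun p => (BP r (s p)).eval (f p)) := by
  unfold BP
  simp only [Polynomial.eval_finsetSum, Polynomial.eval_mul, Polynomial.eval_C, Polynomial.eval_pow,
    Polynomial.eval_X]
  refine continuous_finsetSum _ fun j _ => ?_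
  exact ((ka_continuous_complex r j).comp (continuous_pi hs)).mul (hf.pow _)

theorem tendj_ins1 {i : ℕ} {y : ℝ} {b : ℝ × ℂ → ℕ → ℝ} (hb : ∀ i, Continuous fun p => b p i) (j : ℕ) :
    Continuous (fun p => ins1 i y (b p) j) := by
  unfold ins1
  by_cases h : j < i
  · simp only [if_pos h]
    exact hb j
  · simp only [if_neg h]
    by_cases h2 : j = i
    · simp only [if_pos h2]
      exact continuous_const
    · simp only [if_neg h2]
      exact hb (j - 1)

theorem tendj_GN (m k : ℕ) (y : ℝ) {b : ℝ × ℂ → ℕ → ℝ} (hb : ∀ i, Continuous fun p => b p i) :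
    Continuous (fun p : ℝ × ℂ => GN m k (b p) y p.2) := by
  unfold GN
  have h1 : Continuous fun p : ℝ × ℂ => xc p.2 := tendj_xc.comp continuous_snd
  have h2 : Continuous fun p : ℝ × ℂ => xmc p.2 := tendj_xmc.comp continuous_snd
  refine (((h1.sub continuous_const).mul (tendj_CH _ (fun i => ?_) h1)).mul (tendj_CH _ (fun i => ?_) h2)).mul
    (tendj_CH _ (fun i => ?_) h2)
  · exact tendj_X0 (hb i)
  · exact tendj_Xp (hb _)
  · exact tendj_X0 (tendj_ins1 hb i)

theorem tendj_GD (m : ℕ) (y : ℝ) {b : ℝ × ℂ → ℕ → ℝ} (hb : ∀ i, Continuous fun p => b p i) :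
    Continuous (fun p : ℝ × ℂ => GD m (b p) y p.2) := by
  unfold GD
  have h1 : Continuous fun p : ℝ × ℂ => xpc p.2 := tendj_xpc.comp continuous_snd
  exact (continuous_const.sub h1).mul (continuous_finsetProd _ fun i _ => (tendj_X0 (hb i)).sub h1)

theorem tendj_prod (a k : ℕ) {b : ℝ × ℂ → ℕ → ℝ} (hb : ∀ i, Continuous fun p => b p i) :
    Continuous (fun p : ℝ × ℂ => ∏ j ∈ range k, (((Xm (b p (a + j)) : ℝ) : ℂ) - xmc p.2)) := by
  have h1 : Continuous fun p : ℝ × ℂ => xmc p.2 := tendj_xmc.comp continuous_snd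
  exact continuous_finsetProd _ fun i _ => (tendj_Xm (hb _)).sub h1

theorem tendj_GB (m k : ℕ) (b : ℕ → ℝ) (y : ℝ) (z : ℂ) : GB m k b y z =
    (GN m k b y z * (-xmd z)) / (GD m b y z * ∏ j ∈ range (2 * k + 1), (((Xm (b (2 * m + 1 + j)) : ℝ) : ℂ) - xmc z)) := by
  unfold GB
  rw [div_mul_eq_mul_div, div_div]

/-! ### the nodes are not on the circles -/

theorem tendj_Xm_ne {z0 : ℂ} (h0 : z0 = 0 ∨ z0 = ((π / 6 : ℝ) : ℂ)) {z : ℂ} (hz : z ∈ Metric.sphere z0 (1 / 10)) {a : ℝ}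
    (ha : (a : ℂ) ∈ Metric.ball z0 (1 / 10)) : ((Xm a : ℝ) : ℂ) - xmc z ≠ 0 := by
  intro h
  rw [← xmc_ofReal, sub_eq_zero] at h
  have h1 := xmc_inj h0 (Metric.ball_subset_closedBall ha) (Metric.sphere_subset_closedBall hz) h
  rw [h1] at ha
  rw [Metric.mem_sphere] at hz
  rw [Metric.mem_ball, hz] at ha
  exact lt_irrefl _ ha

theorem tendj_near0 : |(0 : ℝ)| < 1 / 100 := by norm_num

theorem tendj_near6 : |π / 6 - π / 6| < 1 / 100 := by norm_num

theorem tendj_Xm_ne0 {z0 : ℂ} (h0 : z0 = 0 ∨ z0 = ((π / 6 : ℝ) : ℂ)) {z : ℂ} (hz : z ∈ Metric.sphere z0 (1 / 10)) {a : ℝ}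
    (ha : |a| < 1 / 100) : ((Xm a : ℝ) : ℂ) - xmc z ≠ 0 := by
  rcases h0 with h | h
  · subst h
    exact tendj_Xm_ne (Or.inl rfl) hz (node0 ha)
  · subst h
    exact fac4 (Metric.sphere_subset_closedBall hz) ha

theorem tendj_Xm_ne6 {z0 : ℂ} (h0 : z0 = 0 ∨ z0 = ((π / 6 : ℝ) : ℂ)) {z : ℂ} (hz : z ∈ Metric.sphere z0 (1 / 10)) {a : ℝ}
    (ha : |a - π / 6| < 1 / 100) : ((Xm a : ℝ) : ℂ) - xmc z ≠ 0 := by
  rcases h0 with h | h
  · subst h
    exact fac3 (Metric.sphere_subset_closedBall hz) ha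
  · subst h
    exact tendj_Xm_ne (Or.inr rfl) hz (node6 ha)

theorem GB_tendsto (m p q : ℕ) {z0 : ℂ} (h0 : z0 = 0 ∨ z0 = ((π / 6 : ℝ) : ℂ)) :
    Tendsto (fun t : ℝ => ∮ z in C(z0, 1 / 10), GB m (p + q) (bt (m + p) t) (π / 6) z) (𝓝 0)
      (𝓝 (∮ z in C(z0, 1 / 10), GB m (p + q) (H47Perc.JJ.bD (m + p)) (π / 6) z)) := by
  have hb : ∀ i, Continuous fun p' : ℝ × ℂ => bt (m + p) p'.1 i := fun i => tendj_bt _ _
  have hN : Continuous (fun p' : ℝ × ℂ => GN m (p + q) (bt (m + p) p'.1) (π / 6) p'.2 * (-xmd p'.2)) :=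
    (tendj_GN _ _ _ hb).mul (tendj_xmd.comp continuous_snd).neg
  have hD : Continuous (fun p' : ℝ × ℂ => GD m (bt (m + p) p'.1) (π / 6) p'.2 *
      ∏ j ∈ range (2 * (p + q) + 1), (((Xm (bt (m + p) p'.1 (2 * m + 1 + j)) : ℝ) : ℂ) - xmc p'.2)) :=
    (tendj_GD _ _ hb).mul (tendj_prod _ _ hb)
  have h := cont_integral (c := z0) (R := 1 / 10) hN hD (by norm_num) (fun z hz => ?_)
  · simp only [← tendj_GB] at h
    rw [bt_zero] at h
    exact h
  · change GD m (bt (m + p) 0) (π / 6) z *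
      ∏ j ∈ range (2 * (p + q) + 1), (((Xm (bt (m + p) 0 (2 * m + 1 + j)) : ℝ) : ℂ) - xmc z) ≠ 0
    rw [bt_zero]
    have hz' := Metric.sphere_subset_closedBall hz
    unfold GD
    refine mul_ne_zero (mul_ne_zero (fac2 h0 hz') (prod_ne_zero_iff.2 fun i hi => ?_))
      (prod_ne_zero_iff.2 fun j hj => ?_)
    · rw [mem_range] at hi
      have : H47Perc.JJ.bD (m + p) i = 0 := by
        unfold H47Perc.JJ.bD
        rw [if_pos (by omega)]
      rw [this]
      exact fac1 h0 hz' tendj_near0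
    · unfold H47Perc.JJ.bD
      by_cases h : 2 * m + 1 + j < 2 * (m + p) + 1
      · rw [if_pos h]
        exact tendj_Xm_ne0 h0 hz tendj_near0
      · rw [if_neg h]
        exact tendj_Xm_ne6 h0 hz tendj_near6

/-- `FF` and the path: continuity (`V_Sep` .. as for `SS`, or `Sep.continuous` of `FF_Sep`) and generic parameters -/
theorem FF_tendsto (m k c : ℕ) (y : ℝ) :
    Tendsto (fun t : ℝ => FF m k (bt c t) y) (𝓝 0) (𝓝 (FF m k (H47Perc.JJ.bD c) y)) := by
  have h : Continuous (fun t : ℝ => FF m k (bt c t) y) := by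
    refine (FF_Sep m k y).continuous.comp (continuous_pi fun j => ?_)
    unfold bt
    fun_prop
  have h' := h.tendsto 0
  rwa [bt_zero] at h'

/-- a filter of generic parameters -/
theorem gen_neBot (c : ℕ) : (𝓝[{t : ℝ | Gn (bt c t)}] (0 : ℝ)).NeBot := by
  rw [← mem_closure_iff_nhdsWithin_neBot]
  have h := (Gn_line (H47Perc.JJ.bD c)).dense_compl ℝ
  have e : {t : ℝ | Gn (bt c t)} = {t : ℝ | ¬ Gn (fun i => H47Perc.JJ.bD c i + t * ((i : ℝ) + 1))}ᶜ := by
    ext t
    simp only [Set.mem_ofPred_eq, Set.mem_compl_iff, not_not]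
    rfl
  rw [e]
  exact h 0
end IP.Junc
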