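import Pool.Agent.Helper80.J.HomDefs
import Pool.Agent.Helper87.J2.Conv
/-! MODULE EXT: `FF_main` without genericity, by continuity along the lines `t ↦ b i + t (i+1)` (`Gn_line`).  Both sides are
continuous at `t = 0`: for small `t` the sums over `SB` can be written as sums over `range`. -/
namespace IP.Junc
open IP IP.Slit Finset Real Filter Topology

theorem FF_cont (m k : ℕ) (y : ℝ) {b : ℝ → ℕ → ℝ} {b0 : ℕ → ℝ} {l : Filter ℝ} (hb : ∀ j, Tendsto (fun t => b t j) l (𝓝 (b0 j))) :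
    Tendsto (fun t => FF m k (b t) y) l (𝓝 (FF m k b0 y)) := by
  unfold FF triC
  have h1 : H47Perc.JJ.Cv l (fun t => V m (fun j => -b t j)) (V m (fun j => -b0 j)) :=
    H47Perc.JJ.Cv.V m fun j => (hb j).neg
  have h2 : H47Perc.JJ.Cv l (fun t => V k (fun j => π / 6 - b t (2 * m + 1 + j)))
      (V k (fun j => π / 6 - b0 (2 * m + 1 + j))) :=
    H47Perc.JJ.Cv.V k fun j => tendsto_const_nhds.sub (hb _)
  have h3 : H47Perc.JJ.Cv l (fun t => V (m + k + 1) (ins1 (2 * m + 1) y (b t)))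
      (V (m + k + 1) (ins1 (2 * m + 1) y b0)) := by
    refine H47Perc.JJ.Cv.V _ fun j => ?_
    unfold ins1
    by_cases e1 : j < 2 * m + 1
    · simp only [if_pos e1]
      exact hb j
    · simp only [if_neg e1]
      by_cases e2 : j = 2 * m + 1
      · simp only [if_pos e2]
        exact tendsto_const_nhds
      · simp only [if_neg e2]
        exact hb _
  exact ((h1.tot.mul h2.tot).mul h3.tot).sub (h1.tri h2 h3 m k)

/-- continuity of `ch` -/
theorem ext_ch {κ : Type*} (s : Multiset κ) {l : Filter ℝ} {f : ℝ → κ → ℝ} {f0 : κ → ℝ}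
    (h : ∀ i, Tendsto (fun t => f t i) l (𝓝 (f0 i))) :
    Tendsto (fun t => ch (s.map (f t))) l (𝓝 (ch (s.map f0))) := by
  induction s using Quotient.inductionOn with
  | h L =>
    have e : ∀ g : κ → ℝ, ch (Multiset.map g (L : Multiset κ)) = Chi L.length (fun i => (L.map g).getD i 0) := by
      intro g
      rw [Multiset.map_coe, ch_coe, List.length_map]
    simp only [Multiset.quot_mk_to_coe, e]
    have hpi : Tendsto (fun t => fun i => (L.map (f t)).getD i 0) l (𝓝 (fun i => (L.map f0).getD i 0)) := by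
      refine tendsto_pi_nhds.2 fun i => ?_
      rcases lt_or_ge i L.length with hi | hi
      · have e2 : ∀ g : κ → ℝ, (L.map g).getD i 0 = g L[i] := by
          intro g
          rw [List.getD_eq_getElem _ _ (by rw [List.length_map]; exact hi), List.getElem_map]
        simp only [e2]
        exact h _
      · have e2 : ∀ g : κ → ℝ, (L.map g).getD i 0 = 0 := by
          intro g
          exact List.getD_eq_default _ _ (by rw [List.length_map]; exact hi)
        simp only [e2]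
        exact tendsto_const_nhds
    exact ((Chi_continuous_real L.length).tendsto _).comp hpi

/-- one term of `RF`, in terms of the indices -/
noncomputable def ext_term (r n : ℕ) (y : ℝ) (j : ℕ) (b : ℕ → ℝ) : ℝ :=
  (X0 (b j) - Xp y) * ch ((j ::ₘ (range r).val).map fun i => X0 (b i)) *
    ch (((Ico r (r + n)).erase j).val.map fun i => Xp (b i)) *
    ch ((none ::ₘ ((range r).val.map some + ((Ico r (r + n)).erase j).val.map some)).map
      fun o : Option ℕ => o.elim (X0 y) fun i => X0 (b i)) *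
    ∏ i ∈ (Ico r (r + n)).erase j, (X0 (b i) - Xp (b j)) * (X0 (b j) - Xp (b i)) / (Xm (b i) - Xm (b j))

theorem ext_RF {r n : ℕ} {b : ℕ → ℝ} (hb : ∀ i < r + n, ∀ j < r + n, i ≠ j → b i ≠ b j) (y : ℝ) :
    RF (SA r b) (SB r n b) y = ∑ j ∈ Ico r (r + n), ext_term r n y j b := by
  classical
  have hinj : ∀ s : Finset ℕ, (∀ i ∈ s, i < r + n) → Set.InjOn b s := by
    intro s hs i hi j hj hij
    by_contra hne
    exact hb i (hs i hi) j (hs j hj) hne hij
  have hA : (SA r b).val = (range r).val.map b := by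
    unfold SA
    exact Finset.image_val_of_injOn (hinj _ fun i hi => by have := mem_range.1 hi; omega)
  unfold RF
  have hI : ∀ i ∈ Ico r (r + n), i < r + n := fun i hi => (mem_Ico.1 hi).2
  conv_lhs => rw [SB]
  rw [Finset.sum_image (hinj _ hI)]
  refine Finset.sum_congr rfl fun j hj => ?_
  have hE : (SB r n b).erase (b j) = ((Ico r (r + n)).erase j).image b := by
    ext x
    unfold SB
    rw [mem_erase, mem_image, mem_image]
    constructor
    · rintro ⟨hx, i, hi, rfl⟩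
      exact ⟨i, mem_erase.2 ⟨fun h => hx (by rw [h]), hi⟩, rfl⟩
    · rintro ⟨i, hi, rfl⟩
      obtain ⟨h1, h2⟩ := mem_erase.1 hi
      exact ⟨hb i (hI i h2) j (hI j hj) h1, i, h2, rfl⟩
  have hinjE : Set.InjOn b ((Ico r (r + n)).erase j : Finset ℕ) :=
    hinj _ fun i hi => hI i (mem_erase.1 hi).2
  have hEv : ((SB r n b).erase (b j)).val = ((Ico r (r + n)).erase j).val.map b := by
    rw [hE]
    exact Finset.image_val_of_injOn hinjE
  have hSB : (image b (Ico r (r + n))) = SB r n b := rfl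
  rw [hSB]
  unfold ext_term wt
  rw [hE, Finset.prod_image hinjE, ← hE, hEv, hA]
  simp only [Multiset.map_map, Multiset.map_cons, Multiset.map_add, Option.elim, Function.comp_def]

theorem ext_X0 : Continuous X0 := by
  unfold X0
  fun_prop
theorem ext_Xp : Continuous Xp := by
  unfold Xp
  fun_prop
theorem ext_Xm : Continuous Xm := by
  unfold Xm
  fun_prop

theorem ext_tendsto {r n : ℕ} (y : ℝ) {j : ℕ} {b : ℝ → ℕ → ℝ} {b0 : ℕ → ℝ} {l : Filter ℝ}
    (hb : ∀ j, Tendsto (fun t => b t j) l (𝓝 (b0 j)))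
    (hm : ∀ i ∈ (Ico r (r + n)).erase j, Xm (b0 i) ≠ Xm (b0 j)) :
    Tendsto (fun t => ext_term r n y j (b t)) l (𝓝 (ext_term r n y j b0)) := by
  have h0 : ∀ i, Tendsto (fun t => X0 (b t i)) l (𝓝 (X0 (b0 i))) := fun i => (ext_X0.tendsto _).comp (hb i)
  have hp : ∀ i, Tendsto (fun t => Xp (b t i)) l (𝓝 (Xp (b0 i))) := fun i => (ext_Xp.tendsto _).comp (hb i)
  have hmm : ∀ i, Tendsto (fun t => Xm (b t i)) l (𝓝 (Xm (b0 i))) := fun i => (ext_Xm.tendsto _).comp (hb i)
  unfold ext_term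
  refine Tendsto.mul (Tendsto.mul (Tendsto.mul (Tendsto.mul ((h0 j).sub_const _) (ext_ch _ h0)) (ext_ch _ hp))
    (ext_ch _ ?_)) ?_
  · intro o
    rcases o with _ | i
    · exact tendsto_const_nhds
    · exact h0 i
  · refine tendsto_finsetProd _ fun i hi => ?_
    refine Tendsto.div (((h0 i).sub (hp j)).mul ((h0 j).sub (hp i))) ((hmm i).sub (hmm j)) ?_
    exact sub_ne_zero.2 (hm i hi)

theorem FF_main_ext (m k : ℕ) {b : ℕ → ℝ} (hinj : ∀ i < 2 * m + 2 * k + 2, ∀ j < 2 * m + 2 * k + 2, i ≠ j → b i ≠ b j)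
    (hm : ∀ i < 2 * k + 1, ∀ j < 2 * k + 1, i ≠ j → Xm (b (2 * m + 1 + i)) ≠ Xm (b (2 * m + 1 + j))) (y : ℝ) :
    4 ^ ((m + k + 1) ^ 2 + m ^ 2 + k ^ 2) * FF m k b y =
      (-1) ^ k * RF (SA (2 * m + 1) b) (SB (2 * m + 1) (2 * k + 1) b) y := by
  set G : Set ℝ := {t : ℝ | Gn (fun i => b i + t * ((i : ℝ) + 1))} with hG
  have hdense : Dense G := by
    have := (Gn_line b).dense_compl ℝ
    have e : {t : ℝ | ¬ Gn (fun i => b i + t * ((i : ℝ) + 1))}ᶜ = G := by
      ext t
      simp [hG]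
    rwa [e] at this
  have : (𝓝[G] (0 : ℝ)).NeBot := mem_closure_iff_nhdsWithin_neBot.1 (hdense 0)
  have hb : ∀ j, Tendsto (fun t : ℝ => b j + t * ((j : ℝ) + 1)) (𝓝[G] 0) (𝓝 (b j)) := by
    intro j
    have : Tendsto (fun t : ℝ => b j + t * ((j : ℝ) + 1)) (𝓝 0) (𝓝 (b j + 0 * ((j : ℝ) + 1))) := by
      apply Continuous.tendsto
      fun_prop
    rw [zero_mul, add_zero] at this
    exact this.mono_left nhdsWithin_le_nhds
  have h1 := (FF_cont m k y (b := fun t j => b j + t * ((j : ℝ) + 1)) hb).const_mul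
    ((4 : ℝ) ^ ((m + k + 1) ^ 2 + m ^ 2 + k ^ 2))
  have hI : 2 * m + 1 + (2 * k + 1) = 2 * m + 2 * k + 2 := by ring
  have h2 : Tendsto (fun t => (-1 : ℝ) ^ k * ∑ j ∈ Ico (2 * m + 1) (2 * m + 1 + (2 * k + 1)),
      ext_term (2 * m + 1) (2 * k + 1) y j (fun i => b i + t * ((i : ℝ) + 1))) (𝓝[G] 0)
      (𝓝 ((-1 : ℝ) ^ k * ∑ j ∈ Ico (2 * m + 1) (2 * m + 1 + (2 * k + 1)),
        ext_term (2 * m + 1) (2 * k + 1) y j b)) := by
    refine (tendsto_finsetSum _ fun j hj => ?_).const_mul _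
    refine ext_tendsto (b := fun t i => b i + t * ((i : ℝ) + 1)) y hb fun i hi => ?_
    obtain ⟨h3, h4⟩ := mem_erase.1 hi
    rw [mem_Ico] at h4 hj
    have := hm (i - (2 * m + 1)) (by omega) (j - (2 * m + 1)) (by omega) (by omega)
    rwa [show 2 * m + 1 + (i - (2 * m + 1)) = i by omega,
      show 2 * m + 1 + (j - (2 * m + 1)) = j by omega] at this
  rw [ext_RF (fun i hi j hj hij => hinj i (by omega) j (by omega) hij)]
  refine tendsto_nhds_unique h1 (h2.congr' ?_)
  filter_upwards [self_mem_nhdsWithin] with t ht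
  have hGt : Gn (fun i => b i + t * ((i : ℝ) + 1)) := ht
  rw [FF_main m k hGt y, ext_RF (fun i _ j _ hij h => hij (mn_inj hGt h))]
end IP.Junc
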