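import Pool.Agent.Helper80.J.LagJ
import Pool.Agent.Helper80.J.TendJ
/-! MODULE LIM2 (second case): continuity of the contour integrals along every real path of parameters
(`cont_integral`; `CH`, `AP`, `BP` by `Chi_continuous_complex`, `ka_continuous_complex`). -/
namespace IP.Junc
open IP IP.Slit Finset Real Filter Topology

theorem limj_bc (m n0 q : ℕ) {α ρ : ℝ × ℂ → ℕ → ℝ} (hα : ∀ i, Continuous fun t => α t i) (hρ : ∀ l, Continuous fun t => ρ t l)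
    (j : ℕ) : Continuous fun t => bc m n0 q (α t) (ρ t) j := by
  unfold bc
  by_cases h : j < 2 * m + 1
  · simp only [if_pos h]
    exact hα j
  · simp only [if_neg h]
    by_cases h2 : j < 2 * m + 1 + (2 * q + 1)
    · simp only [if_pos h2]
      exact hρ _
    · simp only [if_neg h2]
      exact (hα _).add continuous_const

theorem limj_b1 (n0 : ℕ) {α ρ : ℝ × ℂ → ℕ → ℝ} (hα : ∀ i, Continuous fun t => α t i) (hρ : ∀ l, Continuous fun t => ρ t l)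
    (j : ℕ) : Continuous fun t => b1 n0 (α t) (ρ t) j := by
  unfold b1
  by_cases h : j < 2 * n0 + 1
  · simp only [if_pos h]
    exact hα j
  · simp only [if_neg h]
    exact hρ _

/-- numerator of the rows integrand -/
noncomputable def limjRN (n0 p q : ℕ) (α ρ : ℕ → ℝ) (y : ℝ) (z : ℂ) : ℂ :=
  (xc z - ((Xp y : ℝ) : ℂ)) * CH (2 * (n0 + p) + 1) (sA α) (xc z) *
    CH (2 * (p + q) + 1) (sB (n0 + p) (bc (n0 + p) n0 q α ρ)) (xmc z) *
    CH (2 * (n0 + q) + 3) (sS n0 (b1 n0 α ρ) y) (xmc z) *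
    (∏ k ∈ Ico (2 * n0 + 1) (2 * (n0 + p) + 1), (xmc z - ((Xm (α k) : ℝ) : ℂ))) * (-xmd z)

/-- denominator of the rows integrand -/
noncomputable def limjRD (n0 p q : ℕ) (α ρ : ℕ → ℝ) (y : ℝ) (z : ℂ) : ℂ :=
  ((((X0 y : ℝ) : ℂ) - xpc z) * (∏ i ∈ range (2 * (n0 + p) + 1), (((X0 (α i) : ℝ) : ℂ) - xpc z)) *
      (∏ k ∈ Ico (2 * n0 + 1) (2 * (n0 + p) + 1), (((X0 (α k) : ℝ) : ℂ) - xmc z)) *
      ∏ l ∈ range (2 * q + 1), (((Xm (ρ l) : ℝ) : ℂ) - xmc z))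

theorem limj_GR (n0 p q : ℕ) (α ρ : ℕ → ℝ) (y : ℝ) (z : ℂ) :
    GR n0 p q α ρ y z = limjRN n0 p q α ρ y z / limjRD n0 p q α ρ y z := rfl

theorem limj_RN (n0 p q : ℕ) (y : ℝ) {α ρ : ℝ × ℂ → ℕ → ℝ} (hα : ∀ i, Continuous fun t => α t i)
    (hρ : ∀ l, Continuous fun t => ρ t l) : Continuous fun t : ℝ × ℂ => limjRN n0 p q (α t) (ρ t) y t.2 := by
  unfold limjRN
  have h1 : Continuous fun p : ℝ × ℂ => xc p.2 := tendj_xc.comp continuous_snd
  have h2 : Continuous fun p : ℝ × ℂ => xmc p.2 := tendj_xmc.comp continuous_snd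
  refine (((((h1.sub continuous_const).mul (tendj_CH _ (fun i => ?_) h1)).mul (tendj_CH _ (fun i => ?_) h2)).mul
    (tendj_CH _ (fun i => ?_) h2)).mul (continuous_finsetProd _ fun i _ => ?_)).mul (tendj_xmd.comp continuous_snd).neg
  · exact tendj_X0 (hα i)
  · exact tendj_Xp (limj_bc _ _ _ hα hρ _)
  · exact tendj_X0 (tendj_ins1 (limj_b1 _ hα hρ) i)
  · exact h2.sub (tendj_Xm (hα i))

theorem limj_RD (n0 p q : ℕ) (y : ℝ) {α ρ : ℝ × ℂ → ℕ → ℝ} (hα : ∀ i, Continuous fun t => α t i)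
    (hρ : ∀ l, Continuous fun t => ρ t l) : Continuous fun t : ℝ × ℂ => limjRD n0 p q (α t) (ρ t) y t.2 := by
  unfold limjRD
  have h1 : Continuous fun p : ℝ × ℂ => xpc p.2 := tendj_xpc.comp continuous_snd
  have h2 : Continuous fun p : ℝ × ℂ => xmc p.2 := tendj_xmc.comp continuous_snd
  refine (((continuous_const.sub h1).mul (continuous_finsetProd _ fun i _ => (tendj_X0 (hα i)).sub h1)).mul
    (continuous_finsetProd _ fun i _ => (tendj_X0 (hα i)).sub h2)).mul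
    (continuous_finsetProd _ fun i _ => (tendj_Xm (hρ i)).sub h2)

theorem GR_tendsto (n0 p q : ℕ) {α ρ : ℝ → ℕ → ℝ} (hα : ∀ i, Continuous fun t => α t i) (hρ : ∀ l, Continuous fun t => ρ t l)
    (ha : ∀ i, |α 0 i| < 1 / 100) (hr : ∀ l, |ρ 0 l - π / 6| < 1 / 100) :
    Tendsto (fun t : ℝ => ∮ z in C(((π / 6 : ℝ) : ℂ), 1 / 10), GR n0 p q (α t) (ρ t) (π / 6) z) (𝓝 0)
      (𝓝 (∮ z in C(((π / 6 : ℝ) : ℂ), 1 / 10), GR n0 p q (α 0) (ρ 0) (π / 6) z)) := by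
  have hα' : ∀ i, Continuous fun t : ℝ × ℂ => α t.1 i := fun i => (hα i).comp continuous_fst
  have hρ' : ∀ i, Continuous fun t : ℝ × ℂ => ρ t.1 i := fun i => (hρ i).comp continuous_fst
  have h := cont_integral (c := ((π / 6 : ℝ) : ℂ)) (R := 1 / 10) (limj_RN n0 p q (π / 6) hα' hρ')
    (limj_RD n0 p q (π / 6) hα' hρ') (by norm_num) (fun z hz => ?_)
  · simp only [← limj_GR] at h
    exact h
  · change limjRD n0 p q (α 0) (ρ 0) (π / 6) z ≠ 0
    have hz' := Metric.sphere_subset_closedBall hz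
    unfold limjRD
    refine mul_ne_zero (mul_ne_zero (mul_ne_zero (fac2 (Or.inr rfl) hz') (prod_ne_zero_iff.2 fun i _ => ?_))
      (prod_ne_zero_iff.2 fun j _ => ?_)) (prod_ne_zero_iff.2 fun l _ => ?_)
    · exact fac1 (Or.inr rfl) hz' (ha i)
    · exact fac5 hz' (ha j)
    · exact tendj_Xm_ne6 (Or.inr rfl) hz (hr l)

theorem limj_GC (n0 p q : ℕ) (α ρ : ℕ → ℝ) (y : ℝ) (x : ℂ) :
    GC n0 p q α ρ y x = (GCN n0 p q α ρ y x * (3 * x ^ 2 - 3)) /
      (GCD q ρ y x * ∏ i ∈ range (2 * (n0 + p) + 1), (cc x - cc ((X0 (α i) : ℝ) : ℂ))) := by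
  unfold GC
  rw [div_mul_eq_mul_div, div_div]

theorem limj_GCN (n0 p q : ℕ) (y : ℝ) {α ρ : ℝ × ℂ → ℕ → ℝ} (hα : ∀ i, Continuous fun t => α t i)
    (hρ : ∀ l, Continuous fun t => ρ t l) : Continuous fun t : ℝ × ℂ => GCN n0 p q (α t) (ρ t) y t.2 := by
  unfold GCN
  have h1 : Continuous fun p : ℝ × ℂ => cc p.2 := tendj_cc.comp continuous_snd
  have hS : ∀ i, Continuous fun t : ℝ × ℂ => sS n0 (b1 n0 (α t) (ρ t)) y i := fun i =>
    tendj_X0 (tendj_ins1 (limj_b1 _ hα hρ) i)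
  have hA : ∀ i, Continuous fun t : ℝ × ℂ => sA (α t) i := fun i => tendj_X0 (hα i)
  have hB : ∀ i, Continuous fun t : ℝ × ℂ => sB (n0 + p) (bc (n0 + p) n0 q (α t) (ρ t)) i := fun i =>
    tendj_Xp (limj_bc _ _ _ hα hρ _)
  exact (((tendj_AP _ hS h1).add ((tendj_BP _ hS h1).mul continuous_snd)).mul
    ((tendj_AP _ hA h1).add (continuous_const.mul (tendj_BP _ hA h1)))).mul
    ((tendj_AP _ hB h1).add (continuous_const.mul (tendj_BP _ hB h1)))

theorem limj_GCD (q : ℕ) (y : ℝ) {ρ : ℝ × ℂ → ℕ → ℝ}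
    (hρ : ∀ l, Continuous fun t => ρ t l) : Continuous fun t : ℝ × ℂ => GCD q (ρ t) y t.2 := by
  unfold GCD
  have h1 : Continuous fun p : ℝ × ℂ => cc p.2 := tendj_cc.comp continuous_snd
  exact (h1.sub continuous_const).mul (continuous_finsetProd _ fun i _ => h1.sub (tendj_cc.comp (tendj_X0 (hρ i))))

theorem limj_cc_ne {x : ℂ} (hx : x ∈ Metric.sphere (2 : ℂ) (1 / 2)) {a : ℝ} (ha : |a| < 1 / 100) :
    cc x - cc ((X0 a : ℝ) : ℂ) ≠ 0 := by
  intro h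
  rw [sub_eq_zero] at h
  have hn := node2 ha
  have h1 := cc_inj (Metric.sphere_subset_closedBall hx) (Metric.ball_subset_closedBall hn) h
  rw [← h1] at hn
  rw [Metric.mem_sphere] at hx
  rw [Metric.mem_ball, hx] at hn
  exact lt_irrefl _ hn

theorem GC_tendsto (n0 p q : ℕ) {α ρ : ℝ → ℕ → ℝ} (hα : ∀ i, Continuous fun t => α t i) (hρ : ∀ l, Continuous fun t => ρ t l)
    (ha : ∀ i, |α 0 i| < 1 / 100) (hr : ∀ l, |ρ 0 l - π / 6| < 1 / 100) :
    Tendsto (fun t : ℝ => ∮ x in C(2, 1 / 2), GC n0 p q (α t) (ρ t) (π / 6) x) (𝓝 0)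
      (𝓝 (∮ x in C(2, 1 / 2), GC n0 p q (α 0) (ρ 0) (π / 6) x)) := by
  have hα' : ∀ i, Continuous fun t : ℝ × ℂ => α t.1 i := fun i => (hα i).comp continuous_fst
  have hρ' : ∀ i, Continuous fun t : ℝ × ℂ => ρ t.1 i := fun i => (hρ i).comp continuous_fst
  have hN : Continuous (fun t : ℝ × ℂ => GCN n0 p q (α t.1) (ρ t.1) (π / 6) t.2 * (3 * t.2 ^ 2 - 3)) :=
    (limj_GCN n0 p q (π / 6) hα' hρ').mul (by fun_prop)
  have hD : Continuous (fun t : ℝ × ℂ => GCD q (ρ t.1) (π / 6) t.2 *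
      ∏ i ∈ range (2 * (n0 + p) + 1), (cc t.2 - cc ((X0 (α t.1 i) : ℝ) : ℂ))) :=
    (limj_GCD q (π / 6) hρ').mul (continuous_finsetProd _ fun i _ =>
      (tendj_cc.comp continuous_snd).sub (tendj_cc.comp (tendj_X0 (hα' i))))
  have h := cont_integral (c := 2) (R := 1 / 2) hN hD (by norm_num) (fun z hz => ?_)
  · simp only [← limj_GC] at h
    exact h
  · have hz' := Metric.sphere_subset_closedBall hz
    change GCD q (ρ 0) (π / 6) z *
      ∏ i ∈ range (2 * (n0 + p) + 1), (cc z - cc ((X0 (α 0 i) : ℝ) : ℂ)) ≠ 0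
    unfold GCD
    refine mul_ne_zero (mul_ne_zero (fac6 hz' tendj_near6) (prod_ne_zero_iff.2 fun l _ => fac6 hz' (hr l)))
      (prod_ne_zero_iff.2 fun i _ => limj_cc_ne hz (ha i))

/-- continuity of the constants -/
theorem Chi_tendsto (r : ℕ) {s : ℝ → ℕ → ℂ} (hs : ∀ i, Continuous fun t => s t i) :
    Tendsto (fun t => Chi r (s t)) (𝓝 0) (𝓝 (Chi r (s 0))) :=
  ((Chi_continuous_complex r).comp (continuous_pi hs)).tendsto 0
end IP.Junc
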