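import Pool.Agent.Helper87.J2.Lower
import Pool.Agent.Helper87.J2.Link
/-! MODULE NE (helper80): the total weight of the lower leg does not vanish when all the columns are at `a ≠ 0` (second case);
extracted from the proof of `link2` (helper87). -/
namespace H47Perc.JJ
open Finset Filter Topology H47Perc.DS H47Perc.SL

theorem lowZ_ne (n0 p q : ℕ) : ∀ᶠ a : ℝ in 𝓝[≠] 0, IP.Z (n0 + p + (p + q) + 1)
    (IP.Junc.ins1 (2 * (n0 + p) + 1) (Real.pi / 6) (ba (n0 + p) q a)) ≠ 0 := by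
  set l : Filter ℝ := 𝓝[≠] (0 : ℝ) with hl
  set y : ℝ → ℕ → ℝ := fun a _ => a with hy'
  have hy : ∀ j, Tendsto (fun i => y i j) l (𝓝 0) := fun _ => tendsto_id.mono_left nhdsWithin_le_nhds
  have hg : ∀ᶠ i in l, ∀ k k', 2 * n0 + 1 ≤ k → k < k' → k' < 2 * n0 + 1 + 2 * p → y i k + y i k' ≠ 0 := by
    filter_upwards [self_mem_nhdsWithin] with a ha k k' _ _ _
    intro h
    exact ha (by simpa using (by simp only [hy'] at h; linarith : a = 0))
  have hB0 := vj_P n0 (b := zb) (fun j _ => rfl)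
  have hB : Cv l (fun i => IP.V n0 (y i)) (IP.V n0 zb) := Cv.V n0 (b0 := zb) hy
  have hL := cv_KX hy n0 p (q + 1) (hB.norm hB0.1)
  have ezb : (IP.tot (IP.V n0 zb))⁻¹ • IP.V n0 zb = IP.P n0 zb := hB0.2.symm
  rw [ezb] at hL
  have htot : IP.tot ((DD (n0 + p) ^ (q + 1)) (KA n0 p (IP.P n0 zb))) = 1 := by
    rw [tot_DD_pow, KA_eq]
    have : ∀ r v, IP.tot (KB n0 r v) = IP.tot v := by
      intro r v
      induction r with
      | zero => rfl
      | succ r ih => rw [KB_succ, IP.tot_In, ih]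
    rw [this]
    exact IP.tot_P _ IP.zero_Cube
  have hx6 : ∀ᶠ i in l, ∀ k < 2 * n0 + 1 + 2 * p, |y i k| < Real.pi / 6 := by
    have hk : ∀ k, ∀ᶠ i in l, |y i k| < Real.pi / 6 := by
      intro k
      have h1 := (hy k).abs
      rw [abs_zero] at h1
      exact h1.eventually (gt_mem_nhds (by positivity))
    have := (Finset.range (2 * n0 + 1 + 2 * p)).eventually_all.2 (fun k _ => hk k)
    filter_upwards [this] with i hi k hk
    exact hi k (mem_range.2 hk)
  have ht : ∀ᶠ i in l, IP.tot (KX n0 p (q + 1) (y i)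
      ((IP.tot (IP.V n0 (y i)))⁻¹ • IP.V n0 (y i))) ≠ 0 := by
    have h1 := hL.tot
    rw [htot] at h1
    exact h1.eventually (isOpen_ne.mem_nhds one_ne_zero)
  filter_upwards [hg, hx6, ht] with i gi xi ti
  have hPr : Pr (KX n0 p (q + 1) (y i) ((IP.tot (IP.V n0 (y i)))⁻¹ • IP.V n0 (y i)))
      (IP.V (n0 + 2 * p + (q + 1)) (bT n0 (2 * p) (y i) (2 * (q + 1)))) := by
    rw [map_smul]
    exact (show Pr _ _ from ⟨_, rfl⟩).trans (pr_KX (n0 := n0) xi gi (q + 1))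
  obtain ⟨c, hc⟩ := hPr
  have hc0 : c * IP.tot (IP.V (n0 + 2 * p + (q + 1)) (bT n0 (2 * p) (y i) (2 * (q + 1)))) ≠ 0 := by
    have h1 := ti
    rw [hc, map_smul, smul_eq_mul] at h1
    exact h1
  have eL : IP.V (n0 + p + (p + q) + 1)
      (IP.Junc.ins1 (2 * (n0 + p) + 1) (Real.pi / 6) (bF n0 p q (y i))) =
      IP.V (n0 + 2 * p + (q + 1)) (bT n0 (2 * p) (y i) (2 * (q + 1))) := by
    rw [ins1_bF]
    congr 1
    ring
  have e2 : bF n0 p q (y i) = ba (n0 + p) q i := bF_const n0 p q i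
  rw [e2] at eL
  unfold IP.Z
  rw [eL]
  exact right_ne_zero_of_mul hc0

theorem rightZ_ne (q p : ℕ) : IP.Z (p + q) (bR q) ≠ 0 := by
  have h1 := pr_right q p
  rw [add_comm q p] at h1
  exact (h1.norm (IP.tot_P _ IP.zero_Cube)).1

end H47Perc.JJ
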