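import Pool.Agent.Helper80.J.PairJ
import Pool.Agent.Helper80.J.LagJ
/-! MODULE COL (second case): the term of the strand `α k + π/3` in `RF_term`.  Put `x = X0 (α k)`, `x⁺ = Xp (α k)`, `x⁻ = Xm (α k)`:
`xc = x⁺`, `xpc = x⁻`, `xmc = x` at `α k + π/3`.
(1) `CH (2m+1) (sA) x⁺ = ∏_{a ≠ k} (x_a - x⁻) * Chi (A ∖ k)`, `Chi (A ∖ k) ∏_{a≠k} qq x x_a = BP_A (c_k)` (`BP_eval`);
(2) `CH_B (x) = ∏_{t ≠ x⁻} (t - x⁺) Chi (B⁺ ∖ x⁻)`, `Chi (B⁺ ∖ x⁻) ∏_{t≠x⁻} qq x⁻ t = BP_B (c_k)`, `qq x⁻ t = (t-x)(t-x⁺)`;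
(3) `pair_CH` at `x`, `CH_{S'} (x) ∏_{t ∈ S'} (x - t) = AP_{S'} + BP_{S'} x` (`AB_eval`);
(4) `AP_A = -x BP_A`, `AP_B = -x⁻ BP_B` at `c_k`; `(y⁻-x)(y⁻-x⁻) = (x⁺-y)(x⁺-y⁺)`, `(x-y)(x⁺-y)(x⁻-y) = c_k - c_y`.
Result: `-Chi S * GCN (x) / GCD (x) / ∏_{i ≠ k} (c_i - c_k)` divided by `Chi S'`. -/
namespace IP.Junc
open IP IP.Slit Finset Real

/-- the three roots -/
theorem colJ_roots (b : ℝ) (t : ℂ) : cc t - cc ((X0 b : ℝ) : ℂ) =
    (t - ((X0 b : ℝ) : ℂ)) * (t - ((Xp b : ℝ) : ℂ)) * (t - ((Xm b : ℝ) : ℂ)) := by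
  have h1 : Xm b = -X0 b - Xp b := by linarith [rh_sum b]
  have h2 : X0 b ^ 2 + X0 b * Xp b + Xp b ^ 2 = 3 := by
    have := rh_qq_p b
    unfold qq at this
    linarith
  have h3 : ((X0 b : ℝ) : ℂ) ^ 2 + ((X0 b : ℝ) : ℂ) * ((Xp b : ℝ) : ℂ) + ((Xp b : ℝ) : ℂ) ^ 2 = 3 := by
    exact_mod_cast h2
  rw [h1]
  push_cast
  unfold cc
  linear_combination (t - ((X0 b : ℝ) : ℂ)) * h3

/-- a wheel partner: `CH (w) ∏_{i ≠ j} (w - s_i) = BP (c)` -/
theorem colJ_wheel {r : ℕ} {s : ℕ → ℂ} {j : ℕ} (hj : j < r) {w : ℂ} (hw : cc w = cc (s j)) (hne : w ≠ s j) :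
    CH r s w * ∏ i ∈ (range r).erase j, (w - s i) = (BP r s).eval (cc (s j)) ∧
      (AP r s).eval (cc (s j)) = -(s j * (BP r s).eval (cc (s j))) := by
  have e1 := AB_eval r s w
  have e2 := AB_eval r s (s j)
  rw [Finset.prod_eq_zero (mem_range.2 hj) (sub_self _), mul_zero] at e2
  change 0 = (AP r s).eval (cc (s j)) + (BP r s).eval (cc (s j)) * s j at e2
  change Chi (r + 1) (Function.update s r w) * ∏ i ∈ range r, (w - s i) =
    (AP r s).eval (cc w) + (BP r s).eval (cc w) * w at e1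
  rw [hw] at e1
  have h2 : (AP r s).eval (cc (s j)) = -(s j * (BP r s).eval (cc (s j))) := by linear_combination -e2
  refine ⟨?_, h2⟩
  have h3 : w - s j ≠ 0 := sub_ne_zero.2 hne
  apply mul_right_cancel₀ h3
  rw [← Finset.mul_prod_erase _ _ (mem_range.2 hj)] at e1
  unfold CH
  linear_combination e1 + h2

theorem colJ_bc_lo {m n0 q : ℕ} {α ρ : ℕ → ℝ} {j : ℕ} (h : j < 2 * m + 1) : bc m n0 q α ρ j = α j := by
  unfold bc
  rw [if_pos h]

theorem colJ_bc_mid {m n0 q : ℕ} {α ρ : ℕ → ℝ} {j : ℕ} (h : j < 2 * q + 1) : bc m n0 q α ρ (2 * m + 1 + j) = ρ j := by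
  unfold bc
  rw [if_neg (by omega), if_pos (by omega), Nat.add_sub_cancel_left]

theorem colJ_bc_hi {m n0 q : ℕ} {α ρ : ℕ → ℝ} (i : ℕ) :
    bc m n0 q α ρ (2 * m + 1 + (2 * q + 1 + i)) = α (2 * n0 + 1 + i) + π / 3 := by
  unfold bc
  rw [if_neg (by omega), if_neg (by omega)]
  congr 3
  omega

theorem colJ_X0_third (a : ℝ) : X0 (a + π / 3) = Xp a := by
  unfold X0 Xp
  rw [show 2 * (a + π / 3) = 2 * a + 2 * π / 3 by ring]
theorem colJ_Xm_third (a : ℝ) : Xm (a + π / 3) = X0 a := by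
  unfold Xm X0
  rw [show 2 * (a + π / 3) - 2 * π / 3 = 2 * a by ring]
theorem colJ_Xp_third (a : ℝ) : Xp (a + π / 3) = Xm a := by
  unfold Xm Xp
  rw [show 2 * (a + π / 3) + 2 * π / 3 = 2 * a - 2 * π / 3 + 2 * π by ring, Real.cos_add_two_pi]

theorem colJ_neg_prod {ι : Type*} [DecidableEq ι] (s : Finset ι) (f g : ι → ℂ) :
    ∏ i ∈ s, (f i - g i) = (-1) ^ s.card * ∏ i ∈ s, (g i - f i) := by
  have h2 : ∀ i ∈ s, f i - g i = (-1) * (g i - f i) := fun i _ => by ring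
  rw [prod_congr rfl h2, prod_mul_distrib, prod_const]

theorem col_term (n0 p q : ℕ) {α ρ : ℕ → ℝ} (h : Good n0 p q α ρ) {i : ℕ} (hi : i < 2 * p) :
    GN (n0 + p) (p + q) (bc (n0 + p) n0 q α ρ) (π / 6) ((α (2 * n0 + 1 + i) + π / 3 : ℝ) : ℂ) /
        GD (n0 + p) (bc (n0 + p) n0 q α ρ) (π / 6) ((α (2 * n0 + 1 + i) + π / 3 : ℝ) : ℂ) /
        (∏ l ∈ (range (2 * (p + q) + 1)).erase (2 * q + 1 + i),
          (((Xm (bc (n0 + p) n0 q α ρ (2 * (n0 + p) + 1 + l)) : ℝ) : ℂ) - ((Xm (α (2 * n0 + 1 + i) + π / 3) : ℝ) : ℂ))) *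
        Chi (2 * (n0 + q) + 3) (sS n0 (b1 n0 α ρ) (π / 6)) =
      -(Chi (2 * (n0 + p + (p + q)) + 3) (sS (n0 + p) (bc (n0 + p) n0 q α ρ) (π / 6)) *
        (GCN n0 p q α ρ (π / 6) ((X0 (α (2 * n0 + 1 + i)) : ℝ) : ℂ) / GCD q ρ (π / 6) ((X0 (α (2 * n0 + 1 + i)) : ℝ) : ℂ) /
          ∏ l ∈ (range (2 * (n0 + p) + 1)).erase (2 * n0 + 1 + i),
            (cc ((X0 (α l) : ℝ) : ℂ) - cc ((X0 (α (2 * n0 + 1 + i)) : ℝ) : ℂ)))) := by
  classical
  set k := 2 * n0 + 1 + i with hk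
  have hkm : k < 2 * (n0 + p) + 1 := by omega
  set c : ℂ := cc ((X0 (α k) : ℝ) : ℂ) with hc
  set x : ℂ := ((X0 (α k) : ℝ) : ℂ) with hx
  set xp : ℂ := ((Xp (α k) : ℝ) : ℂ) with hxp
  set xm : ℂ := ((Xm (α k) : ℝ) : ℂ) with hxm
  set y0 : ℂ := ((X0 (π / 6) : ℝ) : ℂ) with hy0
  set yp : ℂ := ((Xp (π / 6) : ℝ) : ℂ) with hyp
  set ym : ℂ := ((Xm (π / 6) : ℝ) : ℂ) with hym
  -- the point
  have z1 : xc ((α k + π / 3 : ℝ) : ℂ) = xp := by rw [xc_ofReal, colJ_X0_third]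
  have z2 : xpc ((α k + π / 3 : ℝ) : ℂ) = xm := by rw [xpc_ofReal, colJ_Xp_third]
  have z3 : xmc ((α k + π / 3 : ℝ) : ℂ) = x := by rw [xmc_ofReal, colJ_Xm_third]
  have hα : ∀ i < 2 * (n0 + p) + 1, |α i| < 1 / 100 := fun i hi => by
    rw [abs_of_pos (h.al i hi).1]
    exact (h.al i hi).2
  have hpi := Real.pi_gt_three
  -- the nodes
  have hxb : ∀ l < 2 * (n0 + p) + 1, ((X0 (α l) : ℝ) : ℂ) ∈ Metric.closedBall (2 : ℂ) (1 / 2) := fun l hl =>
    Metric.ball_subset_closedBall (node2 (hα l hl))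
  have hX : ∀ l < 2 * (n0 + p) + 1, l ≠ k → cc ((X0 (α l) : ℝ) : ℂ) - c ≠ 0 := by
    intro l hl hlk h0
    have h1 := cc_inj (hxb l hl) (hxb k hkm) (sub_eq_zero.1 h0)
    have h1' : X0 (α l) = X0 (α k) := Complex.ofReal_injective h1
    unfold X0 at h1'
    have h2 : Real.cos (2 * α l) = Real.cos (2 * α k) := by linarith
    have hai := h.al l hl
    have haj := h.al k hkm
    have h3 := Real.injOn_cos (Set.mem_Icc.2 ⟨by linarith [hai.1], by linarith [hai.2]⟩)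
      (Set.mem_Icc.2 ⟨by linarith [haj.1], by linarith [haj.2]⟩) h2
    exact h.al_inj l hl k hkm hlk (by linarith)
  have hY : c - cc y0 ≠ 0 := fac6 (hxb k hkm) (by rw [sub_self, abs_zero]; norm_num)
  have hR : ∀ l < 2 * q + 1, c - cc ((X0 (ρ l) : ℝ) : ℂ) ≠ 0 := fun l hl => fac6 (hxb k hkm) (h.rho l hl).1
  -- the roots
  have rx : ∀ t, cc t - c = (t - x) * (t - xp) * (t - xm) := fun t => colJ_roots (α k) t
  have ry : ∀ t, cc t - cc y0 = (t - y0) * (t - yp) * (t - ym) := fun t => colJ_roots (π / 6) t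
  have ccp : cc xp = c := by
    have := rx xp
    rw [sub_self, mul_zero, zero_mul] at this
    exact sub_eq_zero.1 this
  have ccm : cc xm = c := by
    have := rx xm
    rw [sub_self, mul_zero] at this
    exact sub_eq_zero.1 this
  have sx : x + xp + xm = 0 := by
    rw [hx, hxp, hxm]
    exact_mod_cast rh_sum (α k)
  have sy : y0 + yp + ym = 0 := by
    rw [hy0, hyp, hym]
    exact_mod_cast rh_sum (π / 6)
  have hder : (x - xp) * (x - xm) ≠ 0 := by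
    have h1 := cc_der_ne (hxb k hkm)
    have h2 : 3 * x ^ 2 - 3 = (x - xp) * (x - xm) := by
      have e0 : X0 (α k) ^ 2 + X0 (α k) * Xp (α k) + Xp (α k) ^ 2 = 3 := by
        have := rh_qq_p (α k)
        unfold qq at this
        linarith
      have e1 : x ^ 2 + x * xp + xp ^ 2 = 3 := by
        rw [hx, hxp]
        exact_mod_cast e0
      linear_combination e1 + (x - xp) * sx
    rwa [← h2]
  have nxm : x - xm ≠ 0 := right_ne_zero_of_mul hder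
  have nxp : x - xp ≠ 0 := left_ne_zero_of_mul hder
  -- the legs `A` and `B`
  set bb := bc (n0 + p) n0 q α ρ with hbb
  set BPA := (BP (2 * (n0 + p) + 1) (sA α)).eval c with hBPA
  set BPB := (BP (2 * (p + q) + 1) (sB (n0 + p) bb)).eval c with hBPB
  have hsA : sA α k = x := rfl
  obtain ⟨wA, wA'⟩ := colJ_wheel (r := 2 * (n0 + p) + 1) (s := sA α) (j := k) hkm (w := xp)
    (by rw [hsA, ccp]) (by rw [hsA]; exact (sub_ne_zero.1 nxp).symm)
  rw [hsA] at wA wA'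
  have hsB : sB (n0 + p) bb (2 * q + 1 + i) = xm := by
    unfold sB
    rw [hbb, colJ_bc_hi, colJ_Xp_third]
  have hjB : 2 * q + 1 + i < 2 * (p + q) + 1 := by omega
  obtain ⟨wB, wB'⟩ := colJ_wheel (r := 2 * (p + q) + 1) (s := sB (n0 + p) bb) (j := 2 * q + 1 + i) hjB (w := x)
    (by rw [hsB, ccm]) (by rw [hsB]; exact sub_ne_zero.1 nxm)
  rw [hsB, ccm] at wB wB'
  -- index sets
  have hIA : (range (2 * (n0 + p) + 1)).erase k = range (2 * n0 + 1) ∪ (Ico (2 * n0 + 1) (2 * (n0 + p) + 1)).erase k := by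
    ext l
    simp only [mem_erase, mem_union, mem_range, mem_Ico]
    omega
  have hIAd : Disjoint (range (2 * n0 + 1)) ((Ico (2 * n0 + 1) (2 * (n0 + p) + 1)).erase k) := by
    rw [disjoint_left]
    intro l hl hl'
    have h3 := mem_range.1 hl
    have h4 := mem_Ico.1 (mem_of_mem_erase hl')
    omega
  have hIB : ∀ F : ℕ → ℂ, ∏ l ∈ (range (2 * (p + q) + 1)).erase (2 * q + 1 + i), F l =
      (∏ l ∈ range (2 * q + 1), F l) *
        ∏ l ∈ (Ico (2 * n0 + 1) (2 * (n0 + p) + 1)).erase k, F (l + (2 * q + 1) - (2 * n0 + 1)) := by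
    intro F
    have e1 : (range (2 * (p + q) + 1)).erase (2 * q + 1 + i) = range (2 * q + 1) ∪
        (Ico (2 * q + 1) (2 * (p + q) + 1)).erase (2 * q + 1 + i) := by
      ext l
      simp only [mem_erase, mem_union, mem_range, mem_Ico]
      omega
    have e2 : Disjoint (range (2 * q + 1)) ((Ico (2 * q + 1) (2 * (p + q) + 1)).erase (2 * q + 1 + i)) := by
      rw [disjoint_left]
      intro l hl hl'
      have h3 := mem_range.1 hl
      have h4 := mem_Ico.1 (mem_of_mem_erase hl')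
      omega
    rw [e1, prod_union e2]
    congr 1
    refine Finset.prod_bij' (fun l _ => l + (2 * n0 + 1) - (2 * q + 1)) (fun l _ => l + (2 * q + 1) - (2 * n0 + 1))
      ?_ ?_ ?_ ?_ ?_
    · intro l hl
      simp only [mem_erase, mem_Ico] at hl ⊢
      omega
    · intro l hl
      simp only [mem_erase, mem_Ico] at hl ⊢
      omega
    · intro l hl
      simp only [mem_erase, mem_Ico] at hl
      omega
    · intro l hl
      simp only [mem_erase, mem_Ico] at hl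
      omega
    · intro l hl
      simp only [mem_erase, mem_Ico] at hl
      congr 1
      omega
  have hbhi : ∀ l ∈ (Ico (2 * n0 + 1) (2 * (n0 + p) + 1)).erase k,
      bb (2 * (n0 + p) + 1 + (l + (2 * q + 1) - (2 * n0 + 1))) = α l + π / 3 := by
    intro l hl
    have h1 := mem_Ico.1 (mem_of_mem_erase hl)
    have h2 := colJ_bc_hi (m := n0 + p) (n0 := n0) (q := q) (α := α) (ρ := ρ) (l - (2 * n0 + 1))
    rw [show 2 * (n0 + p) + 1 + (2 * q + 1 + (l - (2 * n0 + 1))) = 2 * (n0 + p) + 1 + (l + (2 * q + 1) - (2 * n0 + 1)) by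
      omega, show 2 * n0 + 1 + (l - (2 * n0 + 1)) = l by omega] at h2
    exact h2
  -- abbreviations for the products
  set I1 := range (2 * n0 + 1) with hI1
  set I2 := (Ico (2 * n0 + 1) (2 * (n0 + p) + 1)).erase k with hI2
  set I3 := range (2 * q + 1) with hI3
  have c1 : I1.card = 2 * n0 + 1 := card_range _
  have hkI : k ∈ Ico (2 * n0 + 1) (2 * (n0 + p) + 1) := mem_Ico.2 ⟨by omega, hkm⟩
  have c2 : I2.card = 2 * p - 1 := by
    rw [hI2, card_erase_of_mem hkI, Nat.card_Ico]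
    omega
  have c3 : I3.card = 2 * q + 1 := card_range _
  have odd2 : ∃ t, I2.card = 2 * t + 1 := ⟨p - 1, by omega⟩
  have s1 : ((-1 : ℂ)) ^ I1.card = -1 := by rw [c1, pow_succ, pow_mul]; norm_num
  have s2 : ((-1 : ℂ)) ^ I2.card = -1 := by
    obtain ⟨t, ht⟩ := odd2
    rw [ht, pow_succ, pow_mul]
    norm_num
  have s3 : ((-1 : ℂ)) ^ I3.card = -1 := by rw [c3, pow_succ, pow_mul]; norm_num
  -- products over `I1`, `I2`, `I3`
  set P1 := ∏ l ∈ I1, (((X0 (α l) : ℝ) : ℂ) - x) with hP1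
  set P1p := ∏ l ∈ I1, (((X0 (α l) : ℝ) : ℂ) - xp) with hP1p
  set P1m := ∏ l ∈ I1, (((X0 (α l) : ℝ) : ℂ) - xm) with hP1m
  set P2 := ∏ l ∈ I2, (((X0 (α l) : ℝ) : ℂ) - x) with hP2
  set P2p := ∏ l ∈ I2, (((X0 (α l) : ℝ) : ℂ) - xp) with hP2p
  set P2m := ∏ l ∈ I2, (((X0 (α l) : ℝ) : ℂ) - xm) with hP2m
  set Q2 := ∏ l ∈ I2, (x - ((Xm (α l) : ℝ) : ℂ)) with hQ2
  set R0 := ∏ l ∈ I3, (x - ((X0 (ρ l) : ℝ) : ℂ)) with hR0
  set Rp := ∏ l ∈ I3, (x - ((Xp (ρ l) : ℝ) : ℂ)) with hRp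
  set Rm := ∏ l ∈ I3, (x - ((Xm (ρ l) : ℝ) : ℂ)) with hRm
  -- (1) the denominator of the right side
  have d1 : ∏ l ∈ (range (2 * (n0 + p) + 1)).erase k, (cc ((X0 (α l) : ℝ) : ℂ) - c) =
      (P1 * P1p * P1m) * (P2 * P2p * P2m) := by
    rw [hIA, prod_union hIAd, hP1, hP1p, hP1m, hP2, hP2p, hP2m, ← prod_mul_distrib, ← prod_mul_distrib,
      ← prod_mul_distrib, ← prod_mul_distrib]
    congr 1 <;> exact prod_congr rfl fun l _ => rx _
  have d2 : ∏ l ∈ I3, (c - cc ((X0 (ρ l) : ℝ) : ℂ)) = R0 * Rp * Rm := by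
    rw [hR0, hRp, hRm, ← prod_mul_distrib, ← prod_mul_distrib]
    exact prod_congr rfl fun l _ => colJ_roots (ρ l) x
  have d3 : c - cc y0 = (x - y0) * (x - yp) * (x - ym) := ry x
  -- (2) the wheel products
  rw [← hc] at wA wA'
  have pA : ∏ l ∈ (range (2 * (n0 + p) + 1)).erase k, (xp - sA α l) = P1p * P2p := by
    rw [hIA, prod_union hIAd]
    have e1 : ∏ l ∈ I1, (xp - sA α l) = -P1p := by
      rw [colJ_neg_prod, s1, neg_one_mul]
      rfl
    have e2 : ∏ l ∈ I2, (xp - sA α l) = -P2p := by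
      rw [colJ_neg_prod, s2, neg_one_mul]
      rfl
    rw [e1, e2, neg_mul_neg]
  rw [pA] at wA
  have pB : ∏ l ∈ (range (2 * (p + q) + 1)).erase (2 * q + 1 + i), (x - sB (n0 + p) bb l) = Rp * Q2 := by
    rw [hIB, hRp, hQ2]
    congr 1
    · refine prod_congr rfl fun l hl => ?_
      unfold sB
      rw [hbb, colJ_bc_mid (mem_range.1 hl)]
    · refine prod_congr rfl fun l hl => ?_
      unfold sB
      rw [hbhi l hl, colJ_Xp_third]
  rw [pB] at wB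
  -- (3) the third product
  have pC : ∏ l ∈ (range (2 * (p + q) + 1)).erase (2 * q + 1 + i),
      (((Xm (bb (2 * (n0 + p) + 1 + l)) : ℝ) : ℂ) - ((Xm (α k + π / 3) : ℝ) : ℂ)) = -(Rm * P2) := by
    rw [hIB, colJ_Xm_third, ← neg_mul]
    congr 1
    · have e1 : ∀ l ∈ I3, ((Xm (bb (2 * (n0 + p) + 1 + l)) : ℝ) : ℂ) - ((X0 (α k) : ℝ) : ℂ) =
          ((Xm (ρ l) : ℝ) : ℂ) - x := fun l hl => by
        rw [hbb, colJ_bc_mid (mem_range.1 hl)]
      rw [prod_congr rfl e1, colJ_neg_prod, s3, neg_one_mul]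
    · refine prod_congr rfl fun l hl => ?_
      rw [hbhi l hl, colJ_Xm_third]
  -- (4) `GD`
  have pD : GD (n0 + p) bb (π / 6) ((α k + π / 3 : ℝ) : ℂ) = (y0 - xm) * ((x - xm) * (P1m * P2m)) := by
    unfold GD
    rw [z2]
    congr 1
    have e1 : ∀ l ∈ range (2 * (n0 + p) + 1), ((X0 (bb l) : ℝ) : ℂ) - xm = ((X0 (α l) : ℝ) : ℂ) - xm := fun l hl => by
      rw [hbb, colJ_bc_lo (mem_range.1 hl)]
    rw [prod_congr rfl e1, ← Finset.mul_prod_erase _ _ (mem_range.2 hkm), hIA, prod_union hIAd]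
  -- (5) `S'`
  have pS : ∏ l ∈ range (2 * (n0 + q) + 3), (x - sS n0 (b1 n0 α ρ) (π / 6) l) = -(P1 * (x - y0) * R0) := by
    rw [show 2 * (n0 + q) + 3 = (2 * n0 + 1 + 1) + (2 * q + 1) by ring, Finset.prod_range_add, Finset.prod_range_succ]
    have e1 : ∏ l ∈ range (2 * n0 + 1), (x - sS n0 (b1 n0 α ρ) (π / 6) l) = -P1 := by
      have e0 : ∀ l ∈ I1, x - sS n0 (b1 n0 α ρ) (π / 6) l = x - ((X0 (α l) : ℝ) : ℂ) := fun l hl => by
        have hl' : l < 2 * n0 + 1 := mem_range.1 hl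
        unfold sS ins1 b1
        rw [if_pos hl', if_pos hl']
      rw [← hI1, prod_congr rfl e0, colJ_neg_prod, s1, neg_one_mul]
    have e2 : x - sS n0 (b1 n0 α ρ) (π / 6) (2 * n0 + 1) = x - y0 := by
      unfold sS ins1
      rw [if_neg (lt_irrefl _), if_pos rfl]
    have e3 : ∏ l ∈ range (2 * q + 1), (x - sS n0 (b1 n0 α ρ) (π / 6) (2 * n0 + 1 + 1 + l)) = R0 := by
      refine prod_congr rfl fun l hl => ?_
      unfold sS ins1 b1
      rw [if_neg (by omega), if_neg (by omega), if_neg (by omega)]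
      rw [show 2 * n0 + 1 + 1 + l - 1 - (2 * n0 + 1) = l by omega]
    rw [e1, e2, e3]
    ring
  have wS := AB_eval (2 * (n0 + q) + 3) (sS n0 (b1 n0 α ρ) (π / 6)) x
  change CH (2 * (n0 + q) + 3) (sS n0 (b1 n0 α ρ) (π / 6)) x * _ = (AP _ _).eval c + (BP _ _).eval c * x at wS
  rw [pS] at wS
  -- (6) the pairs
  have hne : ∀ l < 2 * (n0 + p) + 1, X0 (α l) ≠ Xp (α l) := by
    intro l hl h0
    have h1 := cc_der_ne (hxb l hl)
    apply h1
    have e0 := rh_qq_p (α l)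
    unfold qq at e0
    rw [← h0] at e0
    have e1 : 3 * X0 (α l) ^ 2 - 3 = 0 := by linarith
    exact_mod_cast e1
  have wP := pair_CH n0 p q (α := α) (ρ := ρ) hne (π / 6) x
  rw [← Finset.mul_prod_erase _ _ hkI] at wP
  -- (7) the leg `A`
  have hCA : CH (2 * (n0 + p) + 1) (sA bb) xp = CH (2 * (n0 + p) + 1) (sA α) xp := by
    unfold CH
    refine Chi_congr fun l _ => ?_
    by_cases h1 : l = 2 * (n0 + p) + 1
    · rw [h1, Function.update_self, Function.update_self]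
    · rw [Function.update_of_ne h1, Function.update_of_ne h1]
      unfold sA
      rw [hbb, colJ_bc_lo (by omega)]
  -- nonvanishing
  have n1 : ∀ l ∈ I1, l < 2 * (n0 + p) + 1 ∧ l ≠ k := fun l hl => by
    have := mem_range.1 hl
    constructor <;> omega
  have n2 : ∀ l ∈ I2, l < 2 * (n0 + p) + 1 ∧ l ≠ k := fun l hl =>
    ⟨(mem_Ico.1 (mem_of_mem_erase hl)).2, ne_of_mem_erase hl⟩
  have nX : ∀ l, l < 2 * (n0 + p) + 1 ∧ l ≠ k → (((X0 (α l) : ℝ) : ℂ) - x) ≠ 0 ∧ (((X0 (α l) : ℝ) : ℂ) - xp) ≠ 0 ∧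
      (((X0 (α l) : ℝ) : ℂ) - xm) ≠ 0 := by
    intro l hl
    have h1 := hX l hl.1 hl.2
    rw [rx] at h1
    exact ⟨left_ne_zero_of_mul (left_ne_zero_of_mul h1), right_ne_zero_of_mul (left_ne_zero_of_mul h1),
      right_ne_zero_of_mul h1⟩
  have nP1 : P1 ≠ 0 := prod_ne_zero_iff.2 fun l hl => (nX l (n1 l hl)).1
  have nP1p : P1p ≠ 0 := prod_ne_zero_iff.2 fun l hl => (nX l (n1 l hl)).2.1
  have nP1m : P1m ≠ 0 := prod_ne_zero_iff.2 fun l hl => (nX l (n1 l hl)).2.2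
  have nP2 : P2 ≠ 0 := prod_ne_zero_iff.2 fun l hl => (nX l (n2 l hl)).1
  have nP2p : P2p ≠ 0 := prod_ne_zero_iff.2 fun l hl => (nX l (n2 l hl)).2.1
  have nP2m : P2m ≠ 0 := prod_ne_zero_iff.2 fun l hl => (nX l (n2 l hl)).2.2
  have nRR : R0 * Rp * Rm ≠ 0 := by
    rw [← d2]
    exact prod_ne_zero_iff.2 fun l hl => hR l (mem_range.1 hl)
  have nR0 : R0 ≠ 0 := left_ne_zero_of_mul (left_ne_zero_of_mul nRR)
  have nRp : Rp ≠ 0 := right_ne_zero_of_mul (left_ne_zero_of_mul nRR)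
  have nRm : Rm ≠ 0 := right_ne_zero_of_mul nRR
  have nYY : (x - y0) * (x - yp) * (x - ym) ≠ 0 := by rw [← d3]; exact hY
  have ny0 : x - y0 ≠ 0 := left_ne_zero_of_mul (left_ne_zero_of_mul nYY)
  have nyp : x - yp ≠ 0 := right_ne_zero_of_mul (left_ne_zero_of_mul nYY)
  have nym : x - ym ≠ 0 := right_ne_zero_of_mul nYY
  have nyx : y0 - xm ≠ 0 := by
    have h1 := ry xm
    rw [ccm] at h1
    have h2 : xm - y0 ≠ 0 := by
      intro h0
      rw [h0, zero_mul, zero_mul] at h1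
      exact hY h1
    intro h0
    apply h2
    linear_combination -h0
  -- the last identity
  have qx : x ^ 2 + x * xp + xp ^ 2 = 3 := by
    have e0 : X0 (α k) ^ 2 + X0 (α k) * Xp (α k) + Xp (α k) ^ 2 = 3 := by
      have := rh_qq_p (α k)
      unfold qq at this
      linarith
    rw [hx, hxp]
    exact_mod_cast e0
  have qy : y0 ^ 2 + y0 * yp + yp ^ 2 = 3 := by
    have e0 : X0 (π / 6) ^ 2 + X0 (π / 6) * Xp (π / 6) + Xp (π / 6) ^ 2 = 3 := by
      have := rh_qq_p (π / 6)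
      unfold qq at this
      linarith
    rw [hy0, hyp]
    exact_mod_cast e0
  have last : (xp - yp) * (x - yp) = (ym - xm) * (y0 - xm) := by
    have e1 : xm = -x - xp := by linear_combination sx
    have e2 : ym = -y0 - yp := by linear_combination sy
    rw [e1, e2]
    linear_combination qy - qx
  -- conclusion
  have hGN : GN (n0 + p) (p + q) bb (π / 6) ((α k + π / 3 : ℝ) : ℂ) =
      (xp - yp) * CH (2 * (n0 + p) + 1) (sA α) xp * CH (2 * (p + q) + 1) (sB (n0 + p) bb) x *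
        CH (2 * (n0 + p + (p + q)) + 3) (sS (n0 + p) bb (π / 6)) x := by
    unfold GN
    rw [z1, z3, hCA]
  have hGCD : GCD q ρ (π / 6) x = (x - y0) * (x - yp) * (x - ym) * (R0 * Rp * Rm) := by
    unfold GCD
    change (c - cc y0) * _ = _
    rw [d3]
    congr 1
  have hGCN : GCN n0 p q α ρ (π / 6) x =
      (CH (2 * (n0 + q) + 3) (sS n0 (b1 n0 α ρ) (π / 6)) x * -(P1 * (x - y0) * R0)) *
        ((ym - x) * (CH (2 * (n0 + p) + 1) (sA α) xp * (P1p * P2p))) *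
        ((ym - xm) * (CH (2 * (p + q) + 1) (sB (n0 + p) bb) x * (Rp * Q2))) := by
    unfold GCN
    rw [wS, wA, wB]
    change _ * ((AP (2 * (n0 + p) + 1) (sA α)).eval c + ym * (BP (2 * (n0 + p) + 1) (sA α)).eval c) *
      ((AP (2 * (p + q) + 1) (sB (n0 + p) bb)).eval c + ym * (BP (2 * (p + q) + 1) (sB (n0 + p) bb)).eval c) = _
    rw [wA', wB']
    change ((AP _ _).eval c + (BP _ _).eval c * x) * _ * _ = _
    ring
  rw [hGN, pC, pD, hGCN, hGCD, d1]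
  generalize CH (2 * (n0 + p) + 1) (sA α) xp = cA
  generalize CH (2 * (p + q) + 1) (sB (n0 + p) bb) x = cB
  generalize CH (2 * (n0 + p + (p + q)) + 3) (sS (n0 + p) bb (π / 6)) x = cS at wP ⊢
  generalize Chi (2 * (n0 + q) + 3) (sS n0 (b1 n0 α ρ) (π / 6)) = cS1 at wP ⊢
  generalize Chi (2 * (n0 + p + (p + q)) + 3) (sS (n0 + p) bb (π / 6)) = cS2 at wP ⊢
  generalize CH (2 * (n0 + q) + 3) (sS n0 (b1 n0 α ρ) (π / 6)) x = cS3 at wP ⊢
  have wP' : cS * cS1 = cS2 * ((x - xm) * Q2) * cS3 := wP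
  have eL : (xp - yp) * cA * cB * cS / ((y0 - xm) * ((x - xm) * (P1m * P2m))) / -(Rm * P2) * cS1 =
      -((xp - yp) * cA * cB * cS2 * Q2 * cS3 / ((y0 - xm) * (P1m * P2m) * (Rm * P2))) := by
    have : (xp - yp) * cA * cB * cS / ((y0 - xm) * ((x - xm) * (P1m * P2m))) / -(Rm * P2) * cS1 =
        -((xp - yp) * cA * cB * (cS * cS1) / ((y0 - xm) * ((x - xm) * (P1m * P2m)) * (Rm * P2))) := by
      rw [div_neg, div_div]
      ring
    rw [this, wP']
    congr 1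
    rw [div_eq_div_iff (mul_ne_zero (mul_ne_zero nyx (mul_ne_zero nxm (mul_ne_zero nP1m nP2m))) (mul_ne_zero nRm nP2))
      (mul_ne_zero (mul_ne_zero nyx (mul_ne_zero nP1m nP2m)) (mul_ne_zero nRm nP2))]
    ring
  rw [eL]
  congr 1
  have eR : cS3 * -(P1 * (x - y0) * R0) * ((ym - x) * (cA * (P1p * P2p))) * ((ym - xm) * (cB * (Rp * Q2))) /
      ((x - y0) * (x - yp) * (x - ym) * (R0 * Rp * Rm)) / ((P1 * P1p * P1m) * (P2 * P2p * P2m)) =
      (ym - xm) * cA * cB * Q2 * cS3 / ((x - yp) * Rm * P1m * (P2 * P2m)) := by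
    rw [div_div, div_eq_div_iff
      (mul_ne_zero (mul_ne_zero nYY nRR) (mul_ne_zero (mul_ne_zero (mul_ne_zero nP1 nP1p) nP1m)
        (mul_ne_zero (mul_ne_zero nP2 nP2p) nP2m)))
      (mul_ne_zero (mul_ne_zero (mul_ne_zero nyp nRm) nP1m) (mul_ne_zero nP2 nP2m))]
    ring
  rw [eR, mul_div_assoc', div_eq_div_iff
    (mul_ne_zero (mul_ne_zero nyx (mul_ne_zero nP1m nP2m)) (mul_ne_zero nRm nP2))
    (mul_ne_zero (mul_ne_zero (mul_ne_zero nyp nRm) nP1m) (mul_ne_zero nP2 nP2m))]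
  linear_combination (cA * cB * cS2 * Q2 * cS3 * Rm * P1m * (P2 * P2m)) * last



/-- the other columns do not contribute: `AP_{S'} + BP_{S'} x` vanishes at the strands of `S'` -/
theorem col_zero (n0 p q : ℕ) (α ρ : ℕ → ℝ) {j : ℕ} (hj : j < 2 * n0 + 1) :
    GCN n0 p q α ρ (π / 6) ((X0 (α j) : ℝ) : ℂ) = 0 := by
  have hs : sS n0 (b1 n0 α ρ) (π / 6) j = ((X0 (α j) : ℝ) : ℂ) := by
    unfold sS ins1 b1
    rw [if_pos hj, if_pos hj]
  have h1 := AB_eval (2 * (n0 + q) + 3) (sS n0 (b1 n0 α ρ) (π / 6)) ((X0 (α j) : ℝ) : ℂ)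
  rw [Finset.prod_eq_zero (i := j) (mem_range.2 (by omega)) (by rw [hs, sub_self]), mul_zero] at h1
  unfold GCN
  rw [show cc ((X0 (α j) : ℝ) : ℂ) = ((X0 (α j) : ℝ) : ℂ) ^ 3 - 3 * ((X0 (α j) : ℝ) : ℂ) from rfl, ← h1, zero_mul,
    zero_mul]

theorem colJ_cc_diff : Differentiable ℂ cc := fun x => (cc_hasDerivAt x).differentiableAt

theorem colJ_GCN_diff (n0 p q : ℕ) (α ρ : ℕ → ℝ) (y : ℝ) : Differentiable ℂ (GCN n0 p q α ρ y) := by
  have hP : ∀ P : Polynomial ℂ, Differentiable ℂ fun x => P.eval (cc x) := fun P =>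
    P.differentiable.comp colJ_cc_diff
  unfold GCN
  exact (((hP _).add ((hP _).mul differentiable_id)).mul ((hP _).add ((hP _).const_mul _))).mul
    ((hP _).add ((hP _).const_mul _))

theorem colJ_GCD_diff (q : ℕ) (ρ : ℕ → ℝ) (y : ℝ) : Differentiable ℂ (GCD q ρ y) := by
  unfold GCD
  refine (colJ_cc_diff.sub_const _).mul ?_
  exact Differentiable.fun_finsetProd fun i _ => colJ_cc_diff.sub_const _

theorem colJ_GCD_ne {n0 p q : ℕ} {α ρ : ℕ → ℝ} (h : Good n0 p q α ρ) {x : ℂ}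
    (hx : x ∈ Metric.closedBall (2 : ℂ) (1 / 2)) : GCD q ρ (π / 6) x ≠ 0 := by
  unfold GCD
  refine mul_ne_zero (fac6 hx (by rw [sub_self, abs_zero]; norm_num)) ?_
  exact prod_ne_zero_iff.2 fun l hl => fac6 hx (h.rho l (mem_range.1 hl)).1

/-- sum of the columns = contour integral in `x` around `2` -/
theorem col_sum (n0 p q : ℕ) {α ρ : ℕ → ℝ} (h : Good n0 p q α ρ) :
    (∑ i ∈ range (2 * p), GN (n0 + p) (p + q) (bc (n0 + p) n0 q α ρ) (π / 6) ((α (2 * n0 + 1 + i) + π / 3 : ℝ) : ℂ) /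
        GD (n0 + p) (bc (n0 + p) n0 q α ρ) (π / 6) ((α (2 * n0 + 1 + i) + π / 3 : ℝ) : ℂ) /
        (∏ l ∈ (range (2 * (p + q) + 1)).erase (2 * q + 1 + i),
          (((Xm (bc (n0 + p) n0 q α ρ (2 * (n0 + p) + 1 + l)) : ℝ) : ℂ) - ((Xm (α (2 * n0 + 1 + i) + π / 3) : ℝ) : ℂ)))) *
        Chi (2 * (n0 + q) + 3) (sS n0 (b1 n0 α ρ) (π / 6)) =
      -(Chi (2 * (n0 + p + (p + q)) + 3) (sS (n0 + p) (bc (n0 + p) n0 q α ρ) (π / 6)) *
        ((2 * π * Complex.I : ℂ)⁻¹ * ∮ x in C(2, 1 / 2), GC n0 p q α ρ (π / 6) x)) := by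
  have hα : ∀ i < 2 * (n0 + p) + 1, |α i| < 1 / 100 := fun i hi => by
    rw [abs_of_pos (h.al i hi).1]
    exact (h.al i hi).2
  have hpi := Real.pi_gt_three
  have key := lag_inj (range (2 * (n0 + p) + 1)) (c := (2 : ℂ)) (R := 1 / 2) (by norm_num)
    (z := fun i => ((X0 (α i) : ℝ) : ℂ)) (fun i hi => node2 (hα i (mem_range.1 hi))) cc_hasDerivAt
    (fun w hw w' hw' hh => cc_inj hw hw' hh) (fun w hw => cc_der_ne hw)
    (fun i hi j hj hij he => by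
      have h1 : X0 (α i) = X0 (α j) := Complex.ofReal_injective he
      unfold X0 at h1
      have h2 : Real.cos (2 * α i) = Real.cos (2 * α j) := by linarith
      have hai := h.al i (mem_range.1 hi)
      have haj := h.al j (mem_range.1 hj)
      have h3 := Real.injOn_cos (Set.mem_Icc.2 ⟨by linarith [hai.1], by linarith [hai.2]⟩)
        (Set.mem_Icc.2 ⟨by linarith [haj.1], by linarith [haj.2]⟩) h2
      exact h.al_inj i (mem_range.1 hi) j (mem_range.1 hj) hij (by linarith))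
    (G := fun x => GCN n0 p q α ρ (π / 6) x / GCD q ρ (π / 6) x)
    ((colJ_GCN_diff n0 p q α ρ _).differentiableOn.div (colJ_GCD_diff q ρ _).differentiableOn
      fun x hx => colJ_GCD_ne h hx)
  have hint : (∮ x in C(2, 1 / 2), GC n0 p q α ρ (π / 6) x) = ∮ w in C(2, 1 / 2),
      (fun x => GCN n0 p q α ρ (π / 6) x / GCD q ρ (π / 6) x) w * (-(3 * w ^ 2 - 3)) /
        ∏ i ∈ range (2 * (n0 + p) + 1), (cc ((X0 (α i) : ℝ) : ℂ) - cc w) := by
    congr 1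
    funext x
    have h1 : ∏ i ∈ range (2 * (n0 + p) + 1), (cc ((X0 (α i) : ℝ) : ℂ) - cc x) =
        -∏ i ∈ range (2 * (n0 + p) + 1), (cc x - cc ((X0 (α i) : ℝ) : ℂ)) := by
      have h2 : ∀ i ∈ range (2 * (n0 + p) + 1), cc ((X0 (α i) : ℝ) : ℂ) - cc x =
          (-1) * (cc x - cc ((X0 (α i) : ℝ) : ℂ)) := fun i _ => by ring
      rw [prod_congr rfl h2, prod_mul_distrib, prod_const, card_range, pow_succ, pow_mul]
      norm_num
    rw [h1, div_neg, mul_neg, neg_div, neg_neg]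
    rfl
  rw [hint, key, sum_mul]
  have hsplit : range (2 * (n0 + p) + 1) = range (2 * n0 + 1) ∪ Ico (2 * n0 + 1) (2 * (n0 + p) + 1) := by
    ext x
    simp only [mem_union, mem_range, mem_Ico]
    omega
  have hdisj : Disjoint (range (2 * n0 + 1)) (Ico (2 * n0 + 1) (2 * (n0 + p) + 1)) := by
    rw [disjoint_left]
    intro x hx hx'
    have h3 := mem_range.1 hx
    have h4 := mem_Ico.1 hx'
    omega
  have hsum : ∀ F : ℕ → ℂ, (∀ j < 2 * n0 + 1, F j = 0) →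
      ∑ j ∈ range (2 * (n0 + p) + 1), F j = ∑ i ∈ range (2 * p), F (2 * n0 + 1 + i) := by
    intro F hF
    rw [hsplit, sum_union hdisj, sum_eq_zero (fun j hj => hF j (mem_range.1 hj)), zero_add, sum_Ico_eq_sum_range,
      show 2 * (n0 + p) + 1 - (2 * n0 + 1) = 2 * p by omega]
  rw [hsum (fun j => (fun x => GCN n0 p q α ρ (π / 6) x / GCD q ρ (π / 6) x) ((X0 (α j) : ℝ) : ℂ) /
      ∏ i ∈ (range (2 * (n0 + p) + 1)).erase j, (cc ((X0 (α i) : ℝ) : ℂ) - cc ((X0 (α j) : ℝ) : ℂ)))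
    (fun j hj => by
      show GCN n0 p q α ρ (π / 6) ((X0 (α j) : ℝ) : ℂ) / GCD q ρ (π / 6) ((X0 (α j) : ℝ) : ℂ) / _ = 0
      rw [col_zero n0 p q α ρ hj, zero_div, zero_div]), mul_sum, ← sum_neg_distrib]
  exact sum_congr rfl fun i hi => col_term n0 p q h (mem_range.1 hi)
end IP.Junc
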