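import Pool.Agent.Helper80.J.HomDefs
/-! MODULE TERM: the terms of `RF` by the wheel relation (both cases).
`(B ∖ s)⁺ ∪ {s⁻, s⁺}` and `(S ∖ s) ∪ {x_s, s⁻}` are in wheel position (`ch_wheel`): for `s ∈ B`, `S = A ∪ B ∪ y`,
`ch (s⁻ ::ₘ B⁺) = ∏_{t ≠ s} (t⁺ - x_s) * ch ((B∖s)⁺)`, `ch (s⁻ ::ₘ S) = ∏_{t ∈ S∖s} (x_t - s⁺) * ch (S∖s)`; the number of `t ≠ s` is even. -/
namespace IP.Junc
open IP IP.Slit Finset

theorem tj_xc (z : ℝ) : xc (z : ℂ) = ((X0 z : ℝ) : ℂ) := by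
  unfold xc X0
  push_cast
  rfl
theorem tj_xmc (z : ℝ) : xmc (z : ℂ) = ((Xm z : ℝ) : ℂ) := by
  unfold xmc Xm
  push_cast
  rfl
theorem tj_xpc (z : ℝ) : xpc (z : ℂ) = ((Xp z : ℝ) : ℂ) := by
  unfold xpc Xp
  push_cast
  rfl

theorem tj_CH (r : ℕ) (f : ℕ → ℝ) (x : ℝ) :
    CH r (fun i => ((f i : ℝ) : ℂ)) (x : ℂ) = ((ch (x ::ₘ (range r).val.map f) : ℝ) : ℂ) := by
  have h1 : (x ::ₘ (range r).val.map f) = (range (r + 1)).val.map (Function.update f r x) := by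
    rw [Finset.range_val, Finset.range_val, Multiset.range_succ, Multiset.map_cons, Function.update_self]
    congr 1
    refine Multiset.map_congr rfl fun i hi => ?_
    rw [Function.update_of_ne (by rw [Multiset.mem_range] at hi; omega)]
  rw [h1, ch_range, ← Chi_ofReal]
  unfold CH
  refine Chi_congr fun i _ => ?_
  by_cases hi : i = r
  · subst hi; simp
  · simp [hi]

theorem tj_SB (p q : ℕ) (b : ℕ → ℝ) : SB p q b = (range q).image fun j => b (p + j) := by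
  unfold SB
  ext x
  simp only [mem_image, mem_Ico, mem_range]
  constructor
  · rintro ⟨i, ⟨h1, h2⟩, rfl⟩
    exact ⟨i - p, by omega, by rw [Nat.add_sub_cancel' h1]⟩
  · rintro ⟨j, h1, rfl⟩
    exact ⟨p + j, ⟨by omega, by omega⟩, rfl⟩

theorem tj_S (p : ℕ) (y : ℝ) (b : ℕ → ℝ) (f : ℝ → ℝ) (q : ℕ) :
    (range (p + 1 + q)).val.map (fun i => f (ins1 p y b i)) =
      f y ::ₘ ((range p).val.map (fun i => f (b i)) + (range q).val.map (fun j => f (b (p + j)))) := by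
  induction q with
  | zero =>
    rw [Nat.add_zero, Finset.range_val, Multiset.range_succ, Multiset.map_cons]
    have h1 : ins1 p y b p = y := by simp [ins1]
    rw [h1, Finset.range_val, Finset.range_val, Multiset.range_zero, Multiset.map_zero, add_zero]
    congr 1
    refine Multiset.map_congr rfl fun i hi => ?_
    rw [Multiset.mem_range] at hi
    simp [ins1, hi]
  | succ q ih =>
    rw [← add_assoc, Finset.range_val, Multiset.range_succ, Multiset.map_cons, ← Finset.range_val, ih, Finset.range_val,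
      Finset.range_val, Finset.range_val, Multiset.range_succ q, Multiset.map_cons, Multiset.add_cons]
    have h1 : ins1 p y b (p + 1 + q) = b (p + q) := by
      unfold ins1
      rw [if_neg (by omega), if_neg (by omega), show p + 1 + q - 1 = p + q by omega]
    rw [h1, Multiset.cons_swap]

theorem RF_term (m k : ℕ) {b : ℕ → ℝ} {y : ℝ}
    (hinj : ∀ i < 2 * m + 2 * k + 2, ∀ j < 2 * m + 2 * k + 2, i ≠ j → b i ≠ b j)
    (hw : ∀ j < 2 * k + 1, X0 (b (2 * m + 1 + j)) ≠ Xm (b (2 * m + 1 + j)) ∧ Xp (b (2 * m + 1 + j)) ≠ Xm (b (2 * m + 1 + j)))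
    (hA : ∀ i < 2 * m + 1, ∀ j < 2 * k + 1, X0 (b i) ≠ Xp (b (2 * m + 1 + j)))
    (hy : ∀ j < 2 * k + 1, X0 y ≠ Xp (b (2 * m + 1 + j))) :
    ((RF (SA (2 * m + 1) b) (SB (2 * m + 1) (2 * k + 1) b) y : ℝ) : ℂ) =
      ∑ j ∈ range (2 * k + 1), GN m k b y (b (2 * m + 1 + j)) / GD m b y (b (2 * m + 1 + j)) /
        ∏ l ∈ (range (2 * k + 1)).erase j, (((Xm (b (2 * m + 1 + l)) : ℝ) : ℂ) - ((Xm (b (2 * m + 1 + j)) : ℝ) : ℂ)) := by
  set B := SB (2 * m + 1) (2 * k + 1) b with hB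
  set A := SA (2 * m + 1) b with hAA
  have hBi : B = (range (2 * k + 1)).image fun j => b (2 * m + 1 + j) := tj_SB _ _ _
  have hAi : Set.InjOn b (range (2 * m + 1) : Finset ℕ) := by
    intro i hi j hj h
    rw [mem_coe, mem_range] at hi hj
    by_contra hij
    exact hinj i (by omega) j (by omega) hij h
  have hBinj : Set.InjOn (fun j => b (2 * m + 1 + j)) (range (2 * k + 1) : Finset ℕ) := by
    intro i hi j hj h
    rw [mem_coe, mem_range] at hi hj
    by_contra hij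
    exact hinj (2 * m + 1 + i) (by omega) (2 * m + 1 + j) (by omega) (by omega) h
  have hAval : ∀ f : ℝ → ℝ, (range (2 * m + 1)).val.map (fun i => f (b i)) = A.val.map f := by
    intro f
    rw [hAA]
    unfold SA
    rw [image_val_of_injOn hAi, Multiset.map_map]
    rfl
  have hBval : ∀ f : ℝ → ℝ, (range (2 * k + 1)).val.map (fun j => f (b (2 * m + 1 + j))) = B.val.map f := by
    intro f
    rw [hBi, image_val_of_injOn hBinj, Multiset.map_map]
    rfl
  have hBc : B.card = 2 * k + 1 := by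
    rw [hBi, card_image_of_injOn hBinj, card_range]
  unfold RF
  conv_lhs => rw [hBi, sum_image hBinj]
  rw [← hBi]
  push_cast
  refine sum_congr rfl fun j hj => ?_
  have hj' := mem_range.1 hj
  obtain ⟨hw1, hw2⟩ := hw j hj'
  have hA1 : ∀ a ∈ A, X0 a - Xp (b (2 * m + 1 + j)) ≠ 0 := by
    intro a ha
    obtain ⟨i, hi, rfl⟩ := mem_image.1 ha
    exact sub_ne_zero.2 (hA i (mem_range.1 hi) j hj')
  have hy1 : X0 y - Xp (b (2 * m + 1 + j)) ≠ 0 := sub_ne_zero.2 (hy j hj')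
  have hsB : b (2 * m + 1 + j) ∈ B := by
    rw [hBi]
    exact mem_image.2 ⟨j, hj, rfl⟩
  have hprod : ∀ F : ℝ → ℝ, ∏ l ∈ (range (2 * k + 1)).erase j, F (b (2 * m + 1 + l)) = ∏ t ∈ B.erase (b (2 * m + 1 + j)), F t := by
    intro F
    have e : B.erase (b (2 * m + 1 + j)) = ((range (2 * k + 1)).erase j).image fun l => b (2 * m + 1 + l) := by
      rw [hBi]
      ext x
      simp only [mem_erase, mem_image]
      constructor
      · rintro ⟨h1, l, h2, rfl⟩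
        exact ⟨l, ⟨fun h => h1 (by rw [h]), h2⟩, rfl⟩
      · rintro ⟨l, ⟨h1, h2⟩, rfl⟩
        exact ⟨fun h => h1 (hBinj h2 hj h), l, h2, rfl⟩
    rw [e, prod_image]
    intro x hx z hz h
    exact hBinj (mem_of_mem_erase hx) (mem_of_mem_erase hz) h
  have hprodA : ∏ i ∈ range (2 * m + 1), (X0 (b i) - Xp (b (2 * m + 1 + j))) = ∏ a ∈ A, (X0 a - Xp (b (2 * m + 1 + j))) := by
    rw [hAA]
    unfold SA
    rw [prod_image hAi]
  have hev : Even (B.erase (b (2 * m + 1 + j))).card := by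
    rw [card_erase_of_mem hsB, hBc]
    exact ⟨k, by omega⟩
  -- the three values of `ch`
  have c1 : CH (2 * m + 1) (sA b) (xc (b (2 * m + 1 + j) : ℝ)) = ((ch (X0 (b (2 * m + 1 + j)) ::ₘ A.val.map X0) : ℝ) : ℂ) := by
    rw [tj_xc]
    have := tj_CH (2 * m + 1) (fun i => X0 (b i)) (X0 (b (2 * m + 1 + j)))
    rw [hAval X0] at this
    exact this
  have c2 : CH (2 * k + 1) (sB m b) (xmc (b (2 * m + 1 + j) : ℝ)) =
      (((∏ t ∈ B.erase (b (2 * m + 1 + j)), (X0 (b (2 * m + 1 + j)) - Xp t)) *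
        ch ((B.erase (b (2 * m + 1 + j))).val.map Xp) : ℝ) : ℂ) := by
    rw [tj_xmc]
    have h1 := tj_CH (2 * k + 1) (fun i => Xp (b (2 * m + 1 + i))) (Xm (b (2 * m + 1 + j)))
    rw [hBval Xp, rh_map_erase hsB Xp, ch_wheel (rh_qq_mp _) hw2.symm, rh_prod_map] at h1
    have e : ∀ s, Xp s + Xm (b (2 * m + 1 + j)) + Xp (b (2 * m + 1 + j)) = -(X0 (b (2 * m + 1 + j)) - Xp s) := fun s => by
      have := rh_sum (b (2 * m + 1 + j))
      linarith
    simp only [e] at h1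
    rw [prod_neg, hev.neg_one_pow, one_mul] at h1
    exact h1
  have c3 : CH (2 * (m + k) + 3) (sS m b y) (xmc (b (2 * m + 1 + j) : ℝ)) =
      (((X0 y - Xp (b (2 * m + 1 + j))) * (∏ a ∈ A, (X0 a - Xp (b (2 * m + 1 + j)))) *
        (∏ t ∈ B.erase (b (2 * m + 1 + j)), (X0 t - Xp (b (2 * m + 1 + j)))) *
        ch (X0 y ::ₘ (A.val.map X0 + (B.erase (b (2 * m + 1 + j))).val.map X0)) : ℝ) : ℂ) := by
    rw [tj_xmc]
    have h1 := tj_CH (2 * (m + k) + 3) (fun i => X0 (ins1 (2 * m + 1) y b i)) (Xm (b (2 * m + 1 + j)))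
    rw [show 2 * (m + k) + 3 = 2 * m + 1 + 1 + (2 * k + 1) by ring, tj_S, hAval X0, hBval X0, rh_map_erase hsB X0,
      Multiset.add_cons, Multiset.cons_swap (X0 y), ch_wheel (by rw [rh_qq_comm]; exact rh_qq_m _) hw1.symm, Multiset.map_cons,
      Multiset.prod_cons, Multiset.map_add, Multiset.prod_add, rh_prod_map, rh_prod_map] at h1
    have e : ∀ s, s + Xm (b (2 * m + 1 + j)) + X0 (b (2 * m + 1 + j)) = s - Xp (b (2 * m + 1 + j)) := fun s => by
      have := rh_sum (b (2 * m + 1 + j))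
      linarith
    simp only [e] at h1
    rw [show 2 * (m + k) + 3 = 2 * m + 1 + 1 + (2 * k + 1) by ring]
    rw [← mul_assoc] at h1
    exact h1
  unfold GN GD
  rw [c1, c2, c3, tj_xc, tj_xpc]
  have hden : (∏ l ∈ (range (2 * k + 1)).erase j, (((Xm (b (2 * m + 1 + l)) : ℝ) : ℂ) - ((Xm (b (2 * m + 1 + j)) : ℝ) : ℂ))) =
      (((∏ t ∈ B.erase (b (2 * m + 1 + j)), (Xm t - Xm (b (2 * m + 1 + j)))) : ℝ) : ℂ) := by
    rw [← hprod fun t => Xm t - Xm (b (2 * m + 1 + j))]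
    push_cast
    rfl
  have hden2 : (∏ i ∈ range (2 * m + 1), (((X0 (b i) : ℝ) : ℂ) - ((Xp (b (2 * m + 1 + j)) : ℝ) : ℂ))) =
      (((∏ a ∈ A, (X0 a - Xp (b (2 * m + 1 + j)))) : ℝ) : ℂ) := by
    rw [← hprodA]
    push_cast
    rfl
  rw [hden, hden2]
  have hPA : (∏ a ∈ A, (X0 a - Xp (b (2 * m + 1 + j)))) ≠ 0 := prod_ne_zero_iff.2 hA1
  norm_cast
  unfold wt
  rw [prod_div_distrib, prod_mul_distrib]
  generalize ∏ a ∈ A, (X0 a - Xp (b (2 * m + 1 + j))) = PA at *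
  generalize (∏ t ∈ B.erase (b (2 * m + 1 + j)), (Xm t - Xm (b (2 * m + 1 + j)))) = D
  generalize (∏ t ∈ B.erase (b (2 * m + 1 + j)), (X0 (b (2 * m + 1 + j)) - Xp t)) = E
  generalize (∏ t ∈ B.erase (b (2 * m + 1 + j)), (X0 t - Xp (b (2 * m + 1 + j)))) = F
  rw [div_div, mul_assoc, mul_assoc, mul_div_assoc', eq_comm]
  field_simp
end IP.Junc
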