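import Pool.Agent.Helper80.J.PairJ
import Pool.Agent.Helper80.J.TermJ
import Pool.Agent.Helper80.J.LagJ
import Pool.Agent.Helper80.J.ColJ
/-! MODULE ROW (second case): the terms of the rows in `RF_term` = contour integral around `π/6` (`lag_inj`, `pair_CH`), and
the whole sum.  (proved by helper32) -/
namespace IP.Junc
open IP IP.Slit Finset Real

theorem rowJ_CH_diff (r : ℕ) (s : ℕ → ℂ) : Differentiable ℂ (CH r s) := by
  obtain ⟨P, _, hP⟩ := Chi_poly (K := ℂ) (Nat.lt_succ_self r) s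
  have h : CH r s = fun x => P.eval x := funext hP
  rw [h]
  exact P.differentiable

theorem rowJ_CH_congr {r : ℕ} {s t : ℕ → ℂ} (h : ∀ i < r, s i = t i) (x : ℂ) : CH r s x = CH r t x := by
  unfold CH
  refine Chi_congr fun i hi => ?_
  by_cases h1 : i = r
  · rw [h1, Function.update_self, Function.update_self]
  · rw [Function.update_of_ne h1, Function.update_of_ne h1, h i (by omega)]

theorem rowJ_X0_Xp (a b : ℝ) : X0 a - Xp b = 4 * (Real.sin (a + b + π / 3) * Real.sin (b + π / 3 - a)) := by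
  unfold X0 Xp
  have h := Real.cos_sub_cos (2 * a) (2 * b + 2 * π / 3)
  rw [show (2 * a + (2 * b + 2 * π / 3)) / 2 = a + b + π / 3 by ring,
    show (2 * a - (2 * b + 2 * π / 3)) / 2 = -(b + π / 3 - a) by ring, Real.sin_neg] at h
  linear_combination 2 * h

theorem rowJ_X0_Xm (b : ℝ) : X0 b - Xm b = -(4 * (Real.sin (2 * b - π / 3) * Real.sin (π / 3))) := by
  unfold X0 Xm
  have h := Real.cos_sub_cos (2 * b) (2 * b - 2 * π / 3)
  rw [show (2 * b + (2 * b - 2 * π / 3)) / 2 = 2 * b - π / 3 by ring,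
    show (2 * b - (2 * b - 2 * π / 3)) / 2 = π / 3 by ring] at h
  linear_combination 2 * h

theorem rowJ_Xp_Xm (b : ℝ) : Xp b - Xm b = -(4 * (Real.sin (2 * b) * Real.sin (2 * π / 3))) := by
  unfold Xp Xm
  have h := Real.cos_sub_cos (2 * b + 2 * π / 3) (2 * b - 2 * π / 3)
  rw [show (2 * b + 2 * π / 3 + (2 * b - 2 * π / 3)) / 2 = 2 * b by ring,
    show (2 * b + 2 * π / 3 - (2 * b - 2 * π / 3)) / 2 = 2 * π / 3 by ring] at h
  linear_combination 2 * h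

theorem rowJ_Xm_third (a : ℝ) : Xm (a + π / 3) = X0 a := by
  unfold Xm X0
  rw [show 2 * (a + π / 3) - 2 * π / 3 = 2 * a by ring]

theorem rowJ_sin_ne {x : ℝ} (h1 : 0 < x) (h2 : x < π) : Real.sin x ≠ 0 :=
  (Real.sin_pos_of_pos_of_lt_pi h1 h2).ne'

theorem rowJ_alpha_ne {a : ℝ} (h : 0 < a ∧ a < 1 / 100) : X0 a ≠ Xp a := by
  have hpi := Real.pi_gt_three
  intro h1
  have h2 := rowJ_X0_Xp a a
  rw [h1, sub_self] at h2
  have h3 : Real.sin (a + a + π / 3) ≠ 0 := rowJ_sin_ne (by linarith [h.1]) (by linarith [h.2])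
  have h4 : Real.sin (a + π / 3 - a) ≠ 0 := rowJ_sin_ne (by linarith [h.1]) (by linarith [h.2])
  exact (mul_ne_zero (by norm_num) (mul_ne_zero h3 h4)) h2.symm

theorem rowJ_bc_lo {m n0 q : ℕ} {α ρ : ℕ → ℝ} {j : ℕ} (h : j < 2 * m + 1) : bc m n0 q α ρ j = α j := by
  unfold bc
  rw [if_pos h]

theorem rowJ_bc_mid {m n0 q : ℕ} {α ρ : ℕ → ℝ} {j : ℕ} (h : j < 2 * q + 1) : bc m n0 q α ρ (2 * m + 1 + j) = ρ j := by
  unfold bc
  rw [if_neg (by omega), if_pos (by omega), Nat.add_sub_cancel_left]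

theorem rowJ_bc_hi {m n0 q : ℕ} {α ρ : ℕ → ℝ} (i : ℕ) :
    bc m n0 q α ρ (2 * m + 1 + (2 * q + 1 + i)) = α (2 * n0 + 1 + i) + π / 3 := by
  unfold bc
  rw [if_neg (by omega), if_neg (by omega)]
  congr 3
  omega

/-- the function of the contour integral -/
noncomputable def rowG (n0 p q : ℕ) (α ρ : ℕ → ℝ) (y : ℝ) (z : ℂ) : ℂ :=
  (xc z - ((Xp y : ℝ) : ℂ)) * CH (2 * (n0 + p) + 1) (sA α) (xc z) *
    CH (2 * (p + q) + 1) (sB (n0 + p) (bc (n0 + p) n0 q α ρ)) (xmc z) *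
    CH (2 * (n0 + q) + 3) (sS n0 (b1 n0 α ρ) y) (xmc z) *
    (∏ k ∈ Ico (2 * n0 + 1) (2 * (n0 + p) + 1), (xmc z - ((Xm (α k) : ℝ) : ℂ))) /
    ((((X0 y : ℝ) : ℂ) - xpc z) * (∏ i ∈ range (2 * (n0 + p) + 1), (((X0 (α i) : ℝ) : ℂ) - xpc z)) *
      (∏ k ∈ Ico (2 * n0 + 1) (2 * (n0 + p) + 1), (((X0 (α k) : ℝ) : ℂ) - xmc z)))

theorem rowJ_xc_diff : Differentiable ℂ xc := by
  intro z
  unfold xc
  fun_prop
theorem rowJ_xpc_diff : Differentiable ℂ xpc := by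
  intro z
  unfold xpc
  fun_prop
theorem rowJ_xmc_diff : Differentiable ℂ xmc := fun z => (xmc_hasDerivAt z).differentiableAt

theorem rowJ_prod_diff {s : Finset ℕ} {f : ℕ → ℂ → ℂ} (h : ∀ i ∈ s, Differentiable ℂ (f i)) :
    Differentiable ℂ (fun z => ∏ i ∈ s, f i z) := by
  classical
  induction s using Finset.induction_on with
  | empty => simp
  | insert a s ha ih =>
    have h1 : (fun z => ∏ i ∈ insert a s, f i z) = fun z => f a z * ∏ i ∈ s, f i z := by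
      funext z
      rw [prod_insert ha]
    rw [h1]
    exact (h a (mem_insert_self _ _)).mul (ih fun i hi => h i (mem_insert_of_mem hi))

theorem rowG_diff {n0 p q : ℕ} {α ρ : ℕ → ℝ} (h : Good n0 p q α ρ) :
    DifferentiableOn ℂ (rowG n0 p q α ρ (π / 6)) (Metric.closedBall ((π / 6 : ℝ) : ℂ) (1 / 10)) := by
  have hα : ∀ i < 2 * (n0 + p) + 1, |α i| < 1 / 100 := fun i hi => by
    rw [abs_of_pos (h.al i hi).1]
    exact (h.al i hi).2
  unfold rowG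
  refine DifferentiableOn.div ?_ ?_ ?_
  · refine Differentiable.differentiableOn ?_
    refine ((((rowJ_xc_diff.sub_const _).mul ((rowJ_CH_diff _ _).comp rowJ_xc_diff)).mul
      ((rowJ_CH_diff _ _).comp rowJ_xmc_diff)).mul ((rowJ_CH_diff _ _).comp rowJ_xmc_diff)).mul ?_
    exact rowJ_prod_diff fun i _ => rowJ_xmc_diff.sub_const _
  · refine Differentiable.differentiableOn ?_
    refine (((differentiable_const _).sub rowJ_xpc_diff).mul ?_).mul ?_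
    · exact rowJ_prod_diff fun i _ => (differentiable_const _).sub rowJ_xpc_diff
    · exact rowJ_prod_diff fun i _ => (differentiable_const _).sub rowJ_xmc_diff
  · intro z hz
    refine mul_ne_zero (mul_ne_zero (fac2 (Or.inr rfl) hz) ?_) ?_
    · exact prod_ne_zero_iff.2 fun i hi => fac1 (Or.inr rfl) hz (hα i (mem_range.1 hi))
    · exact prod_ne_zero_iff.2 fun i hi => fac5 hz (hα i (mem_Ico.1 hi).2)

theorem row_term {n0 p q : ℕ} {α ρ : ℕ → ℝ} (h : Good n0 p q α ρ) {j : ℕ} (hj : j < 2 * q + 1) :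
    GN (n0 + p) (p + q) (bc (n0 + p) n0 q α ρ) (π / 6) ((ρ j : ℝ) : ℂ) /
        GD (n0 + p) (bc (n0 + p) n0 q α ρ) (π / 6) ((ρ j : ℝ) : ℂ) /
        (∏ l ∈ (range (2 * (p + q) + 1)).erase j,
          (((Xm (bc (n0 + p) n0 q α ρ (2 * (n0 + p) + 1 + l)) : ℝ) : ℂ) - ((Xm (ρ j) : ℝ) : ℂ))) *
        Chi (2 * (n0 + q) + 3) (sS n0 (b1 n0 α ρ) (π / 6)) =
      Chi (2 * (n0 + p + (p + q)) + 3) (sS (n0 + p) (bc (n0 + p) n0 q α ρ) (π / 6)) *
        (rowG n0 p q α ρ (π / 6) ((ρ j : ℝ) : ℂ) /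
          ∏ l ∈ (range (2 * q + 1)).erase j, (xmc ((ρ l : ℝ) : ℂ) - xmc ((ρ j : ℝ) : ℂ))) := by
  have h1 : (∏ l ∈ (range (2 * (p + q) + 1)).erase j,
      (((Xm (bc (n0 + p) n0 q α ρ (2 * (n0 + p) + 1 + l)) : ℝ) : ℂ) - ((Xm (ρ j) : ℝ) : ℂ))) =
      (∏ l ∈ (range (2 * q + 1)).erase j, (xmc ((ρ l : ℝ) : ℂ) - xmc ((ρ j : ℝ) : ℂ))) *
        ∏ k ∈ Ico (2 * n0 + 1) (2 * (n0 + p) + 1), (((X0 (α k) : ℝ) : ℂ) - xmc ((ρ j : ℝ) : ℂ)) := by
    have e1 : (range (2 * (p + q) + 1)).erase j = (range (2 * q + 1)).erase j ∪ Ico (2 * q + 1) (2 * (p + q) + 1) := by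
      ext x
      simp only [mem_erase, mem_union, mem_range, mem_Ico]
      omega
    have e2 : Disjoint ((range (2 * q + 1)).erase j) (Ico (2 * q + 1) (2 * (p + q) + 1)) := by
      rw [disjoint_left]
      intro x hx hx'
      have h3 := mem_range.1 (mem_of_mem_erase hx)
      have h4 := mem_Ico.1 hx'
      omega
    rw [e1, prod_union e2]
    congr 1
    · refine prod_congr rfl fun l hl => ?_
      rw [rowJ_bc_mid (mem_range.1 (mem_of_mem_erase hl)), xmc_ofReal, xmc_ofReal]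
    · rw [prod_Ico_eq_prod_range, prod_Ico_eq_prod_range,
        show 2 * (p + q) + 1 - (2 * q + 1) = 2 * p by omega, show 2 * (n0 + p) + 1 - (2 * n0 + 1) = 2 * p by omega]
      refine prod_congr rfl fun i _ => ?_
      rw [rowJ_bc_hi, rowJ_Xm_third, xmc_ofReal]
  have h2 := pair_CH n0 p q (α := α) (ρ := ρ) (fun k hk => rowJ_alpha_ne (h.al k hk)) (π / 6) (xmc ((ρ j : ℝ) : ℂ))
  have h3 : GD (n0 + p) (bc (n0 + p) n0 q α ρ) (π / 6) ((ρ j : ℝ) : ℂ) =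
      (((X0 (π / 6) : ℝ) : ℂ) - xpc ((ρ j : ℝ) : ℂ)) *
        ∏ i ∈ range (2 * (n0 + p) + 1), (((X0 (α i) : ℝ) : ℂ) - xpc ((ρ j : ℝ) : ℂ)) := by
    unfold GD
    congr 1
    refine prod_congr rfl fun i hi => ?_
    rw [rowJ_bc_lo (mem_range.1 hi)]
  have h4 : CH (2 * (n0 + p) + 1) (sA (bc (n0 + p) n0 q α ρ)) (xc ((ρ j : ℝ) : ℂ)) =
      CH (2 * (n0 + p) + 1) (sA α) (xc ((ρ j : ℝ) : ℂ)) := by
    refine rowJ_CH_congr (fun i hi => ?_) _
    unfold sA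
    rw [rowJ_bc_lo hi]
  rw [h1, h3]
  unfold GN rowG
  rw [h4]
  generalize CH (2 * (n0 + p + (p + q)) + 3) (sS (n0 + p) (bc (n0 + p) n0 q α ρ) (π / 6)) (xmc ((ρ j : ℝ) : ℂ)) = A at h2 ⊢
  generalize Chi (2 * (n0 + q) + 3) (sS n0 (b1 n0 α ρ) (π / 6)) = B at h2 ⊢
  generalize Chi (2 * (n0 + p + (p + q)) + 3) (sS (n0 + p) (bc (n0 + p) n0 q α ρ) (π / 6)) = C at h2 ⊢
  generalize CH (2 * (n0 + q) + 3) (sS n0 (b1 n0 α ρ) (π / 6)) (xmc ((ρ j : ℝ) : ℂ)) = D at h2 ⊢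
  generalize (∏ k ∈ Ico (2 * n0 + 1) (2 * (n0 + p) + 1), (xmc ((ρ j : ℝ) : ℂ) - ((Xm (α k) : ℝ) : ℂ))) = E at h2 ⊢
  generalize (xc ((ρ j : ℝ) : ℂ) - ((Xp (π / 6) : ℝ) : ℂ)) = a1
  generalize CH (2 * (n0 + p) + 1) (sA α) (xc ((ρ j : ℝ) : ℂ)) = a2
  generalize CH (2 * (p + q) + 1) (sB (n0 + p) (bc (n0 + p) n0 q α ρ)) (xmc ((ρ j : ℝ) : ℂ)) = a3
  generalize (((X0 (π / 6) : ℝ) : ℂ) - xpc ((ρ j : ℝ) : ℂ)) = d1
  generalize (∏ i ∈ range (2 * (n0 + p) + 1), (((X0 (α i) : ℝ) : ℂ) - xpc ((ρ j : ℝ) : ℂ))) = d2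
  generalize (∏ l ∈ (range (2 * q + 1)).erase j, (xmc ((ρ l : ℝ) : ℂ) - xmc ((ρ j : ℝ) : ℂ))) = d3
  generalize (∏ k ∈ Ico (2 * n0 + 1) (2 * (n0 + p) + 1), (((X0 (α k) : ℝ) : ℂ) - xmc ((ρ j : ℝ) : ℂ))) = d4
  calc a1 * a2 * a3 * A / (d1 * d2) / (d3 * d4) * B = a1 * a2 * a3 * (A * B) / (d1 * d2) / (d3 * d4) := by ring
    _ = a1 * a2 * a3 * (C * E * D) / (d1 * d2) / (d3 * d4) := by rw [h2]
    _ = C * (a1 * a2 * a3 * D * E / (d1 * d2 * d4) / d3) := by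
      simp only [div_eq_mul_inv, mul_inv]
      ring

theorem row_sum (n0 p q : ℕ) {α ρ : ℕ → ℝ} (h : Good n0 p q α ρ) :
    (∑ j ∈ range (2 * q + 1), GN (n0 + p) (p + q) (bc (n0 + p) n0 q α ρ) (π / 6) ((ρ j : ℝ) : ℂ) /
        GD (n0 + p) (bc (n0 + p) n0 q α ρ) (π / 6) ((ρ j : ℝ) : ℂ) /
        (∏ l ∈ (range (2 * (p + q) + 1)).erase j,
          (((Xm (bc (n0 + p) n0 q α ρ (2 * (n0 + p) + 1 + l)) : ℝ) : ℂ) - ((Xm (ρ j) : ℝ) : ℂ)))) *
        Chi (2 * (n0 + q) + 3) (sS n0 (b1 n0 α ρ) (π / 6)) =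
      Chi (2 * (n0 + p + (p + q)) + 3) (sS (n0 + p) (bc (n0 + p) n0 q α ρ) (π / 6)) *
        ((2 * π * Complex.I : ℂ)⁻¹ * ∮ z in C(((π / 6 : ℝ) : ℂ), 1 / 10), GR n0 p q α ρ (π / 6) z) := by
  have h1 := lag_inj (range (2 * q + 1)) (c := ((π / 6 : ℝ) : ℂ)) (R := 1 / 10) (by norm_num)
    (z := fun i => ((ρ i : ℝ) : ℂ)) (fun i hi => node6 (h.rho i (mem_range.1 hi)).1) xmc_hasDerivAt
    (fun w hw w' hw' => xmc_inj (Or.inr rfl) hw hw') (fun w hw => xmd_ne (Or.inr rfl) hw)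
    (fun i hi j hj hij he => h.rho_inj i (mem_range.1 hi) j (mem_range.1 hj) hij (Complex.ofReal_injective he))
    (rowG_diff h)
  have h2 : (∮ z in C(((π / 6 : ℝ) : ℂ), 1 / 10), GR n0 p q α ρ (π / 6) z) =
      ∮ w in C(((π / 6 : ℝ) : ℂ), 1 / 10), rowG n0 p q α ρ (π / 6) w * (-xmd w) /
        ∏ i ∈ range (2 * q + 1), (xmc ((ρ i : ℝ) : ℂ) - xmc w) := by
    congr 1
    funext z
    unfold GR rowG
    simp only [xmc_ofReal]
    simp only [div_eq_mul_inv, mul_inv]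
    ring
  rw [h2, h1, sum_mul, mul_sum]
  exact sum_congr rfl fun j hj => row_term h (mem_range.1 hj)

theorem RF_gt (n0 p q : ℕ) {α ρ : ℕ → ℝ} (h : Good n0 p q α ρ) :
    ((RF (SA (2 * (n0 + p) + 1) (bc (n0 + p) n0 q α ρ)) (SB (2 * (n0 + p) + 1) (2 * (p + q) + 1) (bc (n0 + p) n0 q α ρ))
        (π / 6) : ℝ) : ℂ) * Chi (2 * (n0 + q) + 3) (sS n0 (b1 n0 α ρ) (π / 6)) =
      Chi (2 * (n0 + p + (p + q)) + 3) (sS (n0 + p) (bc (n0 + p) n0 q α ρ) (π / 6)) *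
        ((2 * π * Complex.I : ℂ)⁻¹ * ((∮ z in C(((π / 6 : ℝ) : ℂ), 1 / 10), GR n0 p q α ρ (π / 6) z) -
          ∮ x in C(2, 1 / 2), GC n0 p q α ρ (π / 6) x)) := by
  have hpi := Real.pi_gt_three
  -- the values of `bc`
  have v0 : ∀ i < 2 * (n0 + p) + 1, bc (n0 + p) n0 q α ρ i = α i ∧ 0 < α i ∧ α i < 1 / 100 :=
    fun i hi => ⟨rowJ_bc_lo hi, h.al i hi⟩
  have v1 : ∀ j < 2 * (p + q) + 1, (j < 2 * q + 1 ∧ bc (n0 + p) n0 q α ρ (2 * (n0 + p) + 1 + j) = ρ j) ∨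
      (∃ i < 2 * p, j = 2 * q + 1 + i ∧ bc (n0 + p) n0 q α ρ (2 * (n0 + p) + 1 + j) = α (2 * n0 + 1 + i) + π / 3) := by
    intro j hj
    by_cases h1 : j < 2 * q + 1
    · exact Or.inl ⟨h1, rowJ_bc_mid h1⟩
    · refine Or.inr ⟨j - (2 * q + 1), by omega, by omega, ?_⟩
      have h2 := rowJ_bc_hi (m := n0 + p) (n0 := n0) (q := q) (α := α) (ρ := ρ) (j - (2 * q + 1))
      rw [show 2 * (n0 + p) + 1 + (2 * q + 1 + (j - (2 * q + 1))) = 2 * (n0 + p) + 1 + j by omega] at h2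
      exact h2
  have v2 : ∀ j < 2 * (p + q) + 1, (|bc (n0 + p) n0 q α ρ (2 * (n0 + p) + 1 + j) - π / 6| < 1 / 100 ∧
        bc (n0 + p) n0 q α ρ (2 * (n0 + p) + 1 + j) ≠ π / 6) ∨
      (π / 3 < bc (n0 + p) n0 q α ρ (2 * (n0 + p) + 1 + j) ∧ bc (n0 + p) n0 q α ρ (2 * (n0 + p) + 1 + j) < π / 3 + 1 / 100) := by
    intro j hj
    rcases v1 j hj with ⟨h1, h2⟩ | ⟨i, h1, h2, h3⟩
    · rw [h2]
      exact Or.inl (h.rho j h1)
    · rw [h3]
      have h4 := h.al (2 * n0 + 1 + i) (by omega)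
      exact Or.inr ⟨by linarith [h4.1], by linarith [h4.2]⟩
  have hinj : ∀ i < 2 * (n0 + p) + 2 * (p + q) + 2, ∀ j < 2 * (n0 + p) + 2 * (p + q) + 2, i ≠ j →
      bc (n0 + p) n0 q α ρ i ≠ bc (n0 + p) n0 q α ρ j := by
    -- it suffices to consider i < j
    have key : ∀ i j, i < j → j < 2 * (n0 + p) + 2 * (p + q) + 2 → bc (n0 + p) n0 q α ρ i ≠ bc (n0 + p) n0 q α ρ j := by
      intro i j hij hj
      by_cases hj1 : j < 2 * (n0 + p) + 1
      · rw [(v0 i (by omega)).1, (v0 j hj1).1]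
        exact h.al_inj i (by omega) j hj1 (by omega)
      · obtain ⟨j', rfl⟩ : ∃ j', j = 2 * (n0 + p) + 1 + j' := ⟨j - (2 * (n0 + p) + 1), by omega⟩
        have hj' : j' < 2 * (p + q) + 1 := by omega
        by_cases hi1 : i < 2 * (n0 + p) + 1
        · have h2 := v0 i hi1
          intro h3
          rw [h2.1] at h3
          rcases v2 j' hj' with ⟨h4, _⟩ | ⟨h4, h5⟩
          · rw [abs_lt] at h4
            linarith [h4.1, h2.2.2]
          · linarith [h2.2.2]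
        · obtain ⟨i', rfl⟩ : ∃ i', i = 2 * (n0 + p) + 1 + i' := ⟨i - (2 * (n0 + p) + 1), by omega⟩
          have hi' : i' < 2 * (p + q) + 1 := by omega
          rcases v1 i' hi' with ⟨h2, h3⟩ | ⟨i2, h2, h3, h4⟩
          · rcases v1 j' hj' with ⟨h5, h6⟩ | ⟨j2, h5, h6, h7⟩
            · rw [h3, h6]
              exact h.rho_inj i' h2 j' h5 (by omega)
            · rw [h3, h7]
              intro h8
              have h9 := (h.rho i' h2).1
              have h10 := h.al (2 * n0 + 1 + j2) (by omega)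
              rw [abs_lt] at h9
              linarith [h9.2, h10.1]
          · rcases v1 j' hj' with ⟨h5, h6⟩ | ⟨j2, h5, h6, h7⟩
            · omega
            · rw [h4, h7]
              intro h8
              exact h.al_inj (2 * n0 + 1 + i2) (by omega) (2 * n0 + 1 + j2) (by omega) (by omega) (by linarith)
    intro i hi j hj hij
    rcases lt_or_gt_of_ne hij with h1 | h1
    · exact key i j h1 hj
    · exact (key j i h1 hi).symm
  have hs3 : Real.sin (π / 3) ≠ 0 := rowJ_sin_ne (by linarith) (by linarith)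
  have hs23 : Real.sin (2 * π / 3) ≠ 0 := rowJ_sin_ne (by linarith) (by linarith)
  have hw : ∀ j < 2 * (p + q) + 1, X0 (bc (n0 + p) n0 q α ρ (2 * (n0 + p) + 1 + j)) ≠
        Xm (bc (n0 + p) n0 q α ρ (2 * (n0 + p) + 1 + j)) ∧
      Xp (bc (n0 + p) n0 q α ρ (2 * (n0 + p) + 1 + j)) ≠ Xm (bc (n0 + p) n0 q α ρ (2 * (n0 + p) + 1 + j)) := by
    intro j hj
    have h1 := v2 j hj
    generalize bc (n0 + p) n0 q α ρ (2 * (n0 + p) + 1 + j) = b at h1 ⊢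
    constructor
    · intro h2
      have h3 := rowJ_X0_Xm b
      rw [h2, sub_self] at h3
      have h4 : Real.sin (2 * b - π / 3) = 0 := by
        rcases mul_eq_zero.1 (neg_eq_zero.1 h3.symm) with h5 | h5
        · norm_num at h5
        · exact (mul_eq_zero.1 h5).resolve_right hs3
      rcases h1 with ⟨h5, h6⟩ | ⟨h5, h6⟩
      · rw [abs_lt] at h5
        rcases lt_or_gt_of_ne h6 with h7 | h7
        · have h8 : Real.sin (-(2 * b - π / 3)) ≠ 0 := rowJ_sin_ne (by linarith) (by linarith [h5.1])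
          apply h8
          rw [Real.sin_neg, h4, neg_zero]
        · exact rowJ_sin_ne (by linarith) (by linarith [h5.2]) h4
      · exact rowJ_sin_ne (by linarith) (by linarith) h4
    · intro h2
      have h3 := rowJ_Xp_Xm b
      rw [h2, sub_self] at h3
      have h4 : Real.sin (2 * b) = 0 := by
        rcases mul_eq_zero.1 (neg_eq_zero.1 h3.symm) with h5 | h5
        · norm_num at h5
        · exact (mul_eq_zero.1 h5).resolve_right hs23
      rcases h1 with ⟨h5, _⟩ | ⟨h5, h6⟩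
      · rw [abs_lt] at h5
        exact rowJ_sin_ne (by linarith [h5.1]) (by linarith [h5.2]) h4
      · exact rowJ_sin_ne (by linarith) (by linarith) h4
  have hA : ∀ i < 2 * (n0 + p) + 1, ∀ j < 2 * (p + q) + 1,
      X0 (bc (n0 + p) n0 q α ρ i) ≠ Xp (bc (n0 + p) n0 q α ρ (2 * (n0 + p) + 1 + j)) := by
    intro i hi j hj
    have h1 := v2 j hj
    obtain ⟨h2, h3, h4⟩ := v0 i hi
    rw [h2]
    generalize bc (n0 + p) n0 q α ρ (2 * (n0 + p) + 1 + j) = b at h1 ⊢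
    intro h5
    have h6 := rowJ_X0_Xp (α i) b
    rw [h5, sub_self] at h6
    refine (mul_ne_zero (by norm_num) (mul_ne_zero ?_ ?_)) h6.symm
    · rcases h1 with ⟨h7, _⟩ | ⟨h7, h8⟩
      · rw [abs_lt] at h7
        exact rowJ_sin_ne (by linarith [h7.1]) (by linarith [h7.2])
      · exact rowJ_sin_ne (by linarith) (by linarith)
    · rcases h1 with ⟨h7, _⟩ | ⟨h7, h8⟩
      · rw [abs_lt] at h7
        exact rowJ_sin_ne (by linarith [h7.1]) (by linarith [h7.2])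
      · exact rowJ_sin_ne (by linarith) (by linarith)
  have hy : ∀ j < 2 * (p + q) + 1, X0 (π / 6) ≠ Xp (bc (n0 + p) n0 q α ρ (2 * (n0 + p) + 1 + j)) := by
    intro j hj
    have h1 := v2 j hj
    generalize bc (n0 + p) n0 q α ρ (2 * (n0 + p) + 1 + j) = b at h1 ⊢
    intro h5
    have h6 := rowJ_X0_Xp (π / 6) b
    rw [h5, sub_self] at h6
    refine (mul_ne_zero (by norm_num) (mul_ne_zero ?_ ?_)) h6.symm
    · rcases h1 with ⟨h7, _⟩ | ⟨h7, h8⟩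
      · rw [abs_lt] at h7
        exact rowJ_sin_ne (by linarith [h7.1]) (by linarith [h7.2])
      · exact rowJ_sin_ne (by linarith) (by linarith)
    · rcases h1 with ⟨h7, _⟩ | ⟨h7, h8⟩
      · rw [abs_lt] at h7
        exact rowJ_sin_ne (by linarith [h7.1]) (by linarith [h7.2])
      · exact rowJ_sin_ne (by linarith) (by linarith)
  rw [RF_term (n0 + p) (p + q) hinj hw hA hy]
  have hsplit : range (2 * (p + q) + 1) = range (2 * q + 1) ∪ Ico (2 * q + 1) (2 * (p + q) + 1) := by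
    ext x
    simp only [mem_union, mem_range, mem_Ico]
    omega
  have hdisj : Disjoint (range (2 * q + 1)) (Ico (2 * q + 1) (2 * (p + q) + 1)) := by
    rw [disjoint_left]
    intro x hx hx'
    have h3 := mem_range.1 hx
    have h4 := mem_Ico.1 hx'
    omega
  have hsum : (∑ j ∈ range (2 * (p + q) + 1), GN (n0 + p) (p + q) (bc (n0 + p) n0 q α ρ) (π / 6)
          ((bc (n0 + p) n0 q α ρ (2 * (n0 + p) + 1 + j) : ℝ) : ℂ) /
        GD (n0 + p) (bc (n0 + p) n0 q α ρ) (π / 6) ((bc (n0 + p) n0 q α ρ (2 * (n0 + p) + 1 + j) : ℝ) : ℂ) /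
        ∏ l ∈ (range (2 * (p + q) + 1)).erase j, (((Xm (bc (n0 + p) n0 q α ρ (2 * (n0 + p) + 1 + l)) : ℝ) : ℂ) -
          ((Xm (bc (n0 + p) n0 q α ρ (2 * (n0 + p) + 1 + j)) : ℝ) : ℂ))) =
      (∑ j ∈ range (2 * q + 1), GN (n0 + p) (p + q) (bc (n0 + p) n0 q α ρ) (π / 6) ((ρ j : ℝ) : ℂ) /
        GD (n0 + p) (bc (n0 + p) n0 q α ρ) (π / 6) ((ρ j : ℝ) : ℂ) /
        (∏ l ∈ (range (2 * (p + q) + 1)).erase j,
          (((Xm (bc (n0 + p) n0 q α ρ (2 * (n0 + p) + 1 + l)) : ℝ) : ℂ) - ((Xm (ρ j) : ℝ) : ℂ)))) +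
      ∑ i ∈ range (2 * p), GN (n0 + p) (p + q) (bc (n0 + p) n0 q α ρ) (π / 6) ((α (2 * n0 + 1 + i) + π / 3 : ℝ) : ℂ) /
        GD (n0 + p) (bc (n0 + p) n0 q α ρ) (π / 6) ((α (2 * n0 + 1 + i) + π / 3 : ℝ) : ℂ) /
        (∏ l ∈ (range (2 * (p + q) + 1)).erase (2 * q + 1 + i),
          (((Xm (bc (n0 + p) n0 q α ρ (2 * (n0 + p) + 1 + l)) : ℝ) : ℂ) -
            ((Xm (α (2 * n0 + 1 + i) + π / 3) : ℝ) : ℂ))) := by
    conv_lhs => rw [hsplit, sum_union hdisj]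
    rw [← hsplit]
    congr 1
    · refine sum_congr rfl fun j hj => ?_
      rw [rowJ_bc_mid (mem_range.1 hj)]
    · rw [sum_Ico_eq_sum_range, show 2 * (p + q) + 1 - (2 * q + 1) = 2 * p by omega]
      refine sum_congr rfl fun i _ => ?_
      rw [rowJ_bc_hi i]
  rw [hsum, add_mul, row_sum n0 p q h, col_sum n0 p q h]
  ring
end IP.Junc
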