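import Pool.Agent.Helper80.J.Defs
/-! MODULE Cm: `ch`, the symmetric polynomials `Chi` as functions of multisets.  From `Chi_perm`, `Chi_wheel`, `Chi_lead`. -/
namespace IP.Junc
open IP IP.Slit Finset

theorem Cm_perm_aux {l1 l2 : List ℝ} (h : l1.Perm l2) : ∀ p : List ℝ,
    Chi (p ++ l1).length (fun i => (p ++ l1).getD i 0) = Chi (p ++ l2).length (fun i => (p ++ l2).getD i 0) := by
  induction h with
  | nil => intro p; rfl
  | cons x _ ih =>
    intro p
    have := ih (p ++ [x])
    simpa only [List.append_assoc, List.cons_append, List.nil_append] using this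
  | swap x y l =>
    intro p
    have hlen : (p ++ y :: x :: l).length = (p ++ x :: y :: l).length := by simp
    rw [hlen, ← Chi_swap (i := p.length) (by simp) (fun i => (p ++ x :: y :: l).getD i 0)]
    refine Chi_congr fun j _ => ?_
    rcases Nat.lt_or_ge j p.length with h1 | h1
    · rw [Equiv.swap_apply_of_ne_of_ne (by omega) (by omega), List.getD_append _ _ _ _ h1,
        List.getD_append _ _ _ _ h1]
    · obtain ⟨k, rfl⟩ := Nat.exists_eq_add_of_le h1
      match k with
      | 0 =>
        rw [Nat.add_zero, Equiv.swap_apply_left, List.getD_append_right _ _ _ _ (le_refl _),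
          List.getD_append_right _ _ _ _ (by omega)]
        simp
      | 1 =>
        rw [Equiv.swap_apply_right, List.getD_append_right _ _ _ _ (by omega),
          List.getD_append_right _ _ _ _ (by omega)]
        simp
      | k + 2 =>
        rw [Equiv.swap_apply_of_ne_of_ne (by omega) (by omega), List.getD_append_right _ _ _ _ (by omega),
          List.getD_append_right _ _ _ _ (by omega)]
        rw [show p.length + (k + 2) - p.length = k + 2 by omega]
        rfl
  | trans _ _ ih1 ih2 =>
    intro p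
    rw [ih1 p, ih2 p]

/-- any list of the multiset gives the same value -/
theorem ch_coe (l : List ℝ) : ch (l : Multiset ℝ) = Chi l.length (fun i => l.getD i 0) := by
  have h1 : ((l : Multiset ℝ).toList).Perm l := by
    rw [← Multiset.coe_eq_coe, Multiset.coe_toList]
  have h2 := Cm_perm_aux h1 []
  simp only [List.nil_append] at h2
  unfold ch
  rw [← h2, Multiset.length_toList]

theorem ch_range (n : ℕ) (f : ℕ → ℝ) : ch ((range n).val.map f) = Chi n f := by
  have h1 : (range n).val.map f = (((List.range n).map f : List ℝ) : Multiset ℝ) := rfl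
  rw [h1, ch_coe, List.length_map, List.length_range]
  refine Chi_congr fun i hi => ?_
  rw [List.getD_eq_getElem _ _ (by simpa using hi)]
  simp

theorem ch_zero : ch 0 = 1 := by
  unfold ch
  rw [Multiset.card_zero]
  exact Chi_zero _
theorem ch_one (a : ℝ) : ch {a} = 1 := by
  unfold ch
  rw [Multiset.card_singleton]
  exact Chi_one _
theorem ch_two (a b : ℝ) : ch {a, b} = 1 := by
  unfold ch
  rw [Multiset.card_pair]
  exact Chi_two _

theorem Cm_prod_getD (l : List ℝ) (f : ℝ → ℝ) : ∏ i ∈ range l.length, f (l.getD i 0) = (l.map f).prod := by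
  induction l with
  | nil => simp
  | cons a l ih =>
    rw [List.length_cons, prod_range_succ', List.map_cons, List.prod_cons, ← ih, mul_comm]
    rfl

theorem ch_wheel {a b : ℝ} (h : qq a b = 0) (hab : a ≠ b) (s : Multiset ℝ) :
    ch (a ::ₘ b ::ₘ s) = (s.map fun x => x + a + b).prod * ch s := by
  induction s using Quotient.inductionOn with
  | h l =>
    have h1 : (a ::ₘ b ::ₘ (Quotient.mk _ l : Multiset ℝ)) = ((a :: b :: l : List ℝ) : Multiset ℝ) := rfl
    have h2 : (Quotient.mk _ l : Multiset ℝ) = (l : Multiset ℝ) := rfl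
    rw [h1, h2, ch_coe, ch_coe, List.length_cons, List.length_cons, Multiset.map_coe, Multiset.prod_coe,
      ← Cm_prod_getD l fun x => x + a + b]
    exact Chi_wheel l.length (fun i => (a :: b :: l).getD i 0) h hab

theorem ch_poly (s : Multiset ℝ) : ∃ P : Polynomial ℝ, P.natDegree ≤ Multiset.card s / 2 ∧
    P.coeff (Multiset.card s / 2) = ch s ∧ ∀ y, ch (y ::ₘ s) = P.eval y := by
  induction s using Quotient.inductionOn with
  | h l =>
    have h2 : (Quotient.mk _ l : Multiset ℝ) = (l : Multiset ℝ) := rfl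
    rw [h2, Multiset.coe_card, ch_coe]
    obtain ⟨P, hP1, hP2, hP3⟩ := Chi_lead l.length (fun i => l.getD i 0)
    refine ⟨P, hP1, hP2, fun y => ?_⟩
    have h3 : (y ::ₘ (l : Multiset ℝ)) = ((l ++ [y] : List ℝ) : Multiset ℝ) := by
      rw [Multiset.cons_coe, Multiset.coe_eq_coe]
      exact (List.perm_append_singleton y l).symm
    rw [← hP3, h3, ch_coe, List.length_append, List.length_singleton]
    refine Chi_congr fun i hi => ?_
    rcases Nat.lt_or_ge i l.length with h4 | h4
    · rw [List.getD_append _ _ _ _ h4, Function.update_of_ne (by omega)]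
    · have h5 : i = l.length := by omega
      rw [List.getD_append_right _ _ _ _ h4, h5, Function.update_self]
      simp

/-! ### parity -/
section
open Polynomial
variable {K : Type*} [Field K]

theorem Cm_dq_neg (f : K[X]) (a : K) : dq (f.comp (-X)) (-a) = -(dq f a).comp (-X) := by
  apply chiA_dq_unique (c := f.eval a)
  have h := congrArg (fun p => p.comp (-X)) (chiA_dq f a)
  simp only [add_comp, mul_comp, sub_comp, X_comp, C_comp] at h
  rw [h, C_neg]
  ring

theorem Cm_dq_smul (f : K[X]) (a c : K) : dq (C c * f) a = C c * dq f a := by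
  apply chiA_dq_unique (c := c * f.eval a)
  conv_lhs => rw [chiA_dq f a]
  rw [C_mul]
  ring

theorem Cm_dd_smul (x : ℕ → K) (f : K[X]) (c : K) (i : ℕ) : dd x (C c * f) i = C c * dd x f i := by
  induction i with
  | zero => rfl
  | succ i ih =>
    show dq (dd x (C c * f) i) (x i) = C c * dq (dd x f i) (x i)
    rw [ih, Cm_dq_smul]

theorem Cm_dd_neg (x : ℕ → K) (f : K[X]) (i : ℕ) :
    dd (fun j => -x j) (f.comp (-X)) i = C ((-1) ^ i) * (dd x f i).comp (-X) := by
  induction i with
  | zero => simp [dd]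
  | succ i ih =>
    show dq (dd (fun j => -x j) (f.comp (-X)) i) (-x i) = C ((-1) ^ (i + 1)) * (dq (dd x f i) (x i)).comp (-X)
    rw [ih, Cm_dq_smul, Cm_dq_neg, pow_succ, C_mul, C_neg, C_1]
    ring

theorem Cm_ph_neg (j : ℕ) : (ph K j).comp (-X) = C ((-1) ^ (j / 2 + j % 2)) * ph K j := by
  unfold ph
  rw [mul_comp, pow_comp, pow_comp, sub_comp, pow_comp, mul_comp, X_comp, C_comp, pow_add, C_mul, C_pow, C_pow,
    C_neg, C_1]
  have h1 : ((-X) ^ 3 - C 3 * -X : K[X]) = (-1) * (X ^ 3 - C 3 * X) := by ring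
  have h2 : (-X : K[X]) = (-1) * X := by ring
  rw [h1, mul_pow]
  conv_lhs => rw [h2, mul_pow]
  ring

theorem Cm_entry (x : ℕ → K) (i j : ℕ) :
    (dd (fun l => -x l) (ph K j) i).eval (-x i) =
      (-1) ^ i * (-1) ^ (j / 2 + j % 2) * (dd x (ph K j) i).eval (x i) := by
  have h := congrArg (fun p => p.eval (-x i)) (Cm_dd_neg x (ph K j) i)
  simp only [Cm_ph_neg, Cm_dd_smul, eval_mul, eval_C, eval_comp, eval_neg, eval_X, neg_neg] at h
  have h2 : ((-1 : K) ^ (j / 2 + j % 2)) * (-1) ^ (j / 2 + j % 2) = 1 := by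
    rw [← mul_pow, neg_mul_neg, one_mul, one_pow]
  linear_combination (-1 : K) ^ (j / 2 + j % 2) * h -
    (dd (fun l => -x l) (ph K j) i).eval (-x i) * h2

theorem Cm_sign (n : ℕ) : ∏ i ∈ range (2 * n + 1), ((-1 : K) ^ i * (-1) ^ (i / 2 + i % 2)) = (-1) ^ n := by
  induction n with
  | zero => simp
  | succ n ih =>
    rw [show 2 * (n + 1) + 1 = (2 * n + 1) + 1 + 1 by ring, prod_range_succ, prod_range_succ, ih,
      show (2 * n + 1) / 2 = n by omega, show (2 * n + 1) % 2 = 1 by omega,
      show (2 * n + 1 + 1) / 2 = n + 1 by omega, show (2 * n + 1 + 1) % 2 = 0 by omega]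
    rcases Nat.even_or_odd n with h | h
    · rw [Odd.neg_one_pow (show Odd (2 * n + 1) from ⟨n, rfl⟩), Odd.neg_one_pow (show Odd (n + 1) from h.add_one),
        Even.neg_one_pow (show Even (2 * n + 1 + 1) from ⟨n + 1, by ring⟩),
        h.neg_one_pow]
      ring
    · rw [Odd.neg_one_pow (show Odd (2 * n + 1) from ⟨n, rfl⟩), Even.neg_one_pow (show Even (n + 1) from h.add_one),
        Even.neg_one_pow (show Even (2 * n + 1 + 1) from ⟨n + 1, by ring⟩),
        h.neg_one_pow]
      ring

theorem Chi_neg (n : ℕ) (x : ℕ → K) : Chi (2 * n + 1) (fun i => -x i) = (-1) ^ n * Chi (2 * n + 1) x := by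
  have h1 : (Matrix.of fun i j : Fin (2 * n + 1) => (dd (fun l => -x l) (ph K j) i).eval (-x i)) =
      Matrix.diagonal (fun i : Fin (2 * n + 1) => (-1 : K) ^ (i : ℕ)) *
        (Matrix.of fun i j : Fin (2 * n + 1) => (dd x (ph K j) i).eval (x i)) *
        Matrix.diagonal (fun j : Fin (2 * n + 1) => (-1 : K) ^ ((j : ℕ) / 2 + (j : ℕ) % 2)) := by
    ext i j
    rw [Matrix.mul_diagonal, Matrix.diagonal_mul]
    simp only [Matrix.of_apply]
    rw [Cm_entry]
    ring
  unfold Chi
  rw [h1, Matrix.det_mul, Matrix.det_mul, Matrix.det_diagonal, Matrix.det_diagonal,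
    Fin.prod_univ_eq_prod_range (fun i => (-1 : K) ^ i), Fin.prod_univ_eq_prod_range
    (fun j => (-1 : K) ^ (j / 2 + j % 2)), ← Cm_sign, prod_mul_distrib]
  ring
end

/-- parity -/
theorem ch_neg (n : ℕ) (s : Multiset ℝ) (h : Multiset.card s = 2 * n + 1) : ch (s.map fun x => -x) = (-1) ^ n * ch s := by
  induction s using Quotient.inductionOn with
  | h l =>
    have h2 : (Quotient.mk _ l : Multiset ℝ) = (l : Multiset ℝ) := rfl
    rw [h2, Multiset.coe_card] at h
    rw [h2, Multiset.map_coe, ch_coe, ch_coe, List.length_map, h, ← Chi_neg]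
    refine Chi_congr fun i hi => ?_
    rw [List.getD_eq_getElem _ _ (by simp; omega), List.getD_eq_getElem _ _ (by omega)]
    simp
end IP.Junc
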