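import Pool.Agent.Helper80.J.Main
import Pool.Agent.Helper60.J.CI
import Pool.Agent.Helper60.Slit.Cont
import Pool.Agent.Helper63.J.VJ
/-! T-JUNCTION, from `FF_main` to the homogeneous value: definitions (leader helper80).  Everything was checked numerically.
First case `i ≤ L`: columns near `0`, rows near `π/6`, `y = π/6`; the sum over `B` is a contour integral over `GB` around `0` and `π/6`.
Second case `i > L`: columns `α 0, .., α (2m)` near `0`, rows `ρ 0, .., ρ (2q)` near `π/6`, and `α k + π/3` for `2n0+1 ≤ k ≤ 2m`,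
`m = n0 + p`: sequence `bc`; `b1` = the reduced lower leg (without the wheel pairs `α k`, `α k + π/3`). -/
namespace IP.Junc
open IP IP.Slit Finset Polynomial

/-- `Chi` with one more variable -/
noncomputable def CH (r : ℕ) (s : ℕ → ℂ) (x : ℂ) : ℂ := Chi (r + 1) (Function.update s r x)
noncomputable def sA (b : ℕ → ℝ) (i : ℕ) : ℂ := ((X0 (b i) : ℝ) : ℂ)
noncomputable def sB (m : ℕ) (b : ℕ → ℝ) (i : ℕ) : ℂ := ((Xp (b (2 * m + 1 + i)) : ℝ) : ℂ)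
noncomputable def sS (m : ℕ) (b : ℕ → ℝ) (y : ℝ) (i : ℕ) : ℂ := ((X0 (ins1 (2 * m + 1) y b i) : ℝ) : ℂ)
/-- numerator -/
noncomputable def GN (m k : ℕ) (b : ℕ → ℝ) (y : ℝ) (z : ℂ) : ℂ :=
  (xc z - ((Xp y : ℝ) : ℂ)) * CH (2 * m + 1) (sA b) (xc z) * CH (2 * k + 1) (sB m b) (xmc z) *
    CH (2 * (m + k) + 3) (sS m b y) (xmc z)
/-- harmless denominator -/
noncomputable def GD (m : ℕ) (b : ℕ → ℝ) (y : ℝ) (z : ℂ) : ℂ :=
  (((X0 y : ℝ) : ℂ) - xpc z) * ∏ i ∈ range (2 * m + 1), (((X0 (b i) : ℝ) : ℂ) - xpc z)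
/-- the integrand, first case -/
noncomputable def GB (m k : ℕ) (b : ℕ → ℝ) (y : ℝ) (z : ℂ) : ℂ :=
  GN m k b y z / GD m b y z * (-xmd z) / ∏ j ∈ range (2 * k + 1), (((Xm (b (2 * m + 1 + j)) : ℝ) : ℂ) - xmc z)

/-- the path to the homogeneous point (`Gn_line`: generic except for countably many `t`) -/
noncomputable def bt (c : ℕ) (t : ℝ) : ℕ → ℝ := fun i => H47Perc.JJ.bD c i + t * ((i : ℝ) + 1)

/-! ### second case -/
noncomputable def bc (m n0 q : ℕ) (α ρ : ℕ → ℝ) : ℕ → ℝ := fun j =>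
  if j < 2 * m + 1 then α j else if j < 2 * m + 1 + (2 * q + 1) then ρ (j - (2 * m + 1))
  else α (2 * n0 + 1 + (j - (2 * m + 1 + (2 * q + 1)))) + Real.pi / 3
noncomputable def b1 (n0 : ℕ) (α ρ : ℕ → ℝ) : ℕ → ℝ := fun j => if j < 2 * n0 + 1 then α j else ρ (j - (2 * n0 + 1))

/-- rows integrand; `b = bc (n0+p) n0 q α ρ`, `b1 = b1 n0 α ρ` -/
noncomputable def GR (n0 p q : ℕ) (α ρ : ℕ → ℝ) (y : ℝ) (z : ℂ) : ℂ :=
  (xc z - ((Xp y : ℝ) : ℂ)) * CH (2 * (n0 + p) + 1) (sA α) (xc z) *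
    CH (2 * (p + q) + 1) (sB (n0 + p) (bc (n0 + p) n0 q α ρ)) (xmc z) *
    CH (2 * (n0 + q) + 3) (sS n0 (b1 n0 α ρ) y) (xmc z) *
    (∏ k ∈ Ico (2 * n0 + 1) (2 * (n0 + p) + 1), (xmc z - ((Xm (α k) : ℝ) : ℂ))) * (-xmd z) /
    ((((X0 y : ℝ) : ℂ) - xpc z) * (∏ i ∈ range (2 * (n0 + p) + 1), (((X0 (α i) : ℝ) : ℂ) - xpc z)) *
      (∏ k ∈ Ico (2 * n0 + 1) (2 * (n0 + p) + 1), (((X0 (α k) : ℝ) : ℂ) - xmc z)) *
      ∏ l ∈ range (2 * q + 1), (((Xm (ρ l) : ℝ) : ℂ) - xmc z))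
/-- numerator and harmless denominator of the columns -/
noncomputable def GCN (n0 p q : ℕ) (α ρ : ℕ → ℝ) (y : ℝ) (x : ℂ) : ℂ :=
  ((AP (2 * (n0 + q) + 3) (sS n0 (b1 n0 α ρ) y)).eval (cc x) + (BP (2 * (n0 + q) + 3) (sS n0 (b1 n0 α ρ) y)).eval (cc x) * x) *
    ((AP (2 * (n0 + p) + 1) (sA α)).eval (cc x) + ((Xm y : ℝ) : ℂ) * (BP (2 * (n0 + p) + 1) (sA α)).eval (cc x)) *
    ((AP (2 * (p + q) + 1) (sB (n0 + p) (bc (n0 + p) n0 q α ρ))).eval (cc x) +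
      ((Xm y : ℝ) : ℂ) * (BP (2 * (p + q) + 1) (sB (n0 + p) (bc (n0 + p) n0 q α ρ))).eval (cc x))
noncomputable def GCD (q : ℕ) (ρ : ℕ → ℝ) (y : ℝ) (x : ℂ) : ℂ :=
  (cc x - cc ((X0 y : ℝ) : ℂ)) * ∏ l ∈ range (2 * q + 1), (cc x - cc ((X0 (ρ l) : ℝ) : ℂ))
/-- columns integrand -/
noncomputable def GC (n0 p q : ℕ) (α ρ : ℕ → ℝ) (y : ℝ) (x : ℂ) : ℂ :=
  GCN n0 p q α ρ y x / GCD q ρ y x * (3 * x ^ 2 - 3) /
    ∏ i ∈ range (2 * (n0 + p) + 1), (cc x - cc ((X0 (α i) : ℝ) : ℂ))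

/-- the conditions on the parameters of the second case -/
structure Good (n0 p q : ℕ) (α ρ : ℕ → ℝ) : Prop where
  al : ∀ i < 2 * (n0 + p) + 1, 0 < α i ∧ α i < 1 / 100
  al_inj : ∀ i < 2 * (n0 + p) + 1, ∀ j < 2 * (n0 + p) + 1, i ≠ j → α i ≠ α j
  rho : ∀ l < 2 * q + 1, |ρ l - Real.pi / 6| < 1 / 100 ∧ ρ l ≠ Real.pi / 6
  rho_inj : ∀ i < 2 * q + 1, ∀ j < 2 * q + 1, i ≠ j → ρ i ≠ ρ j
end IP.Junc
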