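import Pool.Agent.Helper80.J.Cm
/-! MODULE Rhs (helper80): the closed formulas at the nodes; pure algebra.
`Xp y = Xm a` for `y = a + π/3`; `X0 y`, `X0 a` is a wheel pair with third root `Xm a`. -/
namespace IP.Junc
open IP IP.Slit Finset Real

/-! ### the three roots -/

theorem rh_cos : Real.cos (2 * π / 3) = -(1 / 2) := by
  rw [show 2 * π / 3 = π - π / 3 by ring, Real.cos_pi_sub, Real.cos_pi_div_three]

theorem rh_sin_sq : Real.sin (2 * π / 3) ^ 2 = 3 / 4 := by
  have := Real.sin_sq_add_cos_sq (2 * π / 3)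
  rw [rh_cos] at this
  linarith

theorem rh_sum (a : ℝ) : X0 a + Xp a + Xm a = 0 := by
  unfold X0 Xp Xm
  rw [Real.cos_add, Real.cos_sub, rh_cos]
  ring

theorem rh_qq_p (a : ℝ) : qq (X0 a) (Xp a) = 0 := by
  unfold X0 Xp qq
  have h2 := Real.sin_sq_add_cos_sq (2 * a)
  have h := rh_sin_sq
  rw [Real.cos_add, rh_cos]
  linear_combination (4 * Real.sin (2 * a) ^ 2) * h + 3 * h2

theorem rh_qq_m (a : ℝ) : qq (X0 a) (Xm a) = 0 := by
  have h1 := rh_sum a
  have h2 := rh_qq_p a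
  unfold qq at *
  have h3 : Xm a = -X0 a - Xp a := by linarith
  rw [h3]
  linear_combination h2

theorem rh_qq_mp (a : ℝ) : qq (Xm a) (Xp a) = 0 := by
  have h1 := rh_sum a
  have h2 := rh_qq_p a
  unfold qq at *
  have h3 : Xm a = -X0 a - Xp a := by linarith
  rw [h3]
  linear_combination h2

theorem rh_qq_comm (x y : ℝ) : qq x y = qq y x := by
  unfold qq
  ring

theorem X0_add (a : ℝ) : X0 (a + π / 3) = Xp a := by
  unfold X0 Xp
  congr 2
  ring
theorem X0_sub (a : ℝ) : X0 (a - π / 3) = Xm a := by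
  unfold X0 Xm
  congr 2
  ring
theorem Xp_add (a : ℝ) : Xp (a + π / 3) = Xm a := by
  unfold Xp Xm
  rw [show 2 * (a + π / 3) + 2 * π / 3 = 2 * a - 2 * π / 3 + 2 * π by ring, Real.cos_add_two_pi]
theorem Xp_sub (a : ℝ) : Xp (a - π / 3) = X0 a := by
  unfold Xp X0
  congr 2
  ring
theorem X0_neg (a : ℝ) : X0 (-a) = X0 a := by
  unfold X0
  rw [mul_neg, Real.cos_neg]
theorem Xp_neg (a : ℝ) : Xp (-a) = Xm a := by
  unfold Xp Xm
  rw [← Real.cos_neg]
  congr 2
  ring

/-- the main algebraic identity -/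
theorem rh_key (a b : ℝ) : (X0 b - X0 a) * (X0 a - Xp b) = (Xm b - Xp a) * (Xm a - Xm b) := by
  have h1 := rh_sum a
  have h2 := rh_sum b
  have h3 := rh_qq_p a
  have h4 := rh_qq_m b
  unfold qq at h3 h4
  have e1 : Xm a = -X0 a - Xp a := by linarith
  have e2 : Xp b = -X0 b - Xm b := by linarith
  rw [e1, e2]
  linear_combination h4 - h3

theorem rh_map_erase {A : Finset ℝ} {a : ℝ} (ha : a ∈ A) (f : ℝ → ℝ) :
    A.val.map f = f a ::ₘ (A.erase a).val.map f := by
  rw [← Multiset.map_cons, Finset.erase_val, Multiset.cons_erase (Finset.mem_def.1 ha)]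

theorem rh_prod_map (A : Finset ℝ) (f : ℝ → ℝ) (c d : ℝ) :
    ((A.val.map f).map fun x => x + c + d).prod = ∏ s ∈ A, (f s + c + d) := by
  rw [Multiset.map_map]
  rfl

theorem rh_wt {B : Finset ℝ} {a b : ℝ} (ha : a ∈ B) (hab : a ≠ b) :
    wt B b = (X0 a - Xp b) * (X0 b - Xp a) / (Xm a - Xm b) * wt (B.erase a) b := by
  unfold wt
  rw [← mul_prod_erase (B.erase b) _ (mem_erase.2 ⟨hab, ha⟩), erase_right_comm]

/-- `X0 y` runs through a wheel pair with `a` -/
theorem RF_nodeA {A B : Finset ℝ} {a : ℝ} (ha : a ∈ A) (hx : X0 a ≠ X0 (a + π / 3)) :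
    RF A B (a + π / 3) = (∏ s ∈ A.erase a, (X0 s - Xm a)) * (∏ s ∈ B, (X0 s - Xm a)) * RG (A.erase a) B a := by
  unfold RF RG
  rw [mul_sum]
  refine sum_congr rfl fun b hb => ?_
  rw [X0_add] at hx ⊢
  rw [Xp_add]
  have h1 : ch (Xp a ::ₘ (A.val.map X0 + (B.erase b).val.map X0)) =
      (∏ s ∈ A.erase a, (X0 s - Xm a)) * (∏ s ∈ B.erase b, (X0 s - Xm a)) *
        ch ((A.erase a).val.map X0 + (B.erase b).val.map X0) := by
    rw [rh_map_erase ha X0, Multiset.cons_add, ch_wheel (by rw [rh_qq_comm]; exact rh_qq_p a) hx.symm, Multiset.map_add,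
      Multiset.prod_add, rh_prod_map, rh_prod_map]
    have e : ∀ s, X0 s + Xp a + X0 a = X0 s - Xm a := fun s => by
      have := rh_sum a
      linarith
    simp only [e]
  rw [h1, rh_map_erase ha X0, Multiset.cons_swap, ← mul_prod_erase B _ hb]
  ring

/-- `X0 y` runs through a wheel pair with `a` of the right group -/
theorem RF_nodeB {A B : Finset ℝ} {a : ℝ} (ha : a ∈ B) (hx : X0 a ≠ X0 (a - π / 3))
    (hB : ∀ s ∈ B, s ≠ a → Xm s ≠ Xm a) :
    RF A B (a - π / 3) = (∏ s ∈ A, (X0 s - Xp a)) * (∏ s ∈ B.erase a, (X0 s - Xp a)) * RH A (B.erase a) a := by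
  rw [X0_sub] at hx
  unfold RF RH
  rw [mul_sum, ← add_sum_erase B _ ha, Xp_sub, sub_self, zero_mul, zero_mul, zero_mul, zero_mul, zero_add]
  refine sum_congr rfl fun b hb => ?_
  have hb1 := (mem_erase.1 hb).1
  have hb2 := (mem_erase.1 hb).2
  have hab : a ∈ B.erase b := mem_erase.2 ⟨hb1.symm, ha⟩
  have h1 : ch (X0 (a - π / 3) ::ₘ (A.val.map X0 + (B.erase b).val.map X0)) =
      (∏ s ∈ A, (X0 s - Xp a)) * (∏ s ∈ (B.erase b).erase a, (X0 s - Xp a)) *
        ch (A.val.map X0 + ((B.erase b).erase a).val.map X0) := by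
    rw [X0_sub, rh_map_erase hab X0, Multiset.add_cons, ch_wheel (by rw [rh_qq_comm]; exact rh_qq_m a) hx.symm,
      Multiset.map_add, Multiset.prod_add, rh_prod_map, rh_prod_map]
    have e : ∀ s, X0 s + Xm a + X0 a = X0 s - Xp a := fun s => by
      have := rh_sum a
      linarith
    simp only [e]
  have h2 : (B.erase a).erase b = (B.erase b).erase a := erase_right_comm
  have h3 := rh_key a b
  have h4 : Xm a - Xm b ≠ 0 := sub_ne_zero.2 (hB b hb2 hb1).symm
  rw [h1, rh_wt ha hb1.symm, ← mul_prod_erase (B.erase a) _ hb, h2, rh_map_erase hab Xp]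
  have h5 : (X0 b - X0 a) * ((X0 a - Xp b) * (X0 b - Xp a) / (Xm a - Xm b)) = (Xm b - Xp a) * (X0 b - Xp a) := by
    rw [mul_div_assoc', div_eq_iff h4]
    linear_combination (X0 b - Xp a) * h3
  linear_combination (ch (X0 b ::ₘ Multiset.map X0 A.val) * ch (Xp a ::ₘ Multiset.map Xp ((B.erase b).erase a).val) *
    ((∏ s ∈ A, (X0 s - Xp a)) * (∏ s ∈ (B.erase b).erase a, (X0 s - Xp a)) *
        ch (A.val.map X0 + ((B.erase b).erase a).val.map X0)) * wt (B.erase a) b) * h5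

theorem RG_node {A B : Finset ℝ} {a : ℝ} (ha : a ∈ A) (hx : X0 a ≠ X0 (a - π / 3)) :
    RG A B (a - π / 3) = (∏ s ∈ A.erase a, (X0 s - Xp a)) * RF (A.erase a) B a := by
  rw [X0_sub] at hx
  unfold RF RG
  rw [mul_sum]
  refine sum_congr rfl fun b hb => ?_
  have h1 : ch (X0 (a - π / 3) ::ₘ X0 b ::ₘ A.val.map X0) =
      (X0 b - Xp a) * (∏ s ∈ A.erase a, (X0 s - Xp a)) * ch (X0 b ::ₘ (A.erase a).val.map X0) := by
    rw [X0_sub, rh_map_erase ha X0, Multiset.cons_swap (X0 b), ch_wheel (by rw [rh_qq_comm]; exact rh_qq_m a) hx.symm,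
      Multiset.map_cons, Multiset.prod_cons, rh_prod_map]
    have e : ∀ s, s + Xm a + X0 a = s - Xp a := fun s => by
      have := rh_sum a
      linarith
    simp only [e]
  rw [h1, rh_map_erase ha X0, Multiset.cons_add]
  ring

theorem RH_node {A B : Finset ℝ} {a : ℝ} (ha : a ∈ B) (hx : Xp a ≠ Xp (a + π / 3))
    (hB : ∀ s ∈ B, s ≠ a → Xm s ≠ Xm a) (hc : Even B.card) :
    RH A B (a + π / 3) = - (∏ s ∈ B.erase a, (X0 a - Xp s)) * RF A (B.erase a) a := by
  rw [Xp_add] at hx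
  unfold RF RH
  rw [mul_sum, ← add_sum_erase B _ ha, Xp_add, sub_self, zero_mul, zero_mul, zero_mul, zero_mul, zero_add]
  refine sum_congr rfl fun b hb => ?_
  have hb1 := (mem_erase.1 hb).1
  have hb2 := (mem_erase.1 hb).2
  have hab : a ∈ B.erase b := mem_erase.2 ⟨hb1.symm, ha⟩
  have h2 : (B.erase a).erase b = (B.erase b).erase a := erase_right_comm
  have h1 : ch (Xm a ::ₘ (B.erase b).val.map Xp) =
      (∏ s ∈ (B.erase b).erase a, (X0 a - Xp s)) * ch (((B.erase b).erase a).val.map Xp) := by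
    rw [rh_map_erase hab Xp, ch_wheel (rh_qq_mp a) hx.symm, rh_prod_map]
    have e : ∀ s, Xp s + Xm a + Xp a = -(X0 a - Xp s) := fun s => by
      have := rh_sum a
      linarith
    simp only [e]
    rw [prod_neg]
    have hev : Even ((B.erase b).erase a).card := by
      rw [card_erase_of_mem hab, card_erase_of_mem hb2]
      obtain ⟨r, hr⟩ := hc
      have : 0 < B.card := card_pos.2 ⟨a, ha⟩
      exact ⟨r - 1, by omega⟩
    rw [hev.neg_one_pow, one_mul]
  have h4 : Xm a - Xm b ≠ 0 := sub_ne_zero.2 (hB b hb2 hb1).symm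
  rw [h1, rh_wt ha hb1.symm, ← mul_prod_erase (B.erase a) _ hb, h2, rh_map_erase hab X0, Multiset.add_cons]
  have h5 : (Xm b - Xm a) * ((X0 a - Xp b) * (X0 b - Xp a) / (Xm a - Xm b)) = -((X0 a - Xp b) * (X0 b - Xp a)) := by
    rw [mul_div_assoc', div_eq_iff h4]
    ring
  linear_combination (ch (X0 b ::ₘ Multiset.map X0 A.val) *
    ((∏ s ∈ (B.erase b).erase a, (X0 a - Xp s)) * ch (((B.erase b).erase a).val.map Xp)) *
    ch (X0 a ::ₘ (Multiset.map X0 A.val + Multiset.map X0 ((B.erase b).erase a).val)) * wt (B.erase a) b) * h5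

/-- Lagrange interpolation: the leading coefficient -/
theorem rh_lagrange {ι : Type*} [DecidableEq ι] (B : Finset ι) (z : ι → ℝ) {n : ℕ} (hc : B.card = n + 1)
    (hz : ∀ s ∈ B, ∀ a ∈ B, s ≠ a → z s ≠ z a) (P : Polynomial ℝ) (hP : P.natDegree ≤ n) :
    ∑ b ∈ B, P.eval (z b) / ∏ s ∈ B.erase b, (z b - z s) = P.coeff n := by
  have hvs : Set.InjOn z (B : Set ι) := by
    intro i hi j hj h
    by_contra hij
    exact hz i hi j hj hij h
  have hdeg : P.degree < B.card := by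
    rw [hc]
    exact lt_of_le_of_lt Polynomial.degree_le_natDegree (by exact_mod_cast Nat.lt_succ_of_le hP)
  have h1 := Lagrange.eq_interpolate_of_eval_eq (s := B) (v := z) (f := P) (fun i => P.eval (z i)) hvs hdeg (fun i _ => rfl)
  have h2 : P.coeff n = ∑ b ∈ B, P.eval (z b) * (Lagrange.basis B z b).coeff n := by
    conv_lhs => rw [h1, Lagrange.interpolate_apply, Polynomial.finsetSum_coeff]
    refine sum_congr rfl fun b _ => ?_
    rw [Polynomial.coeff_C_mul]
  rw [h2]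
  refine sum_congr rfl fun b hb => ?_
  rw [div_eq_mul_inv]
  congr 1
  have h3 : (Lagrange.basis B z b).natDegree = n := by
    rw [Lagrange.natDegree_basis hvs hb, hc]
    rfl
  have h4 : (Lagrange.basis B z b).leadingCoeff = (∏ s ∈ B.erase b, (z b - z s))⁻¹ := by
    unfold Lagrange.basis
    rw [Polynomial.leadingCoeff_prod, ← prod_inv_distrib]
    refine prod_congr rfl fun s hs => ?_
    unfold Lagrange.basisDivisor
    rw [Polynomial.leadingCoeff_mul, Polynomial.leadingCoeff_C, Polynomial.leadingCoeff_X_sub_C, mul_one]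
  rw [← h4, Polynomial.leadingCoeff, h3]

/-- Lagrange interpolation of the leading coefficient of `ch (X0 B, y) * ch (Xp B, y)` -/
theorem RG_empty {B : Finset ℝ} (y : ℝ) (hx : ∀ b ∈ B, X0 b ≠ Xm b ∧ Xp b ≠ Xm b) (hc : Odd B.card)
    (hB : ∀ s ∈ B, ∀ a ∈ B, s ≠ a → Xm s ≠ Xm a) :
    RG ∅ B y = ch (B.val.map Xp) * ch (B.val.map X0) := by
  obtain ⟨k, hk⟩ := hc
  obtain ⟨P, hP1, hP2, hP3⟩ := ch_poly (B.val.map X0)
  obtain ⟨Q, hQ1, hQ2, hQ3⟩ := ch_poly (B.val.map Xp)
  rw [Multiset.card_map, Finset.card_val, hk, show (2 * k + 1) / 2 = k by omega] at hP1 hP2 hQ1 hQ2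
  have hPQ : (P * Q).natDegree ≤ 2 * k := Polynomial.natDegree_mul_le.trans (by omega)
  have hlead : (P * Q).coeff (2 * k) = ch (B.val.map Xp) * ch (B.val.map X0) := by
    rw [two_mul, Polynomial.coeff_mul_add_eq_of_natDegree_le hP1 hQ1, hP2, hQ2, mul_comm]
  rw [← hlead, ← rh_lagrange B Xm hk hB (P * Q) hPQ]
  unfold RG
  refine sum_congr rfl fun b hb => ?_
  have hev : Even (B.erase b).card := by
    rw [card_erase_of_mem hb, hk]
    exact ⟨k, by omega⟩
  have h0 : ch (X0 y ::ₘ X0 b ::ₘ (∅ : Finset ℝ).val.map X0) = 1 := ch_two _ _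
  have h1 : P.eval (Xm b) = (∏ s ∈ B.erase b, (X0 s - Xp b)) * ch ((B.erase b).val.map X0) := by
    rw [← hP3, rh_map_erase hb X0, ch_wheel (by rw [rh_qq_comm]; exact rh_qq_m b) (hx b hb).1.symm, rh_prod_map]
    have e : ∀ s, X0 s + Xm b + X0 b = X0 s - Xp b := fun s => by
      have := rh_sum b
      linarith
    simp only [e]
  have h2 : Q.eval (Xm b) = (∏ s ∈ B.erase b, (X0 b - Xp s)) * ch ((B.erase b).val.map Xp) := by
    rw [← hQ3, rh_map_erase hb Xp, ch_wheel (rh_qq_mp b) (hx b hb).2.symm, rh_prod_map]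
    have e : ∀ s, Xp s + Xm b + Xp b = -(X0 b - Xp s) := fun s => by
      have := rh_sum b
      linarith
    simp only [e]
    rw [prod_neg, hev.neg_one_pow, one_mul]
  have h3 : ∏ s ∈ B.erase b, (Xm b - Xm s) = ∏ s ∈ B.erase b, (Xm s - Xm b) := by
    have e : ∀ s, Xm b - Xm s = -(Xm s - Xm b) := fun s => by ring
    simp only [e]
    rw [prod_neg, hev.neg_one_pow, one_mul]
  rw [h0, Polynomial.eval_mul, h1, h2, h3]
  have h4 : (∅ : Finset ℝ).val.map X0 + (B.erase b).val.map X0 = (B.erase b).val.map X0 := by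
    rw [Finset.empty_val, Multiset.map_zero, zero_add]
  rw [h4]
  unfold wt
  rw [prod_div_distrib, prod_mul_distrib]
  generalize ∏ s ∈ B.erase b, (Xm s - Xm b) = D
  generalize ∏ s ∈ B.erase b, (X0 s - Xp b) = E
  generalize ∏ s ∈ B.erase b, (X0 b - Xp s) = F
  generalize ch ((B.erase b).val.map X0) = G
  generalize ch ((B.erase b).val.map Xp) = H
  rw [div_eq_mul_inv, div_eq_mul_inv]
  ring

theorem RH_empty (A : Finset ℝ) (y : ℝ) : RH A ∅ y = 0 := by
  unfold RH
  rw [sum_empty]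

/-! ### degrees -/

theorem rh_X0_TP : TP 2 X0 := by
  have h := (TP.cos_mul 2).smul 2
  exact h

theorem rh_Xp_TP : TP 2 Xp := by
  have h1 := (TP.cos_mul 2).smul (2 * Real.cos (2 * π / 3))
  have h2 := (TP.sin_mul 2).smul (2 * Real.sin (2 * π / 3))
  have h3 := h1.sub h2
  convert h3 using 1
  funext y
  unfold Xp
  rw [Real.cos_add]
  push_cast
  ring

theorem rh_poly_TP {f : ℝ → ℝ} (hf : TP 2 f) {n : ℕ} (P : Polynomial ℝ) (hP : P.natDegree ≤ n) :
    TP (2 * n) (fun y => P.eval (f y)) := by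
  have h1 : (fun y => P.eval (f y)) = fun y => ∑ j ∈ range (n + 1), P.coeff j * f y ^ j := by
    funext y
    exact Polynomial.eval_eq_sum_range' (Nat.lt_succ_of_le hP) _
  rw [h1]
  refine TP.sum _ fun j hj => ?_
  have hj' : j ≤ n := Nat.lt_succ_iff.1 (mem_range.1 hj)
  have h2 : ∀ j : ℕ, TP (2 * j) (fun y => f y ^ j) := by
    intro j
    induction j with
    | zero => simpa using TP.const 1
    | succ j ih =>
      have h3 := ih.mul hf
      exact h3
  have h3 := ((h2 j).smul (P.coeff j)).mono (n - j)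
  rwa [show 2 * j + 2 * (n - j) = 2 * n by omega] at h3

theorem rh_ch_TP {f : ℝ → ℝ} (hf : TP 2 f) {n : ℕ} (s : Multiset ℝ) (hs : Multiset.card s / 2 ≤ n) :
    TP (2 * n) (fun y => ch (f y ::ₘ s)) := by
  obtain ⟨P, hP1, _, hP3⟩ := ch_poly s
  simp only [hP3]
  exact rh_poly_TP hf P (hP1.trans hs)

theorem RF_TP (A B : Finset ℝ) {m k : ℕ} (hA : A.card = 2 * m + 1) (hB : B.card = 2 * k + 1) :
    TP (2 * (m + k + 1)) (RF A B) := by
  unfold RF
  refine TP.sum _ fun b hb => ?_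
  have h1 : TP (2 * (m + k)) (fun y => ch (X0 y ::ₘ (A.val.map X0 + (B.erase b).val.map X0))) := by
    refine rh_ch_TP rh_X0_TP _ ?_
    rw [Multiset.card_add, Multiset.card_map, Multiset.card_map, Finset.card_val, Finset.card_val,
      card_erase_of_mem hb, hA, hB]
    omega
  have h2 : TP 2 (fun y => X0 b - Xp y) := by
    have h3 := ((TP.const (X0 b)).mono 1).sub rh_Xp_TP
    exact h3
  have h4 := (h2.mul h1).smul (ch (X0 b ::ₘ A.val.map X0) * ch ((B.erase b).val.map Xp) * wt B b)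
  rw [show 2 + 2 * (m + k) = 2 * (m + k + 1) by ring] at h4
  convert h4 using 1
  funext y
  ring

theorem RG_TP (A B : Finset ℝ) {m : ℕ} (hA : A.card = 2 * m) : TP (2 * m) (RG A B) := by
  unfold RG
  refine TP.sum _ fun b hb => ?_
  have h1 : TP (2 * m) (fun y => ch (X0 y ::ₘ X0 b ::ₘ A.val.map X0)) := by
    refine rh_ch_TP rh_X0_TP _ ?_
    rw [Multiset.card_cons, Multiset.card_map, Finset.card_val, hA]
    omega
  have h4 := h1.smul (ch ((B.erase b).val.map Xp) * ch (A.val.map X0 + (B.erase b).val.map X0) * wt B b)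
  convert h4 using 1
  funext y
  ring

theorem RH_TP (A B : Finset ℝ) {k : ℕ} (hB : B.card = 2 * k) : TP (2 * k) (RH A B) := by
  unfold RH
  refine TP.sum _ fun b hb => ?_
  have hk : 0 < 2 * k := by
    rw [← hB]
    exact card_pos.2 ⟨b, hb⟩
  have h1 : TP (2 * (k - 1)) (fun y => ch (Xp y ::ₘ (B.erase b).val.map Xp)) := by
    refine rh_ch_TP rh_Xp_TP _ ?_
    rw [Multiset.card_map, Finset.card_val, card_erase_of_mem hb, hB]
    omega
  have h2 : TP 2 (fun y => Xm b - Xp y) := by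
    have h3 := ((TP.const (Xm b)).mono 1).sub rh_Xp_TP
    exact h3
  have h4 := (h2.mul h1).smul (ch (X0 b ::ₘ A.val.map X0) * ch (A.val.map X0 + (B.erase b).val.map X0) * wt B b)
  rw [show 2 + 2 * (k - 1) = 2 * k by omega] at h4
  convert h4 using 1
  funext y
  ring

/-! ### reflections -/

theorem rh_insert {A : Finset ℝ} {a : ℝ} (ha : a ∉ A) (f : ℝ → ℝ) :
    (insert a A).val.map f = f a ::ₘ A.val.map f := by
  rw [Finset.insert_val_of_notMem ha, Multiset.map_cons]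

theorem RF_neg {A : Finset ℝ} (B : Finset ℝ) {a : ℝ} (ha : a ∉ A) (ha' : -a ∉ A) (y : ℝ) :
    RF (insert (-a) A) B y = RF (insert a A) B y := by
  unfold RF
  rw [rh_insert ha, rh_insert ha', X0_neg]

theorem RG_neg {A : Finset ℝ} (B : Finset ℝ) {a : ℝ} (ha : a ∉ A) (ha' : -a ∉ A) (y : ℝ) :
    RG (insert (-a) A) B y = RG (insert a A) B y := by
  unfold RG
  rw [rh_insert ha, rh_insert ha', X0_neg]

theorem RH_refl (A B : Finset ℝ) (y : ℝ) : RH A B (π / 3 - y) = RH A B y := by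
  have h : Xp (π / 3 - y) = Xp y := by
    unfold Xp
    rw [← Real.cos_neg, ← Real.cos_add_two_pi,
      show -(2 * (π / 3 - y) + 2 * π / 3) + 2 * π = 2 * y + 2 * π / 3 by ring]
  unfold RH
  rw [h]
end IP.Junc
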