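import Pool.Agent.Helper80.J.Node
import Pool.Agent.Helper80.J.Rhs
/-! MODULE Main (helper80): the closed formula by induction.  `F(m,k)` from `G(m,k)`, `H(m,k)` (2m+2k+3 nodes, degree 2(m+k+1));
`G(m+1,k)` from `F(m,k)` (2(m+1)+1 nodes, degree 2(m+1)); `H(m,k+1)` from `F(m,k)`. -/
namespace IP.Junc
open IP IP.Slit Finset Real

/-! ### generic points -/

theorem mn_sub {b : ℕ → ℝ} (hb : Gn b) {i j : ℕ} (hij : i ≠ j) (k : ℤ) {x : ℝ} (hx : x = b i - b j + k * (π / 3)) :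
    Real.sin x ≠ 0 := by
  rw [hx]
  exact hb.sub hij k

theorem mn_add {b : ℕ → ℝ} (hb : Gn b) (i j : ℕ) (k : ℤ) {x : ℝ} (hx : x = b i + b j + k * (π / 3)) :
    Real.sin x ≠ 0 := by
  rw [hx]
  exact hb.add i j k

theorem mn_addn {b : ℕ → ℝ} (hb : Gn b) (i j : ℕ) (k : ℤ) {x : ℝ} (hx : -x = b i + b j + k * (π / 3)) :
    Real.sin x ≠ 0 := by
  have h := mn_add hb i j k hx
  rw [Real.sin_neg] at h
  exact fun h' => h (by rw [h', neg_zero])

theorem mn_inj {b : ℕ → ℝ} (hb : Gn b) : Function.Injective b := by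
  intro i j h
  by_contra hij
  exact mn_sub hb hij 0 (x := 0) (by rw [h]; simp) Real.sin_zero

theorem mn_neg_ne {b : ℕ → ℝ} (hb : Gn b) (i j : ℕ) : b i ≠ -b j := by
  intro h
  exact mn_add hb i j 0 (x := 0) (by rw [h]; simp) Real.sin_zero

theorem mn_diff (x y : ℝ) : X0 x - X0 y = -(4 * (Real.sin (x + y) * Real.sin (x - y))) := by
  unfold X0
  have h := Real.cos_sub_cos (2 * x) (2 * y)
  rw [show (2 * x + 2 * y) / 2 = x + y by ring, show (2 * x - 2 * y) / 2 = x - y by ring] at h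
  linarith

theorem mn_ne {x y : ℝ} (h1 : Real.sin (x + y) ≠ 0) (h2 : Real.sin (x - y) ≠ 0) : X0 x ≠ X0 y := by
  intro h
  have h3 := mn_diff x y
  rw [h, sub_self] at h3
  have h4 : Real.sin (x + y) * Real.sin (x - y) = 0 := by linarith
  rcases mul_eq_zero.1 h4 with h5 | h5
  · exact h1 h5
  · exact h2 h5

theorem mn_s1 : Real.sin (π / 3) ≠ 0 :=
  (Real.sin_pos_of_pos_of_lt_pi (by linarith [Real.pi_pos]) (by linarith [Real.pi_pos])).ne'
theorem mn_s2 : Real.sin (-(π / 3)) ≠ 0 := by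
  rw [Real.sin_neg]
  exact neg_ne_zero.2 mn_s1
theorem mn_s3 : Real.sin (2 * π / 3) ≠ 0 :=
  (Real.sin_pos_of_pos_of_lt_pi (by linarith [Real.pi_pos]) (by linarith [Real.pi_pos])).ne'

theorem mn_X0p {b : ℕ → ℝ} (hb : Gn b) (i : ℕ) : X0 (b i) ≠ X0 (b i + π / 3) := by
  refine mn_ne (mn_add hb i i 1 (by push_cast; ring)) ?_
  rw [show b i - (b i + π / 3) = -(π / 3) by ring]
  exact mn_s2

theorem mn_X0m {b : ℕ → ℝ} (hb : Gn b) (i : ℕ) : X0 (b i) ≠ X0 (b i - π / 3) := by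
  refine mn_ne (mn_add hb i i (-1) (by push_cast; ring)) ?_
  rw [show b i - (b i - π / 3) = π / 3 by ring]
  exact mn_s1

theorem mn_Xpm {b : ℕ → ℝ} (hb : Gn b) (i : ℕ) : Xp (b i) ≠ Xm (b i) := by
  rw [← X0_add, ← X0_sub]
  refine mn_ne (mn_add hb i i 0 (by push_cast; ring)) ?_
  rw [show b i + π / 3 - (b i - π / 3) = 2 * π / 3 by ring]
  exact mn_s3

theorem mn_Xm {b : ℕ → ℝ} (hb : Gn b) {i j : ℕ} (hij : i ≠ j) : Xm (b i) ≠ Xm (b j) := by
  rw [← X0_sub, ← X0_sub]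
  exact mn_ne (mn_add hb i j (-2) (by push_cast; ring)) (mn_sub hb hij 0 (by push_cast; ring))

theorem mn_skip_inj (i : ℕ) : Function.Injective (skip i) := by
  intro a c h
  unfold skip at h
  split_ifs at h <;> omega

theorem mn_Gn_del {b : ℕ → ℝ} (hb : Gn b) (i : ℕ) : Gn (del1 i b) := by
  intro a c k
  exact ⟨hb.add _ _ k, fun h => hb.sub (fun h' => h (mn_skip_inj i h')) k⟩

theorem mn_Gn_ng {b : ℕ → ℝ} (hb : Gn b) : Gn (ng 0 b) := by
  have h0 : ng 0 b 0 = -b 0 := by unfold ng; rw [Function.update_self]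
  have h1 : ∀ j, j ≠ 0 → ng 0 b j = b j := fun j hj => by unfold ng; rw [Function.update_of_ne hj]
  intro a c k
  by_cases ha : a = 0 <;> by_cases hc : c = 0
  · subst ha hc
    rw [h0]
    refine ⟨mn_addn hb 0 0 (-k) (by push_cast; ring), fun h => absurd rfl h⟩
  · subst ha
    rw [h0, h1 c hc]
    exact ⟨mn_sub hb hc k (by ring), fun _ => mn_addn hb 0 c (-k) (by push_cast; ring)⟩
  · subst hc
    rw [h0, h1 a ha]
    exact ⟨mn_sub hb ha k (by ring), fun _ => mn_add hb a 0 k (by ring)⟩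
  · rw [h1 a ha, h1 c hc]
    exact ⟨hb.add a c k, fun h => hb.sub h k⟩

/-- zero counting -/
theorem mn_zero {n : ℕ} {F : ℝ → ℝ} (hF : TP n F) (z : ℕ → ℝ)
    (hz : ∀ i j, i < n + 1 → j < n + 1 → i ≠ j → Real.sin (z i - z j) ≠ 0)
    (h0 : ∀ i, i < n + 1 → F (z i) = 0) : ∀ x, F x = 0 := by
  classical
  refine hF.eq_zero ((range (n + 1)).image z) ?_ ?_ ?_
  · rw [card_image_of_injOn, card_range]
    · omega
    · intro i hi j hj hij
      by_contra h
      have := hz i j (mem_range.1 hi) (mem_range.1 hj) h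
      rw [hij, sub_self, Real.sin_zero] at this
      exact this rfl
  · intro x hx y hy hxy
    obtain ⟨i, hi, rfl⟩ := mem_image.1 hx
    obtain ⟨j, hj, rfl⟩ := mem_image.1 hy
    exact hz i j (mem_range.1 hi) (mem_range.1 hj) fun h => hxy (by rw [h])
  · intro x hx
    obtain ⟨i, hi, rfl⟩ := mem_image.1 hx
    exact h0 i (mem_range.1 hi)

/-! ### the sets of strands -/

theorem mn_SA (r : ℕ) (b : ℕ → ℝ) : SA r b = SB 0 r b := by
  unfold SA SB
  rw [zero_add, range_eq_Ico]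

theorem mn_card {b : ℕ → ℝ} (hb : Gn b) (r n : ℕ) : (SB r n b).card = n := by
  unfold SB
  rw [card_image_of_injective _ (mn_inj hb), Nat.card_Ico]
  omega

theorem mn_mem {b : ℕ → ℝ} {r n i : ℕ} (h1 : r ≤ i) (h2 : i < r + n) : b i ∈ SB r n b :=
  mem_image_of_mem _ (mem_Ico.2 ⟨h1, h2⟩)

/-- the removed strand in the group -/
theorem mn_erase {b : ℕ → ℝ} (hb : Gn b) {r n i : ℕ} (h1 : r ≤ i) (h2 : i ≤ r + n) :
    SB r n (del1 i b) = (SB r (n + 1) b).erase (b i) := by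
  ext x
  unfold SB del1 skip
  simp only [mem_image, mem_erase, mem_Ico]
  constructor
  · rintro ⟨j, hj, rfl⟩
    split_ifs with h
    · exact ⟨fun h' => by have := mn_inj hb h'; omega, j, by omega, rfl⟩
    · exact ⟨fun h' => by have := mn_inj hb h'; omega, j + 1, by omega, rfl⟩
  · rintro ⟨hx, j, hj, rfl⟩
    have hji : j ≠ i := fun h => hx (by rw [h])
    by_cases h : j < i
    · exact ⟨j, by omega, by rw [if_pos h]⟩
    · exact ⟨j - 1, by omega, by rw [if_neg (by omega)]; congr 1; omega⟩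

/-- the removed strand before the group -/
theorem mn_shift {b : ℕ → ℝ} {r n i : ℕ} (h1 : i ≤ r) : SB r n (del1 i b) = SB (r + 1) n b := by
  ext x
  unfold SB del1 skip
  simp only [mem_image, mem_Ico]
  constructor
  · rintro ⟨j, hj, rfl⟩
    exact ⟨j + 1, by omega, by rw [if_neg (by omega)]⟩
  · rintro ⟨j, hj, rfl⟩
    exact ⟨j - 1, by omega, by rw [if_neg (by omega)]; congr 1; omega⟩

/-- the removed strand after the group -/
theorem mn_keep {b : ℕ → ℝ} {r n i : ℕ} (h1 : r + n ≤ i) : SB r n (del1 i b) = SB r n b := by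
  ext x
  unfold SB del1 skip
  simp only [mem_image, mem_Ico]
  constructor
  · rintro ⟨j, hj, rfl⟩
    exact ⟨j, by omega, by rw [if_pos (by omega)]⟩
  · rintro ⟨j, hj, rfl⟩
    exact ⟨j, by omega, by rw [if_pos (by omega)]⟩

theorem mn_prod {b : ℕ → ℝ} (hb : Gn b) (r n : ℕ) (f : ℝ → ℝ) : ∏ s ∈ SB r n b, f s = ∏ j ∈ Ico r (r + n), f (b j) := by
  unfold SB
  rw [prod_image]
  intro i _ j _ h
  exact mn_inj hb h

theorem mn_prod_erase {b : ℕ → ℝ} (hb : Gn b) (r n i : ℕ) (f : ℝ → ℝ) :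
    ∏ s ∈ (SB r n b).erase (b i), f s = ∏ j ∈ (Ico r (r + n)).erase i, f (b j) := by
  have h : (SB r n b).erase (b i) = ((Ico r (r + n)).erase i).image b := by
    unfold SB
    rw [image_erase (mn_inj hb)]
  rw [h, prod_image]
  intro i _ j _ h
  exact mn_inj hb h

theorem mn_sep {b : ℕ → ℝ} (hb : Gn b) {r n i : ℕ} : ∀ s ∈ SB r n b, s ≠ b i → Xm s ≠ Xm (b i) := by
  intro s hs hsi
  obtain ⟨j, _, rfl⟩ := mem_image.1 hs
  exact mn_Xm hb fun h => hsi (by rw [h])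

/-! ### the three statements -/

def PF (m k : ℕ) : Prop := ∀ b : ℕ → ℝ, Gn b → ∀ y, 4 ^ ((m + k + 1) ^ 2 + m ^ 2 + k ^ 2) * FF m k b y =
  (-1) ^ k * RF (SB 0 (2 * m + 1) b) (SB (2 * m + 1) (2 * k + 1) b) y
def PG (m k : ℕ) : Prop := ∀ b : ℕ → ℝ, Gn b → ∀ y, 4 ^ ((m + k) ^ 2 + m ^ 2 + k ^ 2) * GG m k b y =
  (-1) ^ k * RG (SB 0 (2 * m) b) (SB (2 * m) (2 * k + 1) b) y
def PH (m k : ℕ) : Prop := ∀ b : ℕ → ℝ, Gn b → ∀ y, 4 ^ ((m + k) ^ 2 + m ^ 2 + k ^ 2) * HH m k b y =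
  (-1) ^ k * RH (SB 0 (2 * m + 1) b) (SB (2 * m + 1) (2 * k) b) y

theorem mn_FA {m k : ℕ} (hG : PG m k) {b : ℕ → ℝ} (hb : Gn b) {i : ℕ} (hi : i ≤ 2 * m) :
    4 ^ ((m + k + 1) ^ 2 + m ^ 2 + k ^ 2) * FF m k b (b i + π / 3) =
      (-1) ^ k * RF (SB 0 (2 * m + 1) b) (SB (2 * m + 1) (2 * k + 1) b) (b i + π / 3) := by
  rw [FF_nodeA hi, hG _ (mn_Gn_del hb i), RF_nodeA (mn_mem (by omega) (by omega)) (mn_X0p hb i),
    mn_erase hb (by omega) (by omega), mn_shift hi, mn_prod_erase hb, mn_prod hb]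
  have h1 : (range (2 * m + 2 * k + 2)).erase i = (Ico 0 (0 + (2 * m + 1))).erase i ∪
      Ico (2 * m + 1) (2 * m + 1 + (2 * k + 1)) := by
    ext j
    simp only [mem_erase, mem_range, mem_union, mem_Ico]
    omega
  rw [h1, prod_union]
  · ring
  · rw [disjoint_left]
    intro j hj
    simp only [mem_erase, mem_Ico] at *
    omega

theorem mn_FB {m k : ℕ} (hH : PH m k) {b : ℕ → ℝ} (hb : Gn b) {i : ℕ} (hi : 2 * m + 1 ≤ i) (hi2 : i ≤ 2 * m + 2 * k + 1) :
    4 ^ ((m + k + 1) ^ 2 + m ^ 2 + k ^ 2) * FF m k b (b i - π / 3) =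
      (-1) ^ k * RF (SB 0 (2 * m + 1) b) (SB (2 * m + 1) (2 * k + 1) b) (b i - π / 3) := by
  rw [FF_nodeB hi hi2, hH _ (mn_Gn_del hb i), RF_nodeB (mn_mem (by omega) (by omega)) (mn_X0m hb i) (mn_sep hb),
    mn_erase hb (r := 2 * m + 1) (n := 2 * k) (by omega) (by omega), mn_keep (r := 0) (n := 2 * m + 1) (by omega), mn_prod_erase hb, mn_prod hb]
  have h1 : (range (2 * m + 2 * k + 2)).erase i = Ico 0 (0 + (2 * m + 1)) ∪
      (Ico (2 * m + 1) (2 * m + 1 + (2 * k + 1))).erase i := by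
    ext j
    simp only [mem_erase, mem_range, mem_union, mem_Ico]
    omega
  rw [h1, prod_union]
  · ring
  · rw [disjoint_left]
    intro j hj
    simp only [mem_erase, mem_Ico] at *
    omega

/-- reflection of the first strand on the right side -/
theorem mn_ng_set {b : ℕ → ℝ} (hb : Gn b) {n : ℕ} (hn : 1 ≤ n) :
    SB 0 n b = insert (b 0) (SB 1 (n - 1) b) ∧ SB 0 n (ng 0 b) = insert (-b 0) (SB 1 (n - 1) b) ∧
      b 0 ∉ SB 1 (n - 1) b ∧ -b 0 ∉ SB 1 (n - 1) b := by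
  have h0 : ng 0 b 0 = -b 0 := by unfold ng; rw [Function.update_self]
  have h1 : ∀ j, j ≠ 0 → ng 0 b j = b j := fun j hj => by unfold ng; rw [Function.update_of_ne hj]
  refine ⟨?_, ?_, ?_, ?_⟩
  · ext x
    unfold SB
    simp only [mem_image, mem_insert, mem_Ico]
    constructor
    · rintro ⟨j, hj, rfl⟩
      by_cases h : j = 0
      · exact Or.inl (by rw [h])
      · exact Or.inr ⟨j, by omega, rfl⟩
    · rintro (rfl | ⟨j, hj, rfl⟩)
      · exact ⟨0, by omega, rfl⟩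
      · exact ⟨j, by omega, rfl⟩
  · ext x
    unfold SB
    simp only [mem_image, mem_insert, mem_Ico]
    constructor
    · rintro ⟨j, hj, rfl⟩
      by_cases h : j = 0
      · exact Or.inl (by rw [h, h0])
      · exact Or.inr ⟨j, by omega, by rw [h1 j h]⟩
    · rintro (rfl | ⟨j, hj, rfl⟩)
      · exact ⟨0, by omega, h0⟩
      · exact ⟨j, by omega, h1 j (by omega)⟩
  · intro h
    obtain ⟨j, hj, hj2⟩ := mem_image.1 h
    have := mn_inj hb hj2
    rw [mem_Ico] at hj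
    omega
  · intro h
    obtain ⟨j, hj, hj2⟩ := mem_image.1 h
    exact mn_neg_ne hb j 0 hj2

theorem mn_ng_keep {b : ℕ → ℝ} {r n : ℕ} (hr : 1 ≤ r) : SB r n (ng 0 b) = SB r n b := by
  unfold SB
  refine image_congr fun j hj => ?_
  rw [coe_Ico, Set.mem_Ico] at hj
  unfold ng
  rw [Function.update_of_ne (by omega)]

/-- `F(m,k)` from `G(m,k)` and `H(m,k)` -/
theorem mn_F {m k : ℕ} (hG : PG m k) (hH : PH m k) : PF m k := by
  intro b hb
  have hTP : TP (2 * (m + k + 1)) (fun y => 4 ^ ((m + k + 1) ^ 2 + m ^ 2 + k ^ 2) * FF m k b y -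
      (-1) ^ k * RF (SB 0 (2 * m + 1) b) (SB (2 * m + 1) (2 * k + 1) b) y) :=
    ((FF_TP m k b).smul _).sub ((RF_TP _ _ (mn_card hb _ _) (mn_card hb _ _)).smul _)
  have key := mn_zero hTP (fun j => if j ≤ 2 * m then b j + π / 3 else if j ≤ 2 * m + 2 * k + 1 then b j - π / 3 else
    -b 0 + π / 3) ?_ ?_
  · intro y
    have := key y
    linarith
  · intro i j hi hj hij
    split_ifs with h1 h2 h3 h4 h5 h6 h7 h8
    · exact mn_sub hb hij 0 (by push_cast; ring)
    · exact mn_sub hb hij 2 (by push_cast; ring)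
    · exact mn_add hb i 0 0 (by push_cast; ring)
    · exact mn_sub hb hij (-2) (by push_cast; ring)
    · exact mn_sub hb hij 0 (by push_cast; ring)
    · exact mn_add hb i 0 (-2) (by push_cast; ring)
    · exact mn_addn hb j 0 0 (by push_cast; ring)
    · exact mn_addn hb j 0 (-2) (by push_cast; ring)
    · omega
  · intro i hi
    split_ifs with h1 h2
    · rw [mn_FA hG hb h1, sub_self]
    · rw [mn_FB hH hb (by omega) h2, sub_self]
    · obtain ⟨e1, e2, e3, e4⟩ := mn_ng_set hb (n := 2 * m + 1) (by omega)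
      have h0 : ng 0 b 0 = -b 0 := by unfold ng; rw [Function.update_self]
      have h3 := mn_FA hG (mn_Gn_ng hb) (i := 0) (by omega)
      rw [FF_ng0, h0, mn_ng_keep (r := 2 * m + 1) (by omega), e2, RF_neg _ e3 e4, ← e1] at h3
      rw [h3, sub_self]

/-- `G(m+1,k)` from `F(m,k)` -/
theorem mn_G {m k : ℕ} (hF : PF m k) : PG (m + 1) k := by
  have node : ∀ b : ℕ → ℝ, Gn b → ∀ i, i < 2 * (m + 1) →
      4 ^ ((m + 1 + k) ^ 2 + (m + 1) ^ 2 + k ^ 2) * GG (m + 1) k b (b i - π / 3) =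
        (-1) ^ k * RG (SB 0 (2 * (m + 1)) b) (SB (2 * (m + 1)) (2 * k + 1) b) (b i - π / 3) := by
    intro b hb i hi
    have h3 : 2 * (m + 1) = 2 * m + 1 + 1 := by ring
    rw [GG_node hi, hF _ (mn_Gn_del hb i), RG_node (mn_mem (by omega) (by omega)) (mn_X0m hb i),
      mn_erase hb (by omega) (by omega), mn_shift (by omega), mn_prod_erase hb, h3, zero_add, range_eq_Ico]
    ring
  intro b hb
  have hTP : TP (2 * (m + 1)) (fun y => 4 ^ ((m + 1 + k) ^ 2 + (m + 1) ^ 2 + k ^ 2) * GG (m + 1) k b y -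
      (-1) ^ k * RG (SB 0 (2 * (m + 1)) b) (SB (2 * (m + 1)) (2 * k + 1) b) y) :=
    ((GG_TP (m + 1) k b).smul _).sub ((RG_TP _ _ (mn_card hb _ _)).smul _)
  have key := mn_zero hTP (fun j => if j < 2 * (m + 1) then b j - π / 3 else -b 0 - π / 3) ?_ ?_
  · intro y
    have := key y
    linarith
  · intro i j hi hj hij
    split_ifs with h1 h2 h3
    · exact mn_sub hb hij 0 (by push_cast; ring)
    · exact mn_add hb i 0 0 (by push_cast; ring)
    · exact mn_addn hb j 0 0 (by push_cast; ring)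
    · omega
  · intro i hi
    split_ifs with h1
    · rw [node b hb i h1, sub_self]
    · obtain ⟨e1, e2, e3, e4⟩ := mn_ng_set hb (n := 2 * (m + 1)) (by omega)
      have h0 : ng 0 b 0 = -b 0 := by unfold ng; rw [Function.update_self]
      have h3 := node _ (mn_Gn_ng hb) 0 (by omega)
      rw [GG_ng0 (by omega), h0, mn_ng_keep (r := 2 * (m + 1)) (by omega), e2, RG_neg _ e3 e4, ← e1] at h3
      rw [h3, sub_self]

/-- `H(m,k+1)` from `F(m,k)` -/
theorem mn_H {m k : ℕ} (hF : PF m k) : PH m (k + 1) := by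
  intro b hb
  have node : ∀ i, 2 * m + 1 ≤ i → i ≤ 2 * m + 2 * (k + 1) →
      4 ^ ((m + (k + 1)) ^ 2 + m ^ 2 + (k + 1) ^ 2) * HH m (k + 1) b (b i + π / 3) =
        (-1) ^ (k + 1) * RH (SB 0 (2 * m + 1) b) (SB (2 * m + 1) (2 * (k + 1)) b) (b i + π / 3) := by
    intro i hi hi2
    have h3 : 2 * (k + 1) = 2 * k + 1 + 1 := by ring
    have hx : Xp (b i) ≠ Xp (b i + π / 3) := by
      rw [Xp_add]
      exact mn_Xpm hb i
    rw [HH_node hi hi2, hF _ (mn_Gn_del hb i), RH_node (mn_mem (by omega) (by omega)) hx (mn_sep hb)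
      (by rw [mn_card hb]; exact even_two_mul _), h3,
      mn_erase hb (r := 2 * m + 1) (n := 2 * k + 1) (by omega) (by omega), mn_keep (r := 0) (n := 2 * m + 1) (by omega),
      mn_prod_erase hb, show 2 * m + 2 * k + 3 = 2 * m + 1 + (2 * k + 1 + 1) by ring]
    ring
  have hTP : TP (2 * (k + 1)) (fun y => 4 ^ ((m + (k + 1)) ^ 2 + m ^ 2 + (k + 1) ^ 2) * HH m (k + 1) b y -
      (-1) ^ (k + 1) * RH (SB 0 (2 * m + 1) b) (SB (2 * m + 1) (2 * (k + 1)) b) y) :=
    ((HH_TP m (k + 1) b).smul _).sub ((RH_TP _ _ (mn_card hb _ _)).smul _)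
  have key := mn_zero hTP (fun j => if j < 2 * (k + 1) then b (2 * m + 1 + j) + π / 3 else -b (2 * m + 1)) ?_ ?_
  · intro y
    have := key y
    linarith
  · intro i j hi hj hij
    split_ifs with h1 h2 h3
    · exact mn_sub hb (i := 2 * m + 1 + i) (j := 2 * m + 1 + j) (by omega) 0 (by push_cast; ring)
    · exact mn_add hb (2 * m + 1 + i) (2 * m + 1) 1 (by push_cast; ring)
    · exact mn_addn hb (2 * m + 1 + j) (2 * m + 1) 1 (by push_cast; ring)
    · omega
  · intro i hi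
    split_ifs with h1
    · rw [node _ (by omega) (by omega), sub_self]
    · have h3 := node (2 * m + 1) (by omega) (by omega)
      rw [← HH_refl, ← RH_refl, show π / 3 - (b (2 * m + 1) + π / 3) = -b (2 * m + 1) by ring] at h3
      rw [h3, sub_self]

/-- the base cases -/
theorem mn_G0 (k : ℕ) : PG 0 k := by
  intro b hb y
  rw [GG_zero]
  have hc : (SB (2 * 0) (2 * k + 1) b).card = 2 * k + 1 := mn_card hb _ _
  have hA : SB 0 (2 * 0) b = ∅ := by
    unfold SB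
    simp
  have hm : ∀ f : ℝ → ℝ, ch ((SB (2 * 0) (2 * k + 1) b).val.map f) = Chi (2 * k + 1) (fun j => f (b j)) := by
    intro f
    rw [← ch_range (2 * k + 1) (fun j => f (b j))]
    congr 1
    unfold SB
    rw [image_val_of_injOn (mn_inj hb).injOn, Multiset.map_map, mul_zero, zero_add, ← range_eq_Ico]
    rfl
  rw [hA, RG_empty y ?_ ?_ ?_, hm, hm]
  · intro s hs
    obtain ⟨j, _, rfl⟩ := mem_image.1 hs
    refine ⟨?_, mn_Xpm hb j⟩
    have := mn_X0m hb j
    rwa [X0_sub] at this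
  · rw [hc]
    exact ⟨k, rfl⟩
  · intro s hs a ha hsa
    obtain ⟨j, _, rfl⟩ := mem_image.1 ha
    exact mn_sep hb s hs hsa

theorem mn_H0 (m : ℕ) : PH m 0 := by
  intro b _ y
  have hA : SB (2 * m + 1) (2 * 0) b = ∅ := by
    unfold SB
    simp
  rw [HH_zero, hA, RH_empty]
  ring

theorem mn_all (m k : ℕ) : PF m k := by
  induction hN : m + k using Nat.strong_induction_on generalizing m k with
  | _ N ih =>
    refine mn_F ?_ ?_
    · rcases m with _ | m
      · exact mn_G0 k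
      · exact mn_G (ih (m + k) (by omega) m k rfl)
    · rcases k with _ | k
      · exact mn_H0 m
      · exact mn_H (ih (m + k) (by omega) m k rfl)

theorem FF_main (m k : ℕ) {b : ℕ → ℝ} (hb : Gn b) (y : ℝ) :
    4 ^ ((m + k + 1) ^ 2 + m ^ 2 + k ^ 2) * FF m k b y =
      (-1) ^ k * RF (SA (2 * m + 1) b) (SB (2 * m + 1) (2 * k + 1) b) y := by
  rw [mn_SA]
  exact mn_all m k b hb y
end IP.Junc
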