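import Pool.Agent.Helper80.J.HomDefs
import Pool.Agent.Helper53.Slit.IsE
import Pool.Agent.Helper40.J.Mix1
/-! MODULE MIX: the polynomials `AP`, `BP` at the confluent sets.  `AB_A`: `isE`, `F_unique`.  Mixed sets: wheel pairs `(1,1)`
(third root `-2`) in the lower leg, `(-1,-1)` (third root `2`) in the right leg, or uniqueness.  Sequences are given up to order. -/
namespace IP.Junc
open IP IP.Slit Finset Polynomial

/-- `1, x` are independent over `ℂ[c]` -/
theorem mix_indep {A B : ℂ[X]} (h : ∀ x : ℂ, A.eval (cc x) + B.eval (cc x) * x = 0) : A = 0 ∧ B = 0 :=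
  mx_indep h

theorem AB_A (m : ℕ) {s : ℕ → ℂ} (hs : ∀ i < 2 * m + 1, s i = 2) :
    AP (2 * m + 1) s = C (Chi (2 * m + 1) s) * FP m ∧ BP (2 * m + 1) s = C (Chi (2 * m + 1) s) * FQ m :=
  mx_AB_A m hs

/-- lower leg: `2c+1` strands `2` and `2q+2` strands `1` -/
theorem AB_S (c q : ℕ) {s : ℕ → ℂ}
    (hs : (Multiset.range (2 * (c + q) + 3)).map s = Multiset.replicate (2 * c + 1) 2 + Multiset.replicate (2 * q + 2) 1) :
    AP (2 * (c + q) + 3) s = C (Chi (2 * (c + q) + 3) s) * (X + C 2) ^ (q + 1) * FP c ∧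
      BP (2 * (c + q) + 3) s = C (Chi (2 * (c + q) + 3) s) * (X + C 2) ^ (q + 1) * FQ c :=
  mx_AB_S c (q + 1) hs

/-- right leg: `2p` strands `-1` and `2q+1` strands `-2` -/
theorem AB_B (p q : ℕ) {s : ℕ → ℂ}
    (hs : (Multiset.range (2 * (p + q) + 1)).map s = Multiset.replicate (2 * p) (-1) + Multiset.replicate (2 * q + 1) (-2)) :
    AP (2 * (p + q) + 1) s = C (Chi (2 * (p + q) + 1) s) * (X - C 2) ^ p * FPt q ∧
      BP (2 * (p + q) + 1) s = C (Chi (2 * (p + q) + 1) s) * (X - C 2) ^ p * FQt q :=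
  mx_AB_B q p hs

theorem CH_A (m : ℕ) {s : ℕ → ℂ} (hs : ∀ i < 2 * m + 1, s i = 2) (x : ℂ) :
    CH (2 * m + 1) s x * (x - 2) ^ (2 * m + 1) = Chi (2 * m + 1) s * fe m x := by
  have h1 := AB_eval (2 * m + 1) s x
  have h2 : ∏ i ∈ range (2 * m + 1), (x - s i) = (x - 2) ^ (2 * m + 1) := by
    rw [← card_range (2 * m + 1), ← prod_const, card_range]
    exact prod_congr rfl fun i hi => by rw [hs i (mem_range.1 hi)]
  rw [h2, (AB_A m hs).1, (AB_A m hs).2] at h1
  unfold CH fe cc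
  rw [h1, eval_mul, eval_mul, eval_C]
  ring
theorem CH_S (c q : ℕ) {s : ℕ → ℂ}
    (hs : (Multiset.range (2 * (c + q) + 3)).map s = Multiset.replicate (2 * c + 1) 2 + Multiset.replicate (2 * q + 2) 1) (x : ℂ) :
    CH (2 * (c + q) + 3) s x * ((x - 2) ^ (2 * c + 1) * (x - 1) ^ (2 * q + 2)) =
      Chi (2 * (c + q) + 3) s * ((cc x + 2) ^ (q + 1) * fe c x) := by
  have h1 := AB_eval (2 * (c + q) + 3) s x
  rw [mx_prod, hs, Multiset.map_add, Multiset.map_replicate, Multiset.map_replicate, Multiset.prod_add,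
    Multiset.prod_replicate, Multiset.prod_replicate, (AB_S c q hs).1, (AB_S c q hs).2] at h1
  unfold CH fe cc
  rw [h1, eval_mul, eval_mul, eval_mul, eval_mul, eval_C, eval_pow, eval_add, eval_X, eval_C]
  ring
theorem CH_B (p q : ℕ) {s : ℕ → ℂ}
    (hs : (Multiset.range (2 * (p + q) + 1)).map s = Multiset.replicate (2 * p) (-1) + Multiset.replicate (2 * q + 1) (-2)) (x : ℂ) :
    CH (2 * (p + q) + 1) s x * ((x + 1) ^ (2 * p) * (x + 2) ^ (2 * q + 1)) =
      Chi (2 * (p + q) + 1) s * ((cc x - 2) ^ p * ft q x) := by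
  have h1 := AB_eval (2 * (p + q) + 1) s x
  rw [mx_prod, hs, Multiset.map_add, Multiset.map_replicate, Multiset.map_replicate, Multiset.prod_add,
    Multiset.prod_replicate, Multiset.prod_replicate, (AB_B p q hs).1, (AB_B p q hs).2, sub_neg_eq_add,
    sub_neg_eq_add] at h1
  unfold CH ft cc
  rw [h1, eval_mul, eval_mul, eval_mul, eval_mul, eval_C, eval_pow, eval_sub, eval_X, eval_C]
  ring
end IP.Junc
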