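import Pool.Agent.Helper80.J.NodeA
/-! MODULE Node: the recursions, proved in `NodeA.lean` (`FF_nodeA`, `FF_nodeB`, helper76) and `NodeB.lean`
(`GG_node`, `HH_node`, `GG_zero`, `HH_zero`, helper86).
`4 s(x_j - a) s(-x_j - a) = X0 x_j - Xm a`. -/
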