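import Pool.Agent.Helper80.J.NodeB
/-! MODULE Node, first half (helper76): `FF_nodeA`, `FF_nodeB`. -/
namespace IP.Junc
open IP IP.Slit Finset Real

/-- `ins1` above the position commutes with the exchange below -/
theorem NodeA_K (n i : ℕ) (c : ℕ → ℝ) (b : ℕ → ℝ) (x : ℝ) (hi : i ≤ 2 * n + 1)
    (h1 : ∀ j, j < i → X0 (b j) - x = xx c j - xpp c i)
    (h2 : ∀ j, i < j → X0 (b j) - x = xx c (j + 1) - xpp c i) :
    ∏ j ∈ (range (2 * n + 1 + 1)).erase i, (X0 (b j) - x) = 4 ^ (2 * n + 1) * K (n + 1) i c := by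
  have h4 := ssb_K_general (n + 1) i c
  have e1 : (range (2 * (n + 1) + 1)).filter (fun j => j ≠ i ∧ j ≠ i + 1) =
      range i ∪ Ico (i + 2) (2 * n + 3) := by
    ext j
    simp only [mem_filter, mem_range, mem_union, mem_Ico]
    omega
  have d1 : Disjoint (range i) (Ico (i + 2) (2 * n + 3)) := by
    rw [disjoint_left]
    intro j hj hj'
    rw [mem_range] at hj
    rw [mem_Ico] at hj'
    omega
  have e2 : (range (2 * n + 1 + 1)).erase i = range i ∪ Ico (i + 1) (2 * n + 2) := by
    ext j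
    simp only [mem_erase, mem_range, mem_union, mem_Ico]
    omega
  have d2 : Disjoint (range i) (Ico (i + 1) (2 * n + 2)) := by
    rw [disjoint_left]
    intro j hj hj'
    rw [mem_range] at hj
    rw [mem_Ico] at hj'
    omega
  rw [e1, prod_union d1, card_union_of_disjoint d1, card_range, Nat.card_Ico] at h4
  have e3 : (4 : ℝ) ^ (2 * n + 1) = 4 ^ (i + (2 * n + 3 - (i + 2))) := by
    congr 1
    omega
  rw [e2, prod_union d2, e3, h4]
  congr 1
  · refine prod_congr rfl fun j hj => ?_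
    rw [mem_range] at hj
    exact h1 j hj
  · have e4 := prod_Ico_add' (fun l => xx c l - xpp c i) (i + 1) (2 * n + 2) 1
    rw [show i + 1 + 1 = i + 2 by ring, show 2 * n + 2 + 1 = 2 * n + 3 by ring] at e4
    rw [← e4]
    refine prod_congr rfl fun j hj => ?_
    rw [mem_Ico] at hj
    exact h2 j (by omega)

theorem NodeA_base (m k : ℕ) (b : ℕ → ℝ) :
    4 ^ ((m + k + 1) ^ 2 + m ^ 2 + k ^ 2) * FF m k b (b (2 * m) + π / 3) =
      (∏ j ∈ (range (2 * m + 2 * k + 2)).erase (2 * m), (X0 (b j) - Xm (b (2 * m)))) *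
        (4 ^ ((m + k) ^ 2 + m ^ 2 + k ^ 2) * GG m k (del1 (2 * m) b) (b (2 * m))) := by
  set c : ℕ → ℝ := ins1 (2 * m + 1) (b (2 * m) + π / 3) b with hc
  have hlt : ∀ j, j < 2 * m + 1 → c j = b j := by
    intro j hj
    rw [hc]
    unfold ins1
    rw [if_pos hj]
  have heq : c (2 * m + 1) = b (2 * m) + π / 3 := by
    rw [hc]
    unfold ins1
    rw [if_neg (by omega), if_pos rfl]
  have hgt : ∀ j, 2 * m < j → c (j + 1) = b j := by
    intro j hj
    rw [hc]
    unfold ins1
    rw [if_neg (by omega), if_neg (by omega)]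
    rfl
  have hc1 : c (2 * m + 1) = c (2 * m) + π / 3 := by
    rw [heq, hlt _ (by omega)]
  have h1 : V (m + k + 1) c = K (m + k + 1) (2 * m) c • In (2 * m) (V (m + k) (rem (2 * m) c)) :=
    V_rec (by omega) c hc1
  have h2 : rem (2 * m) c = del1 (2 * m) b := by
    funext j
    unfold rem del1 skip
    split_ifs with h
    · exact hlt j (by omega)
    · exact hgt (j + 1) (by omega)
  have h3 : FF m k b (b (2 * m) + π / 3) = K (m + k + 1) (2 * m) c *
      GG m k (del1 (2 * m) b) (b (2 * m)) := by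
    unfold GG FF
    rw [← hc, h1, triC_smul3, h2]
    congr 2
    · apply ssb_V_congr
      intro j hj
      split_ifs with h
      · unfold del1 skip
        rw [if_pos h]
      · congr 2
        omega
    · apply ssb_V_congr
      intro j hj
      unfold del1 skip
      rw [if_neg (by omega)]
      congr 2
      omega
  have h5 : ∏ j ∈ (range (2 * (m + k) + 1 + 1)).erase (2 * m), (X0 (b j) - Xm (b (2 * m))) =
      4 ^ (2 * (m + k) + 1) * K (m + k + 1) (2 * m) c := by
    refine NodeA_K (m + k) (2 * m) c b _ (by omega) ?_ ?_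
    · intro j hj
      unfold xx xpp X0 Xm
      rw [hlt j (by omega), hlt (2 * m) (by omega)]
    · intro j hj
      unfold xx xpp X0 Xm
      rw [hgt j hj, hlt (2 * m) (by omega)]
  rw [h3, show 2 * m + 2 * k + 2 = 2 * (m + k) + 1 + 1 by ring, h5, show (m + k + 1) ^ 2 + m ^ 2 + k ^ 2 =
    (2 * (m + k) + 1) + ((m + k) ^ 2 + m ^ 2 + k ^ 2) by ring, pow_add]
  ring

/-- the tip strand meets the strand `i` of `A` -/
theorem FF_nodeA {m k i : ℕ} (h : i ≤ 2 * m) (b : ℕ → ℝ) :
    4 ^ ((m + k + 1) ^ 2 + m ^ 2 + k ^ 2) * FF m k b (b i + π / 3) =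
      (∏ j ∈ (range (2 * m + 2 * k + 2)).erase i, (X0 (b j) - Xm (b i))) *
        (4 ^ ((m + k) ^ 2 + m ^ 2 + k ^ 2) * GG m k (del1 i b) (b i)) := by
  obtain ⟨d, hd⟩ : ∃ d, i + d = 2 * m := ⟨2 * m - i, by omega⟩
  induction d generalizing i b with
  | zero =>
    rw [Nat.add_zero] at hd
    subst hd
    exact NodeA_base m k b
  | succ d ih =>
    have h1 := ih (i := i + 1) (by omega) (sw i b) (by omega)
    have e : sw i b (i + 1) = b i := by
      unfold sw
      rw [Equiv.swap_apply_right]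
    rw [e, FF_swA (by omega), NodeB_del_sw,
      NodeB_prod_sw (S := range (2 * m + 2 * k + 2)) (by rw [mem_range]; omega) (by rw [mem_range]; omega) b
        (fun t => X0 t - Xm (b i))] at h1
    exact h1

theorem NodeA_baseB (m k : ℕ) (b : ℕ → ℝ) :
    4 ^ ((m + k + 1) ^ 2 + m ^ 2 + k ^ 2) * FF m k b (b (2 * m + 1) - π / 3) =
      (∏ j ∈ (range (2 * m + 2 * k + 2)).erase (2 * m + 1), (X0 (b j) - Xp (b (2 * m + 1)))) *
        (4 ^ ((m + k) ^ 2 + m ^ 2 + k ^ 2) * HH m k (del1 (2 * m + 1) b) (b (2 * m + 1))) := by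
  set c : ℕ → ℝ := ins1 (2 * m + 1) (b (2 * m + 1) - π / 3) b with hc
  have hlt : ∀ j, j < 2 * m + 1 → c j = b j := by
    intro j hj
    rw [hc]
    unfold ins1
    rw [if_pos hj]
  have heq : c (2 * m + 1) = b (2 * m + 1) - π / 3 := by
    rw [hc]
    unfold ins1
    rw [if_neg (by omega), if_pos rfl]
  have hgt : ∀ j, 2 * m < j → c (j + 1) = b j := by
    intro j hj
    rw [hc]
    unfold ins1
    rw [if_neg (by omega), if_neg (by omega)]
    rfl
  have hc1 : c (2 * m + 1 + 1) = c (2 * m + 1) + π / 3 := by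
    rw [heq, hgt _ (by omega)]
    ring
  have h1 : V (m + k + 1) c = K (m + k + 1) (2 * m + 1) c • In (2 * m + 1) (V (m + k) (rem (2 * m + 1) c)) :=
    V_rec (by omega) c hc1
  have h2 : rem (2 * m + 1) c = del1 (2 * m + 1) b := by
    funext j
    unfold rem del1 skip
    split_ifs with h
    · exact hlt j (by omega)
    · exact hgt (j + 1) (by omega)
  have h3 : FF m k b (b (2 * m + 1) - π / 3) = K (m + k + 1) (2 * m + 1) c *
      HH m k (del1 (2 * m + 1) b) (b (2 * m + 1)) := by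
    unfold HH FF
    rw [← hc, h1, triC_smul3, h2]
    congr 2
    · apply ssb_V_congr
      intro j hj
      unfold del1 skip
      rw [if_pos (by omega)]
    · apply ssb_V_congr
      intro j hj
      split_ifs with h
      · rw [h, Nat.add_zero]
      · unfold del1 skip
        rw [if_neg (by omega)]
        congr 2
        omega
  have h5 : ∏ j ∈ (range (2 * (m + k) + 1 + 1)).erase (2 * m + 1), (X0 (b j) - Xp (b (2 * m + 1))) =
      4 ^ (2 * (m + k) + 1) * K (m + k + 1) (2 * m + 1) c := by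
    have e : xpp c (2 * m + 1) = Xp (b (2 * m + 1)) := by
      unfold xpp Xp
      rw [heq, ← Real.cos_add_two_pi]
      congr 2
      ring
    refine NodeA_K (m + k) (2 * m + 1) c b _ (by omega) ?_ ?_
    · intro j hj
      rw [e]
      unfold xx X0
      rw [hlt j (by omega)]
    · intro j hj
      rw [e]
      unfold xx X0
      rw [hgt j (by omega)]
  rw [h3, show 2 * m + 2 * k + 2 = 2 * (m + k) + 1 + 1 by ring, h5, show (m + k + 1) ^ 2 + m ^ 2 + k ^ 2 =
    (2 * (m + k) + 1) + ((m + k) ^ 2 + m ^ 2 + k ^ 2) by ring, pow_add]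
  ring

/-- the tip strand meets the strand `i` of `B` -/
theorem FF_nodeB {m k i : ℕ} (h : 2 * m + 1 ≤ i) (h2 : i ≤ 2 * m + 2 * k + 1) (b : ℕ → ℝ) :
    4 ^ ((m + k + 1) ^ 2 + m ^ 2 + k ^ 2) * FF m k b (b i - π / 3) =
      (∏ j ∈ (range (2 * m + 2 * k + 2)).erase i, (X0 (b j) - Xp (b i))) *
        (4 ^ ((m + k) ^ 2 + m ^ 2 + k ^ 2) * HH m k (del1 i b) (b i)) := by
  obtain ⟨d, hd⟩ := Nat.exists_eq_add_of_le h
  induction d generalizing i b with
  | zero =>
    rw [Nat.add_zero] at hd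
    subst hd
    exact NodeA_baseB m k b
  | succ d ih =>
    obtain ⟨l, rfl⟩ : ∃ l, i = l + 1 := ⟨2 * m + 1 + d, by omega⟩
    have h1 := ih (i := l) (by omega) (by omega) (sw l b) (by omega)
    have e : sw l b l = b (l + 1) := by
      unfold sw
      rw [Equiv.swap_apply_left]
    rw [e, FF_swB (by omega) (by omega), NodeB_del_sw',
      NodeB_prod_sw' (S := range (2 * m + 2 * k + 2)) (by rw [mem_range]; omega)
        (by rw [mem_range]; omega) b (fun t => X0 t - Xp (b (l + 1)))] at h1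
    exact h1
end IP.Junc
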