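import Pool.Agent.Helper80.J.Sym
import Pool.Agent.Helper80.J.Cm
import Pool.Agent.Helper60.Slit.ZChi
import Pool.Agent.Helper60.Slit.SSb
/-! MODULE Node, second half (helper86): `GG_node`, `HH_node`, `GG_zero`, `HH_zero`. -/
namespace IP.Junc
open IP IP.Slit Finset Real

theorem NodeB_ins_del (i : ℕ) (b : ℕ → ℝ) : ins1 i (b i) (del1 i b) = b := by
  funext j
  unfold ins1 del1 skip
  split_ifs with h1 h2
  · rfl
  · rw [h2]
  · omega
  · congr 1; omega

theorem NodeB_del_sw (i : ℕ) (b : ℕ → ℝ) : del1 (i + 1) (sw i b) = del1 i b := by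
  funext j
  unfold del1 sw skip
  rcases lt_trichotomy j i with h | h | h
  · rw [if_pos (by omega), if_pos h, Equiv.swap_apply_of_ne_of_ne (by omega) (by omega)]
  · subst h
    rw [if_pos (by omega), if_neg (by omega), Equiv.swap_apply_left]
  · rw [if_neg (by omega), if_neg (by omega), Equiv.swap_apply_of_ne_of_ne (by omega) (by omega)]

theorem NodeB_del_sw' (i : ℕ) (b : ℕ → ℝ) : del1 i (sw i b) = del1 (i + 1) b := by
  funext j
  unfold del1 sw skip
  rcases lt_trichotomy j i with h | h | h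
  · rw [if_pos (by omega), if_pos (by omega), Equiv.swap_apply_of_ne_of_ne (by omega) (by omega)]
  · subst h
    rw [if_neg (by omega), if_pos (by omega), Equiv.swap_apply_right]
  · rw [if_neg (by omega), if_neg (by omega), Equiv.swap_apply_of_ne_of_ne (by omega) (by omega)]

/-- products over the strands are invariant under the exchange -/
theorem NodeB_prod_sw {S : Finset ℕ} {i : ℕ} (hi : i ∈ S) (hi' : i + 1 ∈ S) (b : ℕ → ℝ) (f : ℝ → ℝ) :
    ∏ j ∈ S.erase (i + 1), f (sw i b j) = ∏ j ∈ S.erase i, f (b j) := by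
  refine prod_nbij (fun j => Equiv.swap i (i + 1) j) ?_ ?_ ?_ ?_
  · intro j hj
    rw [mem_erase] at hj ⊢
    rcases eq_or_ne j i with h | h
    · subst h
      rw [Equiv.swap_apply_left]
      exact ⟨by omega, hi'⟩
    · rw [Equiv.swap_apply_of_ne_of_ne h hj.1]
      exact ⟨h, hj.2⟩
  · intro j _ l _ h
    exact (Equiv.swap i (i + 1)).injective h
  · intro j hj
    rw [mem_coe, mem_erase] at hj
    refine ⟨Equiv.swap i (i + 1) j, ?_, Equiv.swap_apply_self i (i + 1) j⟩
    rw [mem_coe, mem_erase]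
    rcases eq_or_ne j (i + 1) with h | h
    · subst h
      rw [Equiv.swap_apply_right]
      exact ⟨by omega, hi⟩
    · rw [Equiv.swap_apply_of_ne_of_ne hj.1 h]
      exact ⟨h, hj.2⟩
  · intro j _
    rfl

theorem NodeB_prod_sw' {S : Finset ℕ} {i : ℕ} (hi : i ∈ S) (hi' : i + 1 ∈ S) (b : ℕ → ℝ) (f : ℝ → ℝ) :
    ∏ j ∈ S.erase i, f (sw i b j) = ∏ j ∈ S.erase (i + 1), f (b j) := by
  have h := NodeB_prod_sw hi hi' (sw i b) f
  have e : sw i (sw i b) = b := by
    funext j
    unfold sw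
    rw [Equiv.swap_apply_self]
  rw [e] at h
  exact h.symm

theorem NodeB_GG_last (m k : ℕ) (b : ℕ → ℝ) :
    4 ^ ((m + 1 + k) ^ 2 + (m + 1) ^ 2 + k ^ 2) * GG (m + 1) k b (b (2 * m + 1) - π / 3) =
      (∏ j ∈ (range (2 * (m + 1))).erase (2 * m + 1), (X0 (b j) - Xp (b (2 * m + 1)))) *
        (4 ^ ((m + k + 1) ^ 2 + m ^ 2 + k ^ 2) * FF m k (del1 (2 * m + 1) b) (b (2 * m + 1))) := by
  set c : ℕ → ℝ := fun j => if j < 2 * (m + 1) then -b j else -(b (2 * m + 1) - π / 3) with hc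
  have hc1 : c (2 * m + 1 + 1) = c (2 * m + 1) + π / 3 := by
    rw [hc]
    simp only
    rw [if_neg (by omega), if_pos (by omega)]
    ring
  have h1 : V (m + 1) c = K (m + 1) (2 * m + 1) c • In (2 * m + 1) (V m (rem (2 * m + 1) c)) :=
    V_rec (by omega) c hc1
  have h2 : V m (rem (2 * m + 1) c) = V m (fun j => -del1 (2 * m + 1) b j) := by
    apply ssb_V_congr
    intro j hj
    unfold rem del1 skip
    rw [if_pos (by omega), if_pos (by omega), hc]
    simp only
    rw [if_pos (by omega)]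
  have h3 : GG (m + 1) k b (b (2 * m + 1) - π / 3) = K (m + 1) (2 * m + 1) c *
      FF m k (del1 (2 * m + 1) b) (b (2 * m + 1)) := by
    unfold GG FF
    rw [← hc, h1, triC_smul1, h2, NodeB_ins_del, show 2 * (m + 1) = 2 * m + 2 by ring,
      show m + 1 + k = m + k + 1 by ring,
      triC_tipL m k (V_Sup _ _) (V_Sup _ _) (V_Sup _ _)]
    congr 3
    funext j
    unfold del1 skip
    rw [if_neg (by omega)]
    congr 2
    omega
  have h4 := ssb_K_general (m + 1) (2 * m + 1) c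
  have e1 : (range (2 * (m + 1) + 1)).filter (fun j => j ≠ 2 * m + 1 ∧ j ≠ 2 * m + 1 + 1) =
      range (2 * m + 1) := by
    ext j
    simp only [mem_filter, mem_range]
    omega
  have e2 : (range (2 * (m + 1))).erase (2 * m + 1) = range (2 * m + 1) := by
    ext j
    simp only [mem_erase, mem_range]
    omega
  rw [e1, card_range] at h4
  have h5 : ∏ j ∈ range (2 * m + 1), (X0 (b j) - Xp (b (2 * m + 1))) =
      4 ^ (2 * m + 1) * K (m + 1) (2 * m + 1) c := by
    rw [h4]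
    refine prod_congr rfl fun j hj => ?_
    rw [mem_range] at hj
    unfold xx xpp X0 Xp
    rw [hc]
    simp only
    rw [if_pos (by omega), if_pos (by omega), mul_neg, Real.cos_neg]
    congr 2
    rw [← Real.cos_neg]
    congr 1
    ring
  rw [h3, e2, h5, show (m + 1 + k) ^ 2 + (m + 1) ^ 2 + k ^ 2 =
    (2 * m + 1) + ((m + k + 1) ^ 2 + m ^ 2 + k ^ 2) by ring, pow_add]
  ring

theorem GG_node {m k i : ℕ} (h : i < 2 * (m + 1)) (b : ℕ → ℝ) :
    4 ^ ((m + 1 + k) ^ 2 + (m + 1) ^ 2 + k ^ 2) * GG (m + 1) k b (b i - π / 3) =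
      (∏ j ∈ (range (2 * (m + 1))).erase i, (X0 (b j) - Xp (b i))) *
        (4 ^ ((m + k + 1) ^ 2 + m ^ 2 + k ^ 2) * FF m k (del1 i b) (b i)) := by
  obtain ⟨d, hd⟩ : ∃ d, i + d = 2 * m + 1 := ⟨2 * m + 1 - i, by omega⟩
  induction d generalizing i b with
  | zero =>
    rw [Nat.add_zero] at hd
    subst hd
    exact NodeB_GG_last m k b
  | succ d ih =>
    have h1 := ih (i := i + 1) (by omega) (sw i b) (by omega)
    have e : sw i b (i + 1) = b i := by
      unfold sw
      rw [Equiv.swap_apply_right]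
    rw [e, GG_swA (by omega), NodeB_del_sw,
      NodeB_prod_sw (S := range (2 * (m + 1))) (by rw [mem_range]; omega) (by rw [mem_range]; omega) b
        (fun t => X0 t - Xp (b i))] at h1
    exact h1

theorem NodeB_HH_first (m k : ℕ) (b : ℕ → ℝ) :
    4 ^ ((m + (k + 1)) ^ 2 + m ^ 2 + (k + 1) ^ 2) * HH m (k + 1) b (b (2 * m + 1) + π / 3) =
      (∏ j ∈ (Ico (2 * m + 1) (2 * m + 2 * k + 3)).erase (2 * m + 1), (X0 (b (2 * m + 1)) - Xp (b j))) *
        (4 ^ ((m + k + 1) ^ 2 + m ^ 2 + k ^ 2) * FF m k (del1 (2 * m + 1) b) (b (2 * m + 1))) := by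
  set c : ℕ → ℝ := fun j => if j = 0 then π / 6 - (b (2 * m + 1) + π / 3) else π / 6 - b (2 * m + j) with hc
  have hc1 : c (0 + 1) = c 0 + π / 3 := by
    rw [hc]
    simp only
    rw [if_neg (by omega), if_pos trivial]
    ring
  have h1 : V (k + 1) c = K (k + 1) 0 c • In 0 (V k (rem 0 c)) := V_rec (by omega) c hc1
  have h2 : V k (rem 0 c) = V k (fun j => π / 6 - del1 (2 * m + 1) b (2 * m + 1 + j)) := by
    refine congrArg (V k) ?_
    funext j
    unfold rem del1 skip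
    rw [if_neg (by omega), if_neg (by omega), hc]
    simp only
    rw [if_neg (by omega)]
    congr 2
    omega
  have h2' : V m (fun j => -b j) = V m (fun j => -del1 (2 * m + 1) b j) := by
    apply ssb_V_congr
    intro j hj
    unfold del1 skip
    rw [if_pos (by omega)]
  have h3 : HH m (k + 1) b (b (2 * m + 1) + π / 3) = K (k + 1) 0 c *
      FF m k (del1 (2 * m + 1) b) (b (2 * m + 1)) := by
    unfold HH FF
    rw [← hc, h1, triC_smul2, h2, NodeB_ins_del, show m + (k + 1) = m + k + 1 by ring,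
      triC_tipR m k (V_Sup _ _) (V_Sup _ _) (V_Sup _ _), h2']
  have h4 := zf_K_zero k c
  have h5 : ∏ j ∈ (Ico (2 * m + 1) (2 * m + 2 * k + 3)).erase (2 * m + 1),
      (X0 (b (2 * m + 1)) - Xp (b j)) = 4 ^ (2 * k + 1) * K (k + 1) 0 c := by
    rw [h4]
    have e1 : (Ico (2 * m + 1) (2 * m + 2 * k + 3)).erase (2 * m + 1) =
        Ico (2 + 2 * m) ((2 * k + 1 + 2) + 2 * m) := by
      ext j
      simp only [mem_erase, mem_Ico]
      omega
    rw [e1, ← prod_Ico_add']
    refine prod_congr rfl fun j hj => ?_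
    rw [mem_Ico] at hj
    unfold X0 Xp
    rw [hc]
    simp only
    rw [if_neg (by omega), if_pos trivial]
    have t1 : Real.cos (2 * (π / 6 - b (2 * m + j))) = -Real.cos (2 * b (j + 2 * m) + 2 * π / 3) := by
      rw [← Real.cos_pi_sub, add_comm j]
      congr 1
      ring
    have t2 : Real.cos (2 * (π / 6 - (b (2 * m + 1) + π / 3)) - 2 * π / 3) =
        -Real.cos (2 * b (2 * m + 1)) := by
      rw [← Real.cos_add_pi, ← Real.cos_neg]
      congr 1
      ring
    rw [t1, t2]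
    ring
  rw [h3, h5, show (m + (k + 1)) ^ 2 + m ^ 2 + (k + 1) ^ 2 =
    (2 * k + 1) + ((m + k + 1) ^ 2 + m ^ 2 + k ^ 2) by ring, pow_add]
  ring

theorem HH_node {m k i : ℕ} (h : 2 * m + 1 ≤ i) (h2 : i ≤ 2 * m + 2 * (k + 1)) (b : ℕ → ℝ) :
    4 ^ ((m + (k + 1)) ^ 2 + m ^ 2 + (k + 1) ^ 2) * HH m (k + 1) b (b i + π / 3) =
      (∏ j ∈ (Ico (2 * m + 1) (2 * m + 2 * k + 3)).erase i, (X0 (b i) - Xp (b j))) *
        (4 ^ ((m + k + 1) ^ 2 + m ^ 2 + k ^ 2) * FF m k (del1 i b) (b i)) := by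
  obtain ⟨d, hd⟩ := Nat.exists_eq_add_of_le h
  induction d generalizing i b with
  | zero =>
    rw [Nat.add_zero] at hd
    subst hd
    exact NodeB_HH_first m k b
  | succ d ih =>
    obtain ⟨l, rfl⟩ : ∃ l, i = l + 1 := ⟨2 * m + 1 + d, by omega⟩
    have h1 := ih (i := l) (by omega) (by omega) (sw l b) (by omega)
    have e : sw l b l = b (l + 1) := by
      unfold sw
      rw [Equiv.swap_apply_left]
    rw [e, HH_swB (by omega) (by omega), NodeB_del_sw',
      NodeB_prod_sw' (S := Ico (2 * m + 1) (2 * m + 2 * k + 3)) (by rw [mem_Ico]; omega)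
        (by rw [mem_Ico]; omega) b (fun t => X0 (b (l + 1)) - Xp t)] at h1
    exact h1

theorem GG_zero (k : ℕ) (b : ℕ → ℝ) (y : ℝ) :
    4 ^ ((0 + k) ^ 2 + 0 ^ 2 + k ^ 2) * GG 0 k b y =
      (-1) ^ k * (Chi (2 * k + 1) (fun j => Xp (b j)) * Chi (2 * k + 1) (fun j => X0 (b j))) := by
  have h1 : GG 0 k b y = Z k (fun j => π / 6 - b (2 * 0 + j)) * Z k b := by
    unfold GG triC
    rw [mul_zero, zero_add, tri_tip_zero k (V_Sup 0 _) (V_Sup k _) (V_Sup k _), sub_zero, tot_In, V_zero,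
      tot_single]
    unfold Z
    ring
  have h2 := Z_Chi k b
  have h3 := Z_Chi k (fun j => π / 6 - b (2 * 0 + j))
  have h4 : xx (fun j => π / 6 - b (2 * 0 + j)) = fun j => -Xp (b j) := by
    funext j
    unfold xx Xp
    simp only
    rw [← mul_neg, ← Real.cos_pi_sub, mul_zero, zero_add]
    congr 2
    ring
  have h5 : xx b = fun j => X0 (b j) := rfl
  rw [h4, Chi_neg] at h3
  rw [h5] at h2
  rw [h1, ← h2, show (0 + k) ^ 2 + 0 ^ 2 + k ^ 2 = k ^ 2 + k ^ 2 by ring, pow_add]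
  linear_combination (4 ^ (k ^ 2) * Z k b) * h3

theorem HH_zero (m : ℕ) (b : ℕ → ℝ) (y : ℝ) : HH m 0 b y = 0 := by
  unfold HH triC
  simp only [Nat.add_zero]
  rw [tri_tip_full m (V_Sup m _) (V_Sup 0 _) (V_Sup m _), tot_In, sub_self]
end IP.Junc
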