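import Pool.Agent.Helper80.J.HomDefs
import Pool.Agent.Helper80.J.TermJ
/-! MODULE PAIR: the wheel pairs `X0 (α k)`, `Xp (α k)` (third root `Xm (α k)`), `2n0+1 ≤ k ≤ 2(n0+p)`, in the lower leg:
`ch (x :: pairs + T) ch T = ch (pairs + T) ∏ (x - Xm (α k)) ch (x :: T)`, by induction on the pairs (`ch_wheel`). -/
namespace IP.Junc
open IP IP.Slit Finset

/-- removal of the pairs one by one -/
theorem pj_one (a : ℝ) (ha : X0 a ≠ Xp a) (s : Multiset ℝ) :
    ch (X0 a ::ₘ Xp a ::ₘ s) = (s.map fun t => t - Xm a).prod * ch s := by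
  rw [ch_wheel (rh_qq_p a) ha s]
  congr 2
  refine Multiset.map_congr rfl fun t _ => ?_
  have := rh_sum a
  linarith

theorem pj_cons (T : Multiset ℝ) (a : ℝ) (l : List ℝ) :
    (((a :: l).map X0 : List ℝ) + ((a :: l).map Xp : List ℝ) + T : Multiset ℝ) =
      X0 a ::ₘ Xp a ::ₘ ((l.map X0 : List ℝ) + (l.map Xp : List ℝ) + T) := by
  rw [List.map_cons, List.map_cons, ← Multiset.cons_coe, ← Multiset.cons_coe, Multiset.cons_add, Multiset.add_cons,
    Multiset.cons_add, Multiset.cons_add]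

/-- multiset form -/
theorem pair_ch (T : Multiset ℝ) (l : List ℝ) (hl : ∀ a ∈ l, X0 a ≠ Xp a) (x : ℝ) :
    ch (x ::ₘ ((l.map X0 : List ℝ) + (l.map Xp : List ℝ) + T)) * ch T =
      ch ((l.map X0 : List ℝ) + (l.map Xp : List ℝ) + T) * (l.map fun a => x - Xm a).prod * ch (x ::ₘ T) := by
  induction l with
  | nil =>
    simp only [List.map_nil, Multiset.coe_nil, zero_add, List.prod_nil, mul_one]
    ring
  | cons a l ih =>
    have ih' := ih fun b hb => hl b (List.mem_cons_of_mem _ hb)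
    have ha := hl a List.mem_cons_self
    rw [pj_cons, Multiset.cons_swap x (X0 a), Multiset.cons_swap x (Xp a), pj_one a ha, pj_one a ha, Multiset.map_cons,
      Multiset.prod_cons, List.map_cons, List.prod_cons]
    linear_combination (x - Xm a) * (Multiset.map (fun t => t - Xm a)
      ((l.map X0 : List ℝ) + (l.map Xp : List ℝ) + T : Multiset ℝ)).prod * ih'

/-- the reduced leg -/
theorem pj_T (n0 q : ℕ) (α ρ : ℕ → ℝ) (y : ℝ) :
    (range (2 * (n0 + q) + 3)).val.map (fun i => X0 (ins1 (2 * n0 + 1) y (b1 n0 α ρ) i)) =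
      X0 y ::ₘ ((range (2 * n0 + 1)).val.map (fun i => X0 (α i)) + (range (2 * q + 1)).val.map (fun l => X0 (ρ l))) := by
  rw [show 2 * (n0 + q) + 3 = 2 * n0 + 1 + 1 + (2 * q + 1) by ring, tj_S]
  congr 2
  · refine Multiset.map_congr rfl fun i hi => ?_
    rw [Finset.range_val, Multiset.mem_range] at hi
    unfold b1
    rw [if_pos hi]
  · refine Multiset.map_congr rfl fun i hi => ?_
    unfold b1
    rw [if_neg (by omega), Nat.add_sub_cancel_left]

theorem pj_range_add (a b : ℕ) (f : ℕ → ℝ) :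
    (range (a + b)).val.map f = (range a).val.map f + (range b).val.map (fun j => f (a + j)) := by
  induction b with
  | zero => simp
  | succ b ih =>
    rw [← add_assoc, Finset.range_val, Multiset.range_succ, Multiset.map_cons, ← Finset.range_val, ih, Finset.range_val,
      Finset.range_val, Finset.range_val, Multiset.range_succ b, Multiset.map_cons, Multiset.add_cons]

theorem pj_list (a b : ℕ) (α f : ℕ → ℝ) (g : ℝ → ℝ) (h : ∀ j < b, f j = g (α (a + j))) :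
    (range b).val.map f = (((((List.range b).map fun j => α (a + j)).map g) : List ℝ) : Multiset ℝ) := by
  rw [Finset.range_val, List.map_map, ← Multiset.map_coe, Multiset.coe_range]
  refine Multiset.map_congr rfl fun j hj => ?_
  rw [Multiset.mem_range] at hj
  exact h j hj

/-- the whole leg -/
theorem pj_S (n0 p q : ℕ) (α ρ : ℕ → ℝ) (y : ℝ) :
    (range (2 * (n0 + p + (p + q)) + 3)).val.map (fun i => X0 (ins1 (2 * (n0 + p) + 1) y (bc (n0 + p) n0 q α ρ) i)) =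
      (((List.range (2 * p)).map fun j => α (2 * n0 + 1 + j)).map X0 : List ℝ) +
        (((List.range (2 * p)).map fun j => α (2 * n0 + 1 + j)).map Xp : List ℝ) +
      (X0 y ::ₘ ((range (2 * n0 + 1)).val.map (fun i => X0 (α i)) + (range (2 * q + 1)).val.map (fun l => X0 (ρ l)))) := by
  rw [show 2 * (n0 + p + (p + q)) + 3 = 2 * (n0 + p) + 1 + 1 + (2 * q + 1 + 2 * p) by ring, tj_S, pj_range_add (2 * q + 1) (2 * p),
    show 2 * (n0 + p) + 1 = 2 * n0 + 1 + 2 * p by ring, pj_range_add (2 * n0 + 1) (2 * p),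
    pj_list (2 * n0 + 1) (2 * p) α (fun j => X0 (bc (n0 + p) n0 q α ρ (2 * n0 + 1 + j))) X0
      (fun j hj => by unfold bc; rw [if_pos (by omega)]),
    pj_list (2 * n0 + 1) (2 * p) α (fun j => X0 (bc (n0 + p) n0 q α ρ (2 * n0 + 1 + 2 * p + (2 * q + 1 + j)))) Xp
      (fun j hj => by
        unfold bc
        rw [if_neg (by omega), if_neg (by omega),
          show 2 * n0 + 1 + 2 * p + (2 * q + 1 + j) - (2 * (n0 + p) + 1 + (2 * q + 1)) = j by omega, X0_add])]
  have h1 : (range (2 * n0 + 1)).val.map (fun i => X0 (bc (n0 + p) n0 q α ρ i)) = (range (2 * n0 + 1)).val.map fun i => X0 (α i) := by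
    refine Multiset.map_congr rfl fun i hi => ?_
    rw [Finset.range_val, Multiset.mem_range] at hi
    unfold bc
    rw [if_pos (by omega)]
  have h2 : (range (2 * q + 1)).val.map (fun j => X0 (bc (n0 + p) n0 q α ρ (2 * n0 + 1 + 2 * p + j))) =
      (range (2 * q + 1)).val.map fun l => X0 (ρ l) := by
    refine Multiset.map_congr rfl fun i hi => ?_
    rw [Finset.range_val, Multiset.mem_range] at hi
    unfold bc
    rw [if_neg (by omega), if_pos (by omega), show 2 * n0 + 1 + 2 * p + i - (2 * (n0 + p) + 1) = i by omega]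
  rw [h1, h2]
  simp only [Multiset.add_cons]
  congr 1
  abel

theorem pj_poly (r : ℕ) (s : ℕ → ℂ) : ∃ P : Polynomial ℂ, ∀ x, CH r s x = P.eval x := by
  obtain ⟨P, _, _, h⟩ := Chi_lead r s
  exact ⟨P, h⟩

theorem pj_real (n0 p q : ℕ) {α ρ : ℕ → ℝ} (hα : ∀ k < 2 * (n0 + p) + 1, X0 (α k) ≠ Xp (α k)) (y : ℝ) (x : ℝ) :
    CH (2 * (n0 + p + (p + q)) + 3) (sS (n0 + p) (bc (n0 + p) n0 q α ρ) y) (x : ℂ) *
        Chi (2 * (n0 + q) + 3) (sS n0 (b1 n0 α ρ) y) =
      Chi (2 * (n0 + p + (p + q)) + 3) (sS (n0 + p) (bc (n0 + p) n0 q α ρ) y) *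
        (∏ k ∈ Ico (2 * n0 + 1) (2 * (n0 + p) + 1), ((x : ℂ) - ((Xm (α k) : ℝ) : ℂ))) *
        CH (2 * (n0 + q) + 3) (sS n0 (b1 n0 α ρ) y) (x : ℂ) := by
  have h := pair_ch (X0 y ::ₘ ((range (2 * n0 + 1)).val.map (fun i => X0 (α i)) + (range (2 * q + 1)).val.map (fun l => X0 (ρ l))))
    ((List.range (2 * p)).map fun j => α (2 * n0 + 1 + j)) (by
      intro a ha
      obtain ⟨j, hj, rfl⟩ := List.mem_map.1 ha
      rw [List.mem_range] at hj
      exact hα _ (by omega)) x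
  rw [← pj_S n0 p q α ρ y, ← pj_T n0 q α ρ y] at h
  have c1 : CH (2 * (n0 + p + (p + q)) + 3) (sS (n0 + p) (bc (n0 + p) n0 q α ρ) y) (x : ℂ) = _ :=
    tj_CH (2 * (n0 + p + (p + q)) + 3) (fun i => X0 (ins1 (2 * (n0 + p) + 1) y (bc (n0 + p) n0 q α ρ) i)) x
  have c2 : CH (2 * (n0 + q) + 3) (sS n0 (b1 n0 α ρ) y) (x : ℂ) = _ :=
    tj_CH (2 * (n0 + q) + 3) (fun i => X0 (ins1 (2 * n0 + 1) y (b1 n0 α ρ) i)) x
  have c3 : Chi (2 * (n0 + q) + 3) (sS n0 (b1 n0 α ρ) y) =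
      ((ch ((range (2 * (n0 + q) + 3)).val.map (fun i => X0 (ins1 (2 * n0 + 1) y (b1 n0 α ρ) i))) : ℝ) : ℂ) := by
    rw [ch_range, ← Chi_ofReal]
    rfl
  have c4 : Chi (2 * (n0 + p + (p + q)) + 3) (sS (n0 + p) (bc (n0 + p) n0 q α ρ) y) =
      ((ch ((range (2 * (n0 + p + (p + q)) + 3)).val.map
        (fun i => X0 (ins1 (2 * (n0 + p) + 1) y (bc (n0 + p) n0 q α ρ) i))) : ℝ) : ℂ) := by
    rw [ch_range, ← Chi_ofReal]
    rfl
  have c5 : (∏ k ∈ Ico (2 * n0 + 1) (2 * (n0 + p) + 1), ((x : ℂ) - ((Xm (α k) : ℝ) : ℂ))) =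
      (((((List.range (2 * p)).map fun j => α (2 * n0 + 1 + j)).map fun a => x - Xm a).prod : ℝ) : ℂ) := by
    rw [prod_Ico_eq_prod_range, show 2 * (n0 + p) + 1 - (2 * n0 + 1) = 2 * p by omega, List.map_map]
    have : (((List.range (2 * p)).map ((fun a => x - Xm a) ∘ fun j => α (2 * n0 + 1 + j))).prod : ℝ) =
        ∏ j ∈ range (2 * p), (x - Xm (α (2 * n0 + 1 + j))) := by
      rw [Finset.prod_eq_multiset_prod, Finset.range_val, ← Multiset.coe_range, Multiset.map_coe, Multiset.prod_coe]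
      rfl
    rw [this]
    push_cast
    rfl
  rw [c1, c2, c3, c4, c5]
  exact_mod_cast h

theorem pair_CH (n0 p q : ℕ) {α ρ : ℕ → ℝ} (hα : ∀ k < 2 * (n0 + p) + 1, X0 (α k) ≠ Xp (α k)) (y : ℝ) (x : ℂ) :
    CH (2 * (n0 + p + (p + q)) + 3) (sS (n0 + p) (bc (n0 + p) n0 q α ρ) y) x *
        Chi (2 * (n0 + q) + 3) (sS n0 (b1 n0 α ρ) y) =
      Chi (2 * (n0 + p + (p + q)) + 3) (sS (n0 + p) (bc (n0 + p) n0 q α ρ) y) *
        (∏ k ∈ Ico (2 * n0 + 1) (2 * (n0 + p) + 1), (x - ((Xm (α k) : ℝ) : ℂ))) *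
        CH (2 * (n0 + q) + 3) (sS n0 (b1 n0 α ρ) y) x := by
  obtain ⟨P, hP⟩ := pj_poly (2 * (n0 + p + (p + q)) + 3) (sS (n0 + p) (bc (n0 + p) n0 q α ρ) y)
  obtain ⟨Q, hQ⟩ := pj_poly (2 * (n0 + q) + 3) (sS n0 (b1 n0 α ρ) y)
  set c := Chi (2 * (n0 + q) + 3) (sS n0 (b1 n0 α ρ) y)
  set d := Chi (2 * (n0 + p + (p + q)) + 3) (sS (n0 + p) (bc (n0 + p) n0 q α ρ) y)
  have key : P * Polynomial.C c = Polynomial.C d *
      (∏ k ∈ Ico (2 * n0 + 1) (2 * (n0 + p) + 1), (Polynomial.X - Polynomial.C ((Xm (α k) : ℝ) : ℂ))) * Q := by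
    refine Polynomial.eq_of_infinite_eval_eq _ _ ?_
    refine Set.Infinite.mono (s := Set.range fun x : ℝ => (x : ℂ)) ?_ (Set.infinite_range_of_injective Complex.ofReal_injective)
    rintro _ ⟨t, rfl⟩
    have := pj_real n0 p q (ρ := ρ) hα y t
    rw [hP, hQ] at this
    simp only [Set.mem_setOf_eq, Polynomial.eval_mul, Polynomial.eval_C, Polynomial.eval_prod, Polynomial.eval_sub,
      Polynomial.eval_X]
    exact this
  have := congrArg (Polynomial.eval x) key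
  simp only [Polynomial.eval_mul, Polynomial.eval_C, Polynomial.eval_prod, Polynomial.eval_sub, Polynomial.eval_X] at this
  rw [hP, hQ]
  exact this
end IP.Junc
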