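import Pool.Agent.Helper80.J.SymH
/-! MODULE Sym: exchange of strands inside the groups and three reflections, degrees in `y`.
`FF_*` are in `SymF.lean`, `GG_*` in `SymG.lean`, `HH_*` in `SymH.lean`. -/
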