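import Pool.Agent.Helper80.J.SymF
/-! MODULE SymG: symmetries and degrees of `GG` (part of `Sym.lean`), proved by helper40. -/
namespace IP.Junc
open IP IP.Slit Finset Real

/-- the parameters of the upper leg -/
def symg_nL (m : ℕ) (b : ℕ → ℝ) (y : ℝ) : ℕ → ℝ := fun j => if j < 2 * m then -b j else -y
/-- the parameters of the right leg -/
noncomputable def symg_nR (m : ℕ) (b : ℕ → ℝ) : ℕ → ℝ := fun j => π / 6 - b (2 * m + j)

theorem symg_def (m k : ℕ) (b : ℕ → ℝ) (y : ℝ) :
    GG m k b y = triC m k (V m (symg_nL m b y)) (V k (symg_nR m b)) (In (2 * m) (V (m + k) b)) := rfl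

theorem symg_Sup (m k : ℕ) (b : ℕ → ℝ) : In (2 * m) (V (m + k) b) ∈ Sup (W (m + k + 1)) :=
  In_Sup (by omega) (V_Sup _ _)

theorem symg_sum (m k : ℕ) (b : ℕ → ℝ) (y : ℝ) : GG m k b y = ∑ t1 ∈ (W_finite m).toFinset,
    ∑ t2 ∈ (W_finite k).toFinset, ∑ σ ∈ (W_finite (m + k + 1)).toFinset,
      V m (symg_nL m b y) t1 * V k (symg_nR m b) t2 * In (2 * m) (V (m + k) b) σ *
        (1 - cf m k t1 t2 σ) := by
  rw [symg_def, symf_triC_sum m k (V_Sup m _) (V_Sup k _) (symg_Sup m k b)]

theorem symg_nL_update_lt {m j : ℕ} (h : j < 2 * m) (b : ℕ → ℝ) (y x : ℝ) :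
    symg_nL m (Function.update b j x) y = Function.update (symg_nL m b y) j (-x) := by
  funext i
  unfold symg_nL
  by_cases h1 : i = j
  · subst h1
    rw [Function.update_self, Function.update_self, if_pos h]
  · rw [Function.update_of_ne h1, Function.update_of_ne h1]

theorem symg_nL_update_ge {m j : ℕ} (h : 2 * m ≤ j) (b : ℕ → ℝ) (y x : ℝ) :
    symg_nL m (Function.update b j x) y = symg_nL m b y := by
  funext i
  unfold symg_nL
  by_cases h1 : i < 2 * m
  · rw [if_pos h1, if_pos h1, Function.update_of_ne (by omega)]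
  · rw [if_neg h1, if_neg h1]

theorem symg_nR_update (m j : ℕ) (b : ℕ → ℝ) (x : ℝ) :
    symg_nR m (Function.update b (2 * m + j) x) = Function.update (symg_nR m b) j (π / 6 - x) := by
  funext i
  unfold symg_nR
  by_cases h : i = j
  · subst h
    rw [Function.update_self, Function.update_self]
  · rw [Function.update_of_ne h, Function.update_of_ne (by omega)]

theorem symg_nR_update_lt {m j : ℕ} (h : j < 2 * m) (b : ℕ → ℝ) (x : ℝ) :
    symg_nR m (Function.update b j x) = symg_nR m b := by
  funext i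
  unfold symg_nR
  rw [Function.update_of_ne (by omega)]

theorem GG_Sep (m k : ℕ) (y : ℝ) :
    Sep (2 * (m + k) + 1) (2 * m + 2 * k + 2 * (m + k)) (fun b => GG m k b y) := by
  simp only [symg_sum]
  refine Sep.sum _ fun t1 _ => Sep.sum _ fun t2 _ => Sep.sum _ fun σ _ => ?_
  have e1 : Sep (2 * (m + k) + 1) (2 * m) (fun b => V m (symg_nL m b y) t1) := by
    refine symf_comp (V_Sep m t1) (fun b => symg_nL m b y) (fun b j hj => ?_) (fun b b' h i hi => ?_)
    · by_cases h : j < 2 * m
      · refine Or.inr (Or.inl ⟨j, by omega, 0, fun x i _ => ?_⟩)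
        rw [symg_nL_update_lt h, zero_sub]
      · exact Or.inr (Or.inr fun x i hi => by rw [symg_nL_update_ge (not_lt.1 h)])
    · unfold symg_nL
      by_cases h1 : i < 2 * m
      · rw [if_pos h1, if_pos h1, h i (by omega)]
      · rw [if_neg h1, if_neg h1]
  have e2 : Sep (2 * (m + k) + 1) (2 * k) (fun b => V k (symg_nR m b) t2) := by
    refine symf_comp (V_Sep k t2) (symg_nR m) (fun b j hj => ?_) (fun b b' h i hi => ?_)
    · by_cases h : j < 2 * m
      · exact Or.inr (Or.inr fun x i _ => by rw [symg_nR_update_lt h])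
      · obtain ⟨j', rfl⟩ := Nat.exists_eq_add_of_le (not_lt.1 h)
        exact Or.inr (Or.inl ⟨j', by omega, π / 6, fun x i _ => by rw [symg_nR_update]⟩)
    · unfold symg_nR
      rw [h _ (by omega)]
  have e3 : Sep (2 * (m + k) + 1) (2 * (m + k)) (fun b => In (2 * m) (V (m + k) b) σ) :=
    rc_In_V_Sep (m + k) (2 * m) σ
  have := ((e1.mul e2).mul e3).smul (1 - cf m k t1 t2 σ)
  convert this using 1
  funext b
  ring

theorem GG_TP (m k : ℕ) (b : ℕ → ℝ) : TP (2 * m) (GG m k b) := by
  have e : GG m k b = fun y => ∑ t1 ∈ (W_finite m).toFinset,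
      ∑ t2 ∈ (W_finite k).toFinset, ∑ σ ∈ (W_finite (m + k + 1)).toFinset,
        V m (symg_nL m b y) t1 * V k (symg_nR m b) t2 * In (2 * m) (V (m + k) b) σ *
          (1 - cf m k t1 t2 σ) := funext fun y => symg_sum m k b y
  rw [e]
  refine TP.sum _ fun t1 _ => TP.sum _ fun t2 _ => TP.sum _ fun σ _ => ?_
  have e2 : TP (2 * m) (fun y => V m (symg_nL m b y) t1) := by
    have e3 : (fun y => V m (symg_nL m b y) t1) =
        fun y => V m (Function.update (symg_nL m b 0) (2 * m) (-y)) t1 := by
      funext y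
      refine (V_Sep m t1).2 _ _ fun j hj => ?_
      unfold symg_nL
      by_cases h : j = 2 * m
      · subst h
        rw [Function.update_self, if_neg (lt_irrefl _)]
      · rw [Function.update_of_ne h, if_pos (by omega), if_pos (by omega)]
    rw [e3]
    exact ((V_Sep m t1).1 (symg_nL m b 0) (2 * m) (by omega)).comp_neg
  have := e2.smul (V k (symg_nR m b) t2 * In (2 * m) (V (m + k) b) σ * (1 - cf m k t1 t2 σ))
  convert this using 1
  funext y
  ring

theorem GG_swA {m k i : ℕ} (h : i + 1 < 2 * m) (b : ℕ → ℝ) (y : ℝ) : GG m k (sw i b) y = GG m k b y := by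
  refine symf_of_mul (by omega) (GG_Sep m k y) (fun b => ?_) b
  have hv := V_sw (n := m + k) (i := i) (by omega) b
  have hw := V_sw (n := m) (i := i) (by omega) (symg_nL m b y)
  have hd : symg_nL m b y i - symg_nL m b y (i + 1) = -(b i - b (i + 1)) := by
    unfold symg_nL
    rw [if_pos (by omega), if_pos h]
    ring
  rw [hd] at hw
  set u := b i - b (i + 1) with hu
  have es : symg_nL m (sw i b) y = sw i (symg_nL m b y) := by
    funext j
    by_cases h1 : j = i
    · subst h1
      rw [nb_sw_left]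
      unfold symg_nL
      rw [if_pos (by omega), if_pos h, nb_sw_left]
    · by_cases h2 : j = i + 1
      · subst h2
        rw [nb_sw_right]
        unfold symg_nL
        rw [if_pos h, if_pos (by omega), nb_sw_right]
      · rw [nb_sw_ne h1 h2]
        unfold symg_nL
        rw [nb_sw_ne h1 h2]
  have er : symg_nR m (sw i b) = symg_nR m b := by
    funext j
    unfold symg_nR
    rw [nb_sw_ne (by omega) (by omega)]
  rw [symg_def, symg_def, er, es]
  have e1 : s u * s (-u) * triC m k (V m (sw i (symg_nL m b y))) (V k (symg_nR m b))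
        (In (2 * m) (V (m + k) (sw i b))) =
      triC m k (s (-u) • V m (sw i (symg_nL m b y))) (V k (symg_nR m b))
        (In (2 * m) (s u • V (m + k) (sw i b))) := by
    rw [map_smul, symf_triC_smul1, symf_triC_smul3]; ring
  have hun := unitarity i (-u) (In (2 * m) (V (m + k) b))
  rw [neg_neg] at hun
  rw [e1, hv, hw, symf_triC_Rt_left (by omega), ← Rt_In_lt (by omega), hun, symf_triC_smul3]
  ring

theorem GG_ng0 {m : ℕ} (hm : 1 ≤ m) (k : ℕ) (b : ℕ → ℝ) (y : ℝ) : GG m k (ng 0 b) y = GG m k b y := by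
  have e1 : symg_nL m (ng 0 b) y = ng 0 (symg_nL m b y) := by
    unfold ng
    rw [symg_nL_update_lt (by omega)]
    have : symg_nL m b y 0 = -b 0 := by
      unfold symg_nL
      rw [if_pos (by omega)]
    rw [this]
  have e2 : symg_nR m (ng 0 b) = symg_nR m b := by
    unfold ng
    exact symg_nR_update_lt (by omega) _ _
  rw [symg_def, symg_def, e1, e2, V_ngL, V_ngL]
end IP.Junc
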