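import Pool.Agent.Helper80.J.SymG
/-! MODULE SymH: symmetries and degrees of `HH` (part of `Sym.lean`), proved by helper12. -/
namespace IP.Junc
open IP IP.Slit Finset Real

/-- the parameters of the right leg -/
noncomputable def symh_nR (m : ℕ) (b : ℕ → ℝ) (y : ℝ) : ℕ → ℝ := fun j => if j = 0 then π / 6 - y else π / 6 - b (2 * m + j)

theorem symh_def (m k : ℕ) (b : ℕ → ℝ) (y : ℝ) :
    HH m k b y = triC m k (V m (symf_nL b)) (V k (symh_nR m b y)) (In (2 * m + 1) (V (m + k) b)) := rfl

theorem symh_Sup (m : ℕ) {k : ℕ} (hk : 0 < k) (b : ℕ → ℝ) : In (2 * m + 1) (V (m + k) b) ∈ Sup (W (m + k + 1)) :=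
  In_Sup (by omega) (V_Sup _ _)

theorem symh_sum (m : ℕ) {k : ℕ} (hk : 0 < k) (b : ℕ → ℝ) (y : ℝ) : HH m k b y = ∑ t1 ∈ (W_finite m).toFinset,
    ∑ t2 ∈ (W_finite k).toFinset, ∑ σ ∈ (W_finite (m + k + 1)).toFinset,
      V m (symf_nL b) t1 * V k (symh_nR m b y) t2 * In (2 * m + 1) (V (m + k) b) σ *
        (1 - cf m k t1 t2 σ) := by
  rw [symh_def, symf_triC_sum m k (V_Sup m _) (V_Sup k _) (symh_Sup m hk b)]

theorem symh_nR_update {m j : ℕ} (hj : j ≠ 0) (b : ℕ → ℝ) (y x : ℝ) :
    symh_nR m (Function.update b (2 * m + j) x) y = Function.update (symh_nR m b y) j (π / 6 - x) := by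
  funext i
  unfold symh_nR
  by_cases h : i = j
  · subst h
    rw [Function.update_self, Function.update_self, if_neg hj]
  · rw [Function.update_of_ne h]
    by_cases h0 : i = 0
    · rw [if_pos h0, if_pos h0]
    · rw [if_neg h0, if_neg h0, Function.update_of_ne (by omega)]

theorem symh_nR_update_lt {m j : ℕ} (h : j < 2 * m + 1) (b : ℕ → ℝ) (y x : ℝ) :
    symh_nR m (Function.update b j x) y = symh_nR m b y := by
  funext i
  unfold symh_nR
  by_cases h0 : i = 0
  · rw [if_pos h0, if_pos h0]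
  · rw [if_neg h0, if_neg h0, Function.update_of_ne (by omega)]

theorem symh_nR_sw {m j : ℕ} (hj : j ≠ 0) (b : ℕ → ℝ) (y : ℝ) :
    symh_nR m (sw (2 * m + j) b) y = sw j (symh_nR m b y) := by
  funext i
  by_cases h1 : i = j
  · subst h1
    rw [nb_sw_left]
    unfold symh_nR
    rw [if_neg hj, if_neg (by omega), nb_sw_left]
    rfl
  · by_cases h2 : i = j + 1
    · subst h2
      rw [nb_sw_right]
      unfold symh_nR
      rw [if_neg (by omega), if_neg hj, show 2 * m + (j + 1) = 2 * m + j + 1 by ring, nb_sw_right]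
    · rw [nb_sw_ne h1 h2]
      unfold symh_nR
      by_cases h0 : i = 0
      · rw [if_pos h0, if_pos h0]
      · rw [if_neg h0, if_neg h0, nb_sw_ne (by omega) (by omega)]

theorem HH_Sep (m : ℕ) {k : ℕ} (hk : 0 < k) (y : ℝ) :
    Sep (2 * (m + k) + 1) (2 * m + 2 * k + 2 * (m + k)) (fun b => HH m k b y) := by
  simp only [symh_sum m hk]
  refine Sep.sum _ fun t1 _ => Sep.sum _ fun t2 _ => Sep.sum _ fun σ _ => ?_
  have e1 : Sep (2 * (m + k) + 1) (2 * m) (fun b => V m (symf_nL b) t1) := by
    refine symf_comp (V_Sep m t1) symf_nL (fun b j hj => ?_) (fun b b' h i hi => ?_)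
    · by_cases h : j < 2 * m + 1
      · refine Or.inr (Or.inl ⟨j, h, 0, fun x i _ => ?_⟩)
        rw [symf_nL_update, zero_sub]
      · refine Or.inr (Or.inr fun x i hi => ?_)
        unfold symf_nL
        rw [Function.update_of_ne (by omega)]
    · unfold symf_nL
      rw [h i (by omega)]
  have e2 : Sep (2 * (m + k) + 1) (2 * k) (fun b => V k (symh_nR m b y) t2) := by
    refine symf_comp (V_Sep k t2) (fun b => symh_nR m b y) (fun b j hj => ?_) (fun b b' h i hi => ?_)
    · by_cases h : j < 2 * m + 1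
      · exact Or.inr (Or.inr fun x i _ => by rw [symh_nR_update_lt h])
      · obtain ⟨j', rfl⟩ := Nat.exists_eq_add_of_le (show 2 * m ≤ j by omega)
        exact Or.inr (Or.inl ⟨j', by omega, π / 6, fun x i _ => by rw [symh_nR_update (by omega)]⟩)
    · simp only [symh_nR]
      by_cases h0 : i = 0
      · rw [if_pos h0, if_pos h0]
      · rw [if_neg h0, if_neg h0, h _ (by omega)]
  have e3 : Sep (2 * (m + k) + 1) (2 * (m + k)) (fun b => In (2 * m + 1) (V (m + k) b) σ) :=
    rc_In_V_Sep (m + k) (2 * m + 1) σ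
  have := ((e1.mul e2).mul e3).smul (1 - cf m k t1 t2 σ)
  convert this using 1
  funext b
  ring

theorem HH_swB {m k i : ℕ} (h : 2 * m + 1 ≤ i) (h2 : i < 2 * m + 2 * k) (b : ℕ → ℝ) (y : ℝ) :
    HH m k (sw i b) y = HH m k b y := by
  obtain ⟨j, rfl⟩ := Nat.exists_eq_add_of_le (show 2 * m ≤ i by omega)
  have hj : j ≠ 0 := by omega
  refine symf_of_mul (by omega) (HH_Sep m (by omega) y) (fun b => ?_) b
  have hv := V_sw (n := m + k) (i := 2 * m + j) (by omega) b
  have hw := V_sw (n := k) (i := j) (by omega) (symh_nR m b y)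
  have hd : symh_nR m b y j - symh_nR m b y (j + 1) = -(b (2 * m + j) - b (2 * m + j + 1)) := by
    unfold symh_nR
    rw [if_neg hj, if_neg (by omega), show 2 * m + (j + 1) = 2 * m + j + 1 by ring]
    ring
  rw [hd] at hw
  set u := b (2 * m + j) - b (2 * m + j + 1) with hu
  rw [symh_def, symh_def, symh_nR_sw hj, symf_nL_sw_ge h]
  have e1 : s u * s (-u) * triC m k (V m (symf_nL b)) (V k (sw j (symh_nR m b y)))
        (In (2 * m + 1) (V (m + k) (sw (2 * m + j) b))) =
      triC m k (V m (symf_nL b)) (s (-u) • V k (sw j (symh_nR m b y)))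
        (In (2 * m + 1) (s u • V (m + k) (sw (2 * m + j) b))) := by
    rw [map_smul, symf_triC_smul2, symf_triC_smul3]; ring
  have hun := unitarity (2 * m + 2 + j) (-u) (In (2 * m + 1) (V (m + k) b))
  rw [neg_neg] at hun
  rw [e1, hv, hw, symf_triC_Rt_right (by omega), ← Rt_In_gt (show 2 * m + 1 ≤ 2 * m + j by omega),
    show 2 * m + j + 2 = 2 * m + 2 + j by ring, hun, symf_triC_smul3]
  ring

/-- reflection of the tip strand in the right leg -/
theorem HH_refl (m k : ℕ) (b : ℕ → ℝ) (y : ℝ) : HH m k b (π / 3 - y) = HH m k b y := by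
  have e : symh_nR m b (π / 3 - y) = ng 0 (symh_nR m b y) := by
    unfold ng
    funext i
    by_cases h0 : i = 0
    · subst h0
      rw [Function.update_self]
      unfold symh_nR
      rw [if_pos rfl, if_pos rfl]
      ring
    · rw [Function.update_of_ne h0]
      unfold symh_nR
      rw [if_neg h0, if_neg h0]
  rw [symh_def, symh_def, e, V_ngL]

theorem HH_TP (m k : ℕ) (b : ℕ → ℝ) : TP (2 * k) (HH m k b) := by
  rcases Nat.eq_zero_or_pos k with rfl | hk
  · have e0 : HH m 0 b = fun _ => HH m 0 b 0 := by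
      funext y
      rw [symh_def, symh_def, V_zero, V_zero]
    rw [e0]
    exact TP.const _
  have e : HH m k b = fun y => ∑ t1 ∈ (W_finite m).toFinset,
      ∑ t2 ∈ (W_finite k).toFinset, ∑ σ ∈ (W_finite (m + k + 1)).toFinset,
        V m (symf_nL b) t1 * V k (symh_nR m b y) t2 * In (2 * m + 1) (V (m + k) b) σ *
          (1 - cf m k t1 t2 σ) := funext fun y => symh_sum m hk b y
  rw [e]
  refine TP.sum _ fun t1 _ => TP.sum _ fun t2 _ => TP.sum _ fun σ _ => ?_
  have e2 : TP (2 * k) (fun y => V k (symh_nR m b y) t2) := by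
    have e3 : (fun y => V k (symh_nR m b y) t2) =
        fun y => V k (Function.update (symh_nR m b 0) 0 (π / 6 - y)) t2 := by
      funext y
      refine (V_Sep k t2).2 _ _ fun j hj => ?_
      unfold symh_nR
      by_cases h : j = 0
      · subst h
        rw [Function.update_self, if_pos rfl]
      · rw [Function.update_of_ne h, if_neg h, if_neg h]
    rw [e3]
    exact symf_TP_refl ((V_Sep k t2).1 (symh_nR m b 0) 0 (by omega)) (π / 6)
  have := e2.smul (V m (symf_nL b) t1 * In (2 * m + 1) (V (m + k) b) σ * (1 - cf m k t1 t2 σ))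
  convert this using 1
  funext y
  ring
end IP.Junc
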