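import Pool.Agent.Helper80.J.Defs
/-! MODULE TriTip: contraction of the tip strand.  States as in `Slit/Tri.lean` (`lift2`, `tri_In_left'`).
`ins (2m+2)` on the lower state puts a new singleton at site `m+1`, `ins (2m+1)` on the upper left state doubles its site `m`
(sites `m`, `m+1` joined): in the glued partition the site `m+1` is the wall side of the slit and everything else is as before.
`ins (2m+1)` on the lower state doubles the site `m` (slit side), `ins 0` on the upper right state puts a new singleton at its site `0`. -/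
namespace IP.Junc
open IP IP.Slit Finset

/-! ### the crossing event -/

theorem tritip_crossL (m k : ℕ) (t1 t2 σ : St) :
    cross (m + 1) k (ins (2 * m + 1) t1) t2 (ins (2 * m + 2) σ) ↔ cross m k t1 t2 σ := by
  rw [tri_cross_iff, tri_cross_iff]
  have e0 : 2 * m + 2 = 2 * (m + 1) := by ring
  rw [e0, ha_ins_even, ha_ins_odd]
  set τ : St := lift2 (m + 1) (Setoid.comap (coll m) t1) t2 with hτ
  have h1 : (insS (m + 1) σ ⊔ τ) m (m + 1) := by
    have h2 : τ ≤ insS (m + 1) σ ⊔ τ := le_sup_right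
    rw [Setoid.le_def] at h2
    refine h2 ?_
    rw [hτ, tri_lift2_ll _ _ (by omega) (by omega), Setoid.comap_rel]
    have e : coll m m = coll m (m + 1) := by unfold coll; split_ifs <;> omega
    rw [e]
  have h3 : (insS (m + 1) σ ⊔ τ) (m + 1) (m + 1 + k + 1) ↔ (insS (m + 1) σ ⊔ τ) m (m + 1 + k + 1) :=
    ⟨fun h => (insS (m + 1) σ ⊔ τ).trans h1 h,
      fun h => (insS (m + 1) σ ⊔ τ).trans ((insS (m + 1) σ ⊔ τ).symm h1) h⟩
  rw [h3]
  have e1 : skip (m + 1) m = m := by unfold skip; split_ifs <;> omega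
  have e2 : skip (m + 1) (m + k + 1) = m + 1 + k + 1 := by unfold skip; split_ifs <;> omega
  have h4 := tri_insS_sup (m + 1) σ τ m (m + k + 1)
  rw [e1, e2] at h4
  rw [h4, hτ, tri_lift2_comapL (by omega)]
  have e3 : Setoid.comap (skip (m + 1)) (Setoid.comap (coll m) t1) = t1 := by
    ext x y
    rw [Setoid.comap_rel, Setoid.comap_rel, ha_coll_skip, ha_coll_skip]
  rw [e3]

theorem tritip_comap_insS (k : ℕ) (t : St) : Setoid.comap (skip k) (insS k t) = t := by
  ext x y
  rw [Setoid.comap_rel, ha_insS_iff, ha_unskip_skip, ha_unskip_skip]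
  constructor
  · rintro (h | ⟨_, _, h⟩)
    · have e : x = y := by rw [← ha_unskip_skip k x, h, ha_unskip_skip]
      rw [e]
    · exact h
  · intro h
    exact Or.inr ⟨ha_skip_ne k x, ha_skip_ne k y, h⟩

theorem tritip_crossR (m k : ℕ) (t1 t2 σ : St) :
    cross m (k + 1) t1 (ins 0 t2) (ins (2 * m + 1) σ) ↔ cross m k t1 t2 σ := by
  rw [tri_cross_iff, tri_cross_iff]
  have e0 : ins 0 t2 = insS 0 t2 := ha_ins_even 0 t2
  rw [e0, ha_ins_odd]
  refine (tri_coll_sup m σ _ _ _).trans ?_
  have e1 : coll m m = m := by unfold coll; split_ifs <;> omega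
  have e2 : coll m (m + (k + 1) + 1) = m + k + 1 := by unfold coll; split_ifs <;> omega
  rw [e1, e2]
  have e3 : Setoid.comap (skip (m + 1)) (join m (m + 1) (lift2 m t1 (insS 0 t2))) = lift2 m t1 t2 := by
    have e4 : Setoid.comap (skip (m + 1)) (join m (m + 1) (lift2 m t1 (insS 0 t2))) =
        Setoid.comap (skip (m + 1)) (lift2 m t1 (insS 0 t2)) := by
      have hs : ∀ x, ¬ (lift2 m t1 (insS 0 t2)) (skip (m + 1) x) (m + 1) := by
        intro x h
        have hx : skip (m + 1) x ≠ m + 1 := ha_skip_ne _ _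
        rw [tri_lift2_iff] at h
        rcases h with ⟨_, h, _⟩ | ⟨h1, _, h2⟩
        · omega
        · rw [ha_insS_iff] at h2
          rcases h2 with h2 | ⟨_, h2, _⟩
          · omega
          · omega
      ext x y
      rw [Setoid.comap_rel, Setoid.comap_rel, ha_join_iff]
      constructor
      · rintro (h | ⟨_, h⟩ | ⟨h, _⟩)
        · exact h
        · exact absurd ((lift2 m t1 (insS 0 t2)).symm h) (hs y)
        · exact absurd h (hs x)
      · exact Or.inl
    rw [e4]
    have h5 := tri_lift2_comapR m 0 t1 (insS 0 t2)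
    rw [add_zero] at h5
    rw [h5, tritip_comap_insS]
  rw [e3]

theorem tritip_cross_zero (k : ℕ) (t1 t2 σ : St) : ¬ cross 0 k t1 t2 (ins 0 σ) := by
  rw [tri_cross_iff]
  have e0 : ins 0 σ = insS 0 σ := ha_ins_even 0 σ
  rw [e0]
  intro h
  have h1 : insS 0 σ ⊔ lift2 0 t1 t2 ≤ detach 0 (⊤ : St) := by
    refine sup_le ?_ ?_
    · rw [Setoid.le_def]
      intro x y hxy
      rw [ha_insS_iff] at hxy
      rw [ha_detach_iff]
      rcases hxy with h | ⟨h2, h3, _⟩
      · exact Or.inl h
      · exact Or.inr ⟨h2, h3, trivial⟩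
    · rw [Setoid.le_def]
      intro x y hxy
      rw [tri_lift2_iff] at hxy
      rw [ha_detach_iff]
      rcases hxy with ⟨h2, h3, _⟩ | ⟨h2, h3, _⟩
      · exact Or.inl (by omega)
      · exact Or.inr ⟨by omega, by omega, trivial⟩
  rw [Setoid.le_def] at h1
  have h2 := h1 h
  rw [ha_detach_iff] at h2
  rcases h2 with h2 | ⟨h2, _, _⟩
  · omega
  · exact h2 rfl

theorem tritip_cross_full (m : ℕ) (t1 t2 σ : St) : cross m 0 t1 t2 (ins (2 * m + 1) σ) := by
  rw [tri_cross_iff, ha_ins_odd]
  have h2 : Setoid.comap (coll m) σ ≤ Setoid.comap (coll m) σ ⊔ lift2 m t1 t2 := le_sup_left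
  rw [Setoid.le_def] at h2
  refine h2 ?_
  rw [Setoid.comap_rel]
  have e : coll m m = coll m (m + 0 + 1) := by unfold coll; split_ifs <;> omega
  rw [e]

/-! ### the trilinear form -/

theorem tritip_lin {n1 n2 m1 m2 : ℕ} (f1 f2 f : M →ₗ[ℝ] M) (g1 g2 g : St → St)
    (e1 : ∀ t x, f1 (Finsupp.single t x) = Finsupp.single (g1 t) x)
    (e2 : ∀ t x, f2 (Finsupp.single t x) = Finsupp.single (g2 t) x)
    (e : ∀ t x, f (Finsupp.single t x) = Finsupp.single (g t) x)
    (h : ∀ t1 t2 σ, cross n1 n2 (g1 t1) (g2 t2) (g σ) ↔ cross m1 m2 t1 t2 σ) (v1 v2 v : M) :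
    tri n1 n2 (f1 v1) (f2 v2) (f v) = tri m1 m2 v1 v2 v := by
  classical
  induction v1 using Finsupp.induction_linear with
  | zero => rw [map_zero, tri_zero1, tri_zero1]
  | add w w' h1 h2 => rw [map_add, tri_add1, tri_add1, h1, h2]
  | single t1 x1 =>
    induction v2 using Finsupp.induction_linear with
    | zero => rw [map_zero, tri_zero2, tri_zero2]
    | add w w' h1 h2 => rw [map_add, tri_add2, tri_add2, h1, h2]
    | single t2 x2 =>
      induction v using Finsupp.induction_linear with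
      | zero => rw [map_zero, tri_zero3, tri_zero3]
      | add w w' h1 h2 => rw [map_add, tri_add3, tri_add3, h1, h2]
      | single σ x =>
        rw [e1, e2, e, tri_single, tri_single, tri_cf_congr (h t1 t2 σ)]

theorem tri_tipL (m k : ℕ) {v1 v2 v : M} (h1 : v1 ∈ Sup (W m)) (h2 : v2 ∈ Sup (W k)) (h : v ∈ Sup (W (m + k + 1))) :
    tri (m + 1) k (In (2 * m + 1) v1) v2 (In (2 * m + 2) v) = tri m k v1 v2 v :=
  tritip_lin (In (2 * m + 1)) LinearMap.id (In (2 * m + 2)) (ins (2 * m + 1)) id (ins (2 * m + 2))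
    (fun t x => In_single _ t x) (fun _ _ => rfl) (fun t x => In_single _ t x)
    (fun t1 t2 σ => tritip_crossL m k t1 t2 σ) v1 v2 v
theorem tri_tipR (m k : ℕ) {v1 v2 v : M} (h1 : v1 ∈ Sup (W m)) (h2 : v2 ∈ Sup (W k)) (h : v ∈ Sup (W (m + k + 1))) :
    tri m (k + 1) v1 (In 0 v2) (In (2 * m + 1) v) = tri m k v1 v2 v :=
  tritip_lin LinearMap.id (In 0) (In (2 * m + 1)) id (ins 0) (ins (2 * m + 1))
    (fun _ _ => rfl) (fun t x => In_single _ t x) (fun t x => In_single _ t x)
    (fun t1 t2 σ => tritip_crossR m k t1 t2 σ) v1 v2 v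
/-- the side of the slit is isolated -/
theorem tri_tip_zero (k : ℕ) {v1 v2 v : M} (h1 : v1 ∈ Sup (W 0)) (h2 : v2 ∈ Sup (W k)) (h : v ∈ Sup (W k)) :
    tri 0 k v1 v2 (In 0 v) = 0 := by
  clear h1 h2 h
  induction v1 using Finsupp.induction_linear with
  | zero => rw [tri_zero1]
  | add w w' h1 h2 => rw [tri_add1, h1, h2, add_zero]
  | single t1 x1 =>
    induction v2 using Finsupp.induction_linear with
    | zero => rw [tri_zero2]
    | add w w' h1 h2 => rw [tri_add2, h1, h2, add_zero]
    | single t2 x2 =>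
      induction v using Finsupp.induction_linear with
      | zero => rw [map_zero, tri_zero3]
      | add w w' h1 h2 => rw [map_add, tri_add3, h1, h2, add_zero]
      | single σ x =>
        rw [In_single, tri_single]
        unfold cf
        rw [if_neg (tritip_cross_zero k t1 t2 σ), mul_zero]
/-- the side of the slit is joined to the wall -/
theorem tri_tip_full (m : ℕ) {v1 v2 v : M} (h1 : v1 ∈ Sup (W m)) (h2 : v2 ∈ Sup (W 0)) (h : v ∈ Sup (W m)) :
    tri m 0 v1 v2 (In (2 * m + 1) v) = tot v1 * tot v2 * tot v := by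
  clear h1 h2 h
  induction v1 using Finsupp.induction_linear with
  | zero => rw [tri_zero1, map_zero, zero_mul, zero_mul]
  | add w w' h1 h2 => rw [tri_add1, h1, h2, map_add]; ring
  | single t1 x1 =>
    induction v2 using Finsupp.induction_linear with
    | zero => rw [tri_zero2, map_zero, mul_zero, zero_mul]
    | add w w' h1 h2 => rw [tri_add2, h1, h2, map_add]; ring
    | single t2 x2 =>
      induction v using Finsupp.induction_linear with
      | zero => rw [map_zero, tri_zero3, map_zero, mul_zero]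
      | add w w' h1 h2 => rw [map_add, tri_add3, h1, h2, map_add]; ring
      | single σ x =>
        rw [In_single, tri_single, tot_single, tot_single, tot_single]
        unfold cf
        rw [if_pos (tritip_cross_full m t1 t2 σ), mul_one]
theorem triC_tipL (m k : ℕ) {v1 v2 v : M} (h1 : v1 ∈ Sup (W m)) (h2 : v2 ∈ Sup (W k)) (h : v ∈ Sup (W (m + k + 1))) :
    triC (m + 1) k (In (2 * m + 1) v1) v2 (In (2 * m + 2) v) = triC m k v1 v2 v := by
  unfold triC
  rw [tri_tipL m k h1 h2 h, tot_In, tot_In]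
theorem triC_tipR (m k : ℕ) {v1 v2 v : M} (h1 : v1 ∈ Sup (W m)) (h2 : v2 ∈ Sup (W k)) (h : v ∈ Sup (W (m + k + 1))) :
    triC m (k + 1) v1 (In 0 v2) (In (2 * m + 1) v) = triC m k v1 v2 v := by
  unfold triC
  rw [tri_tipR m k h1 h2 h, tot_In, tot_In]
/-- scaling -/
theorem triC_smul1 (m k : ℕ) (c : ℝ) (v1 v2 v : M) : triC m k (c • v1) v2 v = c * triC m k v1 v2 v := by
  unfold triC
  rw [tri_smul1, map_smul, smul_eq_mul]
  ring
theorem triC_smul2 (m k : ℕ) (c : ℝ) (v1 v2 v : M) : triC m k v1 (c • v2) v = c * triC m k v1 v2 v := by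
  unfold triC
  rw [tri_smul2, map_smul, smul_eq_mul]
  ring
theorem triC_smul3 (m k : ℕ) (c : ℝ) (v1 v2 v : M) : triC m k v1 v2 (c • v) = c * triC m k v1 v2 v := by
  unfold triC
  rw [tri_smul3, map_smul, smul_eq_mul]
  ring
end IP.Junc
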